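import Pool.Agent.Y674.PS.Fun
import Pool.Agent.Y157.PS.Num

/-!
# Sections and functions of the larger field

(helper44, project FP.)  A section for `F` induces a section `S` of the geometrically pro-`ℓ` group of
`F₀ = k(x, w)` which fixes the elements of `F`.
-/

set_option autoImplicit false
set_option linter.all false

open Polynomial FF

namespace Pool.Agent.J4H44.FP

open Pool.Agent.Y157.PS Pool.Agent.Y674.PS

section

variable {k F₀ Ω₀ F Ω : Type} [Field k] [Field F₀] [Field Ω₀] [Field F] [Field Ω] [Algebra k F₀]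
  [Algebra F₀ Ω₀] [Algebra k Ω₀] [IsScalarTower k F₀ Ω₀] [Algebra k F] [Algebra F Ω]
  [Algebra k Ω] [IsScalarTower k F Ω]

/-- part FUN, with the elements of `F` -/
theorem absFunX (hI : S_INRT) (ℓ : ℕ) [Fact ℓ.Prime] [CharZero k] [IsAlgClosed Ω₀]
    [Algebra.IsAlgebraic F₀ Ω₀] [IsAlgClosed Ω] [Algebra.IsAlgebraic F Ω]
    (i : F₀ →ₐ[k] F) (u : Ω₀ →+* Ω) (hu : ∀ a, u (algebraMap F₀ Ω₀ a) = algebraMap F Ω (i a))
    (x₀ : F₀) (hx : Transcendental k x₀)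
    (halg : Algebra.IsAlgebraic (IntermediateField.adjoin k {x₀}) F₀)
    (U : Set (ValuationSubring F)) (hU : ∀ O ∈ U, ∀ c : k, algebraMap k F c ∈ O)
    (G : Pool.Agent.W620.SC.GSection k F Ω U) :
    ∃ S : (algebraicClosure k Ω₀ ≃ₐ[k] algebraicClosure k Ω₀) →*
          (geomPro ℓ k F₀ Ω₀ ≃ₐ[F₀] geomPro ℓ k F₀ Ω₀), Continuous S ∧
        (∀ σ (c : algebraicClosure k Ω₀) (z : geomPro ℓ k F₀ Ω₀), (z : Ω₀) = (c : Ω₀) →
          (S σ z : Ω₀) = (σ c : Ω₀)) ∧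
        ∀ σ (z : geomPro ℓ k F₀ Ω₀) (a : F), u (z : Ω₀) = algebraMap F Ω a → S σ z = z := by
  haveI : IsAlgClosure F₀ Ω₀ := ⟨inferInstance, inferInstance⟩
  have hinj := u.injective
  have hk : ∀ c : k, u (algebraMap k Ω₀ c) = algebraMap k Ω c := by
    intro c
    rw [IsScalarTower.algebraMap_apply k F₀ Ω₀, hu, i.commutes,
      ← IsScalarTower.algebraMap_apply k F Ω]
  obtain ⟨h1, h2⟩ := hI ℓ k F₀ Ω₀ x₀ hx halg
  have hu' : ∀ a, u (algebraMap F₀ Ω₀ a) = algebraMap F Ω ((i : F₀ →+* F) a) := hu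
  -- the elements of the geometrically pro-`ℓ` extension are unramified
  have hMN : ∀ z ∈ geomPro ℓ k F₀ Ω₀, u z ∈ Pool.Agent.W620.SC.unramified F Ω U := by
    intro z hz
    rw [Pool.Agent.W620.SC.mem_unramified]
    intro W hW τ hτ
    obtain ⟨τ₀, hτ₀⟩ := aut0 (i : F₀ →+* F) u hu' τ
    have h3 := h1 (W.comap u) (fun c => by
      rw [ValuationSubring.mem_comap, hk, IsScalarTower.algebraMap_apply k F Ω]
      have h4 := hU _ hW c
      rwa [ValuationSubring.mem_comap] at h4) τ₀ (fun y => by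
      rw [ValuationSubring.mem_comap, ValuationSubring.mem_comap, hτ₀]
      constructor
      · intro hy
        have h3 := (Pool.Agent.W620.SC.inertia_spec (inv_mem hτ) hy).1
        have h4 : (τ⁻¹ : Ω ≃ₐ[F] Ω) (τ (u y)) = u y := τ.symm_apply_apply (u y)
        rw [h4] at h3
        exact h3
      · intro hy
        exact (Pool.Agent.W620.SC.inertia_spec hτ hy).1) (fun y hy => by
      rw [ValuationSubring.mem_comap] at hy
      have h4 := (Pool.Agent.W620.SC.inertia_spec hτ hy).2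
      rw [← hτ₀, ← map_sub] at h4
      rw [nonunits_iff] at h4 ⊢
      rw [ValuationSubring.mem_comap, ValuationSubring.mem_comap, map_inv₀]
      refine ⟨h4.1, ?_⟩
      rcases h4.2 with h5 | h5
      · left
        apply hinj
        rw [h5, map_zero]
      · exact Or.inr h5) z hz
    rw [← hτ₀, h3]
  have hM : ∀ σ : Ω ≃ₐ[F] Ω, ∀ z ∈ geomPro ℓ k F₀ Ω₀, ∃ w ∈ geomPro ℓ k F₀ Ω₀, u w = σ (u z) := by
    intro σ z hz
    obtain ⟨σ₀, hσ₀⟩ := aut0 (i : F₀ →+* F) u hu' σ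
    exact ⟨σ₀ z, h2 σ₀ z hz, hσ₀ z⟩
  obtain ⟨Φ, hΦ, hΦ'⟩ := restr' (i : F₀ →+* F) u hu' (geomPro ℓ k F₀ Ω₀)
    (Pool.Agent.W620.SC.unramified F Ω U) hMN hM
  obtain ⟨j, hj⟩ := jex (k := k) u hk
  refine ⟨(Φ.comp G.toHom).comp (AlgEquiv.autCongr j : _ →* _),
    (hΦ.comp G.cont).comp (conj_cont j), ?_, ?_⟩
  · intro σ c z hz
    apply hinj
    have h3 := hΦ' (G.toHom (AlgEquiv.autCongr j σ)) ⟨u (z : Ω₀), hMN _ z.2⟩ z rfl
    have h4 := G.compat (AlgEquiv.autCongr j σ) (j c) ⟨u (z : Ω₀), hMN _ z.2⟩ (by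
      rw [hj, ← hz])
    have h5 : ((AlgEquiv.autCongr j σ) (j c) : algebraicClosure k Ω) = j (σ c) := by
      change j (σ (j.symm (j c))) = j (σ c)
      rw [j.symm_apply_apply]
    rw [h5, hj] at h4
    exact h3.trans h4
  · intro σ z a ha
    apply Subtype.ext
    apply hinj
    have h3 := hΦ' (G.toHom (AlgEquiv.autCongr j σ)) ⟨u (z : Ω₀), hMN _ z.2⟩ z rfl
    have h4 : (⟨u (z : Ω₀), hMN _ z.2⟩ : Pool.Agent.W620.SC.unramified F Ω U) =
        algebraMap F (Pool.Agent.W620.SC.unramified F Ω U) a := Subtype.ext ha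
    rw [h4, AlgEquiv.commutes] at h3
    exact h3.trans ha.symm

end

/-- part FUN for `F₀ = k(x, w)`, with the elements of `F` -/
theorem functX (hI : S_INRT) (ℓ : ℕ) [Fact ℓ.Prime] (k F Ω : Type) [Field k] [CharZero k]
    [Field F] [Field Ω] [Algebra k F] [Algebra F Ω] [Algebra k Ω] [IsScalarTower k F Ω]
    [IsAlgClosed Ω] [Algebra.IsAlgebraic F Ω]
    (U : Set (ValuationSubring F)) (hU : ∀ O ∈ U, ∀ c : k, algebraMap k F c ∈ O)
    (G : Pool.Agent.W620.SC.GSection k F Ω U) (x y : F) (hx : Transcendental k x)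
    (hy : IsAlgebraic (IntermediateField.adjoin k {x}) y) :
    ∃ (F₀ Ω₀ : Type) (_ : Field F₀) (_ : Field Ω₀) (_ : Algebra k F₀) (_ : Algebra F₀ Ω₀)
      (_ : Algebra k Ω₀) (_ : IsScalarTower k F₀ Ω₀) (_ : IsAlgClosed Ω₀)
      (_ : Algebra.IsAlgebraic F₀ Ω₀) (i : F₀ →ₐ[k] F) (u : Ω₀ →+* Ω) (x₀ y₀ : F₀),
      (∀ a, u (algebraMap F₀ Ω₀ a) = algebraMap F Ω (i a)) ∧
      i x₀ = x ∧ i y₀ = y ∧ IntermediateField.adjoin k {x₀, y₀} = (⊤ : IntermediateField k F₀) ∧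
      ∃ S : (algebraicClosure k Ω₀ ≃ₐ[k] algebraicClosure k Ω₀) →*
          (geomPro ℓ k F₀ Ω₀ ≃ₐ[F₀] geomPro ℓ k F₀ Ω₀), Continuous S ∧
        (∀ σ (c : algebraicClosure k Ω₀) (z : geomPro ℓ k F₀ Ω₀), (z : Ω₀) = (c : Ω₀) →
          (S σ z : Ω₀) = (σ c : Ω₀)) ∧
        ∀ σ (z : geomPro ℓ k F₀ Ω₀) (a : F), u (z : Ω₀) = algebraMap F Ω a → S σ z = z := by
  have hxm : x ∈ IntermediateField.adjoin k {x, y} :=
    IntermediateField.subset_adjoin k _ (by simp)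
  have hym : y ∈ IntermediateField.adjoin k {x, y} :=
    IntermediateField.subset_adjoin k _ (by simp)
  obtain ⟨F₀, hF₀⟩ : ∃ F₀ : IntermediateField k F, F₀ = IntermediateField.adjoin k {x, y} :=
    ⟨_, rfl⟩
  rw [← hF₀] at hxm hym
  letI a1 : Algebra F₀ Ω := inferInstance
  haveI a2 : IsScalarTower F₀ F Ω := inferInstance
  letI a4 : Algebra k (algebraicClosure F₀ Ω) :=
    ((algebraMap F₀ (algebraicClosure F₀ Ω)).comp (algebraMap k F₀)).toAlgebra
  haveI a5 : IsScalarTower k F₀ (algebraicClosure F₀ Ω) := IsScalarTower.of_algebraMap_eq fun _ => rfl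
  haveI a6 : IsAlgClosed (algebraicClosure F₀ Ω) := (acl F₀ Ω).1
  haveI a7 : Algebra.IsAlgebraic F₀ (algebraicClosure F₀ Ω) := (acl F₀ Ω).2
  have htop : IntermediateField.adjoin k {(⟨x, hxm⟩ : F₀), ⟨y, hym⟩} =
      (⊤ : IntermediateField k F₀) := by
    apply IntermediateField.map_injective F₀.val
    rw [IntermediateField.adjoin_map, Set.image_pair, ← AlgHom.fieldRange_eq_map,
      IntermediateField.fieldRange_val]
    exact hF₀.symm
  have hx0 : Transcendental k (⟨x, hxm⟩ : F₀) := by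
    rw [← transcendental_algebraMap_iff (R := k) (A := F) (algebraMap F₀ F).injective]
    exact hx
  have halg := alg_gen F₀.val (⟨x, hxm⟩ : F₀) ⟨y, hym⟩ htop hy
  exact ⟨F₀, algebraicClosure F₀ Ω, inferInstance, inferInstance, inferInstance, inferInstance, a4,
    a5, a6, a7, F₀.val, algebraMap (algebraicClosure F₀ Ω) Ω, ⟨x, hxm⟩, ⟨y, hym⟩, fun _ => rfl,
    rfl, rfl, htop,
    absFunX hI ℓ F₀.val (algebraMap (algebraicClosure F₀ Ω) Ω) (fun _ => rfl) _ hx0 halg U hU G⟩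

end Pool.Agent.J4H44.FP
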