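import Pool.Agent.J4H44.FP.Loc
import Pool.Agent.J4H44.FP.Fun
import Pool.Agent.Y157.PS.Sup2

/-!
# Curves `a y^ℓ = f(x)`, `b z^ℓ = g(x)` without points and sections

(helper44, project FP.)
-/

set_option autoImplicit false
set_option linter.all false

open Polynomial FF

namespace Pool.Agent.J4H44.FP

open Pool.Agent.Y157.PS

/-- `H` vanishes at `e + ∑ t i c i` for all algebraic `e`, `c i` with `f(e) = 0`,
`b i (c i)^ℓ = g i (e)` -/
def Van (ℓ : ℕ) {k : Type} [Field k] {r : ℕ} (b t : Fin r → k) (f : k[X]) (g : Fin r → k[X])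
    (H : k[X]) : Prop :=
  ∀ (κ : Type) [Field κ] [Algebra k κ] [Algebra.IsAlgebraic k κ] (e : κ) (c : Fin r → κ),
    aeval e f = 0 → (∀ i, algebraMap k κ (b i) * c i ^ ℓ = aeval e (g i)) →
      aeval (e + ∑ i, algebraMap k κ (t i) * c i) H = 0

theorem isU_prod {M ι : Type} [CommRing M] (T : Finset ι) (z : ι → M)
    (h : ∀ i ∈ T, IsUnit (z i)) : IsUnit (∏ i ∈ T, z i) := by
  classical
  induction T using Finset.induction_on with
  | empty =>
    rw [Finset.prod_empty]
    exact isUnit_one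
  | insert a T ha ih =>
    rw [Finset.prod_insert ha]
    exact (h a (Finset.mem_insert_self a T)).mul
      (ih fun i hi => h i (Finset.mem_insert_of_mem hi))

section pts

variable {A k : Type} [CommRing A] [IsDomain A] [IsDiscreteValuationRing A]
    [Field k] [Algebra A k] [IsFractionRing A k]

/-- a monic split polynomial with small value has a near root -/
theorem near_root {κ : Type} [Field κ] (V : ValuationSubring κ) (p : κ[X]) (hp : p.Splits)
    (hlc : IsU V p.leadingCoeff) (hr : ∀ r : κ, p.IsRoot r → r ∈ V) (z : κ) (hz : z ∈ V)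
    (h : p.eval z ∈ V.nonunits) : ∃ r : κ, p.IsRoot r ∧ z - r ∈ V.nonunits := by
  by_contra hcon
  push Not at hcon
  have hp0 : p ≠ 0 := by
    rintro rfl
    exact hlc.1 leadingCoeff_zero
  have h1 : ∀ T : Multiset κ, (∀ r ∈ T, p.IsRoot r) → IsU V (T.map fun r => z - r).prod := by
    intro T
    induction T using Multiset.induction with
    | empty => intro _; rw [Multiset.map_zero, Multiset.prod_zero]; exact isU_one
    | cons a T ih =>
      intro hT
      rw [Multiset.map_cons, Multiset.prod_cons]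
      have ha := hT a (Multiset.mem_cons_self a T)
      exact (isU_of_not_nonunit (sub_mem hz (hr a ha)) (hcon a ha)).mul
        (ih fun r hr => hT r (Multiset.mem_cons_of_mem hr))
  have h2 : p.eval z = p.leadingCoeff * (p.roots.map fun r => z - r).prod := by
    conv_lhs => rw [hp.eq_prod_roots]
    rw [eval_mul, eval_C, eval_multiset_prod, Multiset.map_map]
    congr 2
    refine Multiset.map_congr rfl fun r _ => ?_
    simp
  rw [h2] at h
  exact (hlc.mul (h1 p.roots fun r hr => (mem_roots hp0).1 hr)).not_nonunit h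

theorem non_sum {N ι : Type} [Field N] (W : ValuationSubring N) (T : Finset ι) (z : ι → N)
    (h : ∀ i ∈ T, z i ∈ W.nonunits) : ∑ i ∈ T, z i ∈ W.nonunits := by
  classical
  induction T using Finset.induction_on with
  | empty =>
    rw [Finset.sum_empty, nonunits_iff]
    exact ⟨zero_mem _, Or.inl rfl⟩
  | insert a T ha ih =>
    rw [Finset.sum_insert ha]
    exact non_add (h a (Finset.mem_insert_self a T))
      (ih fun i hi => h i (Finset.mem_insert_of_mem hi))

open Pool.Agent.W623.SecC in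
/-- no points -/
theorem no_ptX [CharZero k] {ℓ : ℕ} (hℓ : 0 < ℓ) (f H : A[X]) {r : ℕ} (g : Fin r → A[X])
    (hlf : IsUnit f.leadingCoeff)
    (hdf : ℓ ∣ f.natDegree) (t₀ b : Fin r → A) (hb : ∀ i, IsUnit (b i))
    (hroot : ∀ a : A, H.eval a ∉ IsLocalRing.maximalIdeal A)
    (hZ : Van ℓ (fun i => algebraMap A k (b i)) (fun i => algebraMap A k (t₀ i))
      (f.map (algebraMap A k)) (fun i => (g i).map (algebraMap A k)) (H.map (algebraMap A k)))
    (ϖ : A) (hϖ : Irreducible ϖ) (a : k) (m : ℤ) (hm : ¬ (ℓ : ℤ) ∣ m)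
    (t : A) (ht : IsUnit t) (ha : a = algebraMap A k t * algebraMap A k ϖ ^ m) (x y : k)
    (z : Fin r → k)
    (hy : a * y ^ ℓ = (f.map (algebraMap A k)).eval x)
    (hz : ∀ i, algebraMap A k (b i) * z i ^ ℓ = ((g i).map (algebraMap A k)).eval x) : False := by
  have hAk : Function.Injective (algebraMap A k) := IsFractionRing.injective A k
  have hϖ0 : algebraMap A k ϖ ≠ 0 := by
    rw [Ne, map_eq_zero_iff _ hAk]
    exact hϖ.ne_zero
  have hconst : ∀ (u : A), IsUnit u → ∀ y : k, a * y ^ ℓ ≠ algebraMap A k u := by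
    intro u hu y
    have h1 := no_inf hℓ ϖ hϖ (C u) (by rwa [leadingCoeff_C]) a t ht m hm ha y
    rwa [leadingCoeff_C] at h1
  rcases mem_or_inv ϖ hϖ x with ⟨x₁, rfl⟩ | ⟨hx, x₁, hx₁, hx₁x⟩
  · rw [eval_map, eval₂_at_apply] at hy
    have hz' : ∀ i, algebraMap A k (b i) * z i ^ ℓ = algebraMap A k ((g i).eval x₁) := by
      intro i
      rw [hz i, eval_map, eval₂_at_apply]
    by_cases hfx : f.eval x₁ ∈ IsLocalRing.maximalIdeal A
    swap
    · refine hconst (f.eval x₁) ?_ y hy
      by_contra h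
      exact hfx ((IsLocalRing.mem_maximalIdeal _).2 h)
    have hzA : ∀ i, ∃ z₁ : A, algebraMap A k z₁ = z i := by
      intro i
      rcases mem_or_inv ϖ hϖ (z i) with h | ⟨hz0, β, hβ, hβz⟩
      · exact h
      · exfalso
        have h1 : b i = (g i).eval x₁ * β ^ ℓ := by
          apply hAk
          rw [map_mul, ← hz' i, map_pow, hβz, mul_assoc, ← mul_pow, mul_inv_cancel₀ hz0, one_pow,
            mul_one]
        have h2 : b i ∈ IsLocalRing.maximalIdeal A := by
          rw [h1]
          exact Ideal.mul_mem_left _ _ (Ideal.pow_mem_of_mem _ hβ ℓ hℓ)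
        exact (IsLocalRing.mem_maximalIdeal _).1 h2 (hb i)
    choose z₁ hz₁ using hzA
    have hz1 : ∀ i, b i * z₁ i ^ ℓ = (g i).eval x₁ := by
      intro i
      apply hAk
      rw [map_mul, map_pow, hz₁ i]
      exact hz' i
    -- in the algebraic closure
    have hac : IsAlgClosure k (AlgebraicClosure k) := inferInstance
    have hkb : IsAlgClosed (AlgebraicClosure k) := hac.1
    obtain ⟨V, hVA, hVm⟩ := exists_V A k (AlgebraicClosure k)
    set ι : A →+* AlgebraicClosure k := (algebraMap k (AlgebraicClosure k)).comp (algebraMap A k)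
      with hι
    have hιV : ∀ c, ι c ∈ V := hVA
    have hιinj : Function.Injective ι := (algebraMap k (AlgebraicClosure k)).injective.comp hAk
    have hιm : ∀ c : A, ι c ∈ V.nonunits → c ∈ IsLocalRing.maximalIdeal A := by
      intro c hc
      rw [IsLocalRing.mem_maximalIdeal]
      intro hu
      exact (isU_unit V hVA c hu).not_nonunit hc
    have hιe : ∀ (p : A[X]) (c : A), ι (p.eval c) = (p.map ι).eval (ι c) := by
      intro p c
      rw [eval_map, eval₂_at_apply]
    have haev : ∀ (p : A[X]) (e : AlgebraicClosure k),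
        aeval e (p.map (algebraMap A k)) = (p.map ι).eval e := by
      intro p e
      rw [aeval_def, eval₂_map, eval_map]
    obtain ⟨e, he, hxe⟩ := near_root V (f.map ι) (IsAlgClosed.splits _) (by
        rw [leadingCoeff_map_of_injective hιinj]
        exact isU_unit V hVA _ hlf) (fun r hr => by
        refine root_mem V hVA f hlf r ?_
        rw [haev]
        exact hr) (ι x₁) (hιV x₁) (by
        rw [← hιe]
        exact hVm _ hfx)
    have heV : e ∈ V := by
      refine root_mem V hVA f hlf e ?_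
      rw [haev]
      exact he
    have hcex : ∀ i, ∃ c : AlgebraicClosure k, c ∈ V ∧ ι (z₁ i) - c ∈ V.nonunits ∧
        ι (b i) * c ^ ℓ = ((g i).map ι).eval e := by
      intro i
      have hbU := isU_unit V hVA (b i) (hb i)
      have hbι : ι (b i) ≠ 0 := hbU.1
      have hge := eval_congr V ι hιV (g i) (ι x₁) e (hιV x₁) heV hxe
      have hgx1 : (g i).eval₂ ι (ι x₁) = ι (b i) * ι (z₁ i) ^ ℓ := by
        rw [eval₂_at_apply, ← hz1 i, map_mul, map_pow]
      have hgeV : (g i).eval₂ ι e ∈ V := by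
        have h4 : (g i).eval₂ ι e = (g i).eval₂ ι (ι x₁) -
            ((g i).eval₂ ι (ι x₁) - (g i).eval₂ ι e) := by ring
        rw [h4]
        exact sub_mem hge.2 (non_mem hge.1)
      have hbiV : (ι (b i))⁻¹ ∈ V := hbU.2.2
      obtain ⟨c, hc, hzc⟩ := near_root V (X ^ ℓ - C ((ι (b i))⁻¹ * (g i).eval₂ ι e))
        (IsAlgClosed.splits _) (by
          rw [leadingCoeff_X_pow_sub_C hℓ]
          exact Pool.Agent.Y157.PS.isU_one) (fun r hr => by
          refine mem_of_pow V hℓ ?_
          rw [IsRoot.def, eval_sub, eval_pow, eval_X, eval_C, sub_eq_zero] at hr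
          rw [hr]
          exact mul_mem hbiV hgeV) (ι (z₁ i)) (hιV (z₁ i)) (by
          rw [eval_sub, eval_pow, eval_X, eval_C]
          have h5 : ι (z₁ i) ^ ℓ - (ι (b i))⁻¹ * (g i).eval₂ ι e =
              (ι (b i))⁻¹ * ((g i).eval₂ ι (ι x₁) - (g i).eval₂ ι e) := by
            rw [hgx1, mul_sub, inv_mul_cancel_left₀ hbι]
          rw [h5]
          exact non_mul hbiV hge.1)
      rw [IsRoot.def, eval_sub, eval_pow, eval_X, eval_C, sub_eq_zero] at hc
      refine ⟨c, ?_, hzc, ?_⟩
      · refine mem_of_pow V hℓ ?_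
        rw [hc]
        exact mul_mem hbiV hgeV
      · rw [hc, eval_map]
        exact mul_inv_cancel_left₀ hbι _
    choose c hcV hzc hbc using hcex
    have hH := hZ (AlgebraicClosure k) e c (by rw [haev]; exact he) (fun i => by
      rw [haev]
      exact hbc i)
    rw [haev, eval_map] at hH
    have hH2 := eval_congr V ι hιV H (ι (x₁ + ∑ i, t₀ i * z₁ i)) (e + ∑ i, ι (t₀ i) * c i) (hιV _)
      (add_mem heV (sum_mem fun i _ => mul_mem (hιV (t₀ i)) (hcV i))) (by
        rw [map_add, map_sum]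
        have h6 : ι x₁ + ∑ i, ι (t₀ i * z₁ i) - (e + ∑ i, ι (t₀ i) * c i) =
            (ι x₁ - e) + ∑ i, ι (t₀ i) * (ι (z₁ i) - c i) := by
          simp only [map_mul, mul_sub, Finset.sum_sub_distrib]
          ring
        rw [h6]
        refine non_add hxe ?_
        refine non_sum V _ _ fun i _ => non_mul (hιV (t₀ i)) (hzc i))
    have hH3 : H.eval₂ ι (e + ∑ i, ι (t₀ i) * c i) = 0 := hH
    rw [hH3, sub_zero, eval₂_at_apply] at hH2
    exact hroot _ (hιm _ hH2.1)
  · -- the point is near infinity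
    obtain ⟨v, l, hl⟩ := exists_unit_zpow ϖ hϖ x hx
    obtain ⟨n, hn⟩ := hdf
    have hr : IsUnit ((reverse f).eval x₁) := by
      by_contra h
      have h1 : (reverse f).eval x₁ ∈ IsLocalRing.maximalIdeal A :=
        (IsLocalRing.mem_maximalIdeal _).2 h
      rw [← divX_mul_X_add (reverse f), eval_add, eval_mul, eval_X, eval_C,
        coeff_zero_reverse] at h1
      have h2 : f.leadingCoeff ∈ IsLocalRing.maximalIdeal A := by
        have h3 := Ideal.mul_mem_left (IsLocalRing.maximalIdeal A)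
          (eval x₁ (reverse f).divX) hx₁
        exact (Ideal.add_mem_iff_right _ h3).1 h1
      exact (IsLocalRing.mem_maximalIdeal _).1 h2 hlf
    let _ := invertibleOfNonzero hx
    have h2 := Polynomial.eval₂_reverse_mul_pow (algebraMap A k) x f
    rw [invOf_eq_inv, ← hx₁x, eval₂_at_apply] at h2
    refine hconst ((reverse f).eval x₁ * (v : A) ^ f.natDegree) (hr.mul (v.isUnit.pow _))
      (y / algebraMap A k ϖ ^ (l * n)) ?_
    rw [div_pow, ← mul_div_assoc, hy, eval_map, ← h2, map_mul, map_pow, div_eq_iff (pow_ne_zero _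
      (zpow_ne_zero _ hϖ0))]
    have h3 : x ^ f.natDegree = algebraMap A k v ^ f.natDegree *
        (algebraMap A k ϖ ^ (l * n)) ^ ℓ := by
      rw [hl, mul_pow, ← zpow_natCast (algebraMap A k ϖ ^ l), ← zpow_mul, ← zpow_natCast
        (algebraMap A k ϖ ^ (l * n)) ℓ, ← zpow_mul]
      congr 2
      rw [hn]
      push_cast
      ring
    rw [h3]
    ring

end pts

/-- no sections of the geometrically pro-`ℓ` group: `F = k(x, w)`,
`a ∏ b i w^ℓ = f(x) ∏ g i (x)`, and the sections fix `Y` and `Z i` -/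
def ProX (ℓ : ℕ) {k : Type} [Field k] {r : ℕ} (a : k) (b : Fin r → k) (f : k[X])
    (g : Fin r → k[X]) : Prop :=
  ∀ (F Ω : Type) [Field F] [Field Ω] [Algebra k F] [Algebra F Ω] [Algebra k Ω]
    [IsScalarTower k F Ω] [IsAlgClosed Ω] [Algebra.IsAlgebraic F Ω] (x w : F),
    Transcendental k x → algebraMap k F (a * ∏ i, b i) * w ^ ℓ = aeval x (f * ∏ i, g i) →
    IntermediateField.adjoin k {x, w} = (⊤ : IntermediateField k F) →
    ∀ (M : IntermediateField F Ω), geomPro ℓ k F Ω ≤ M →
    ∀ (S : (algebraicClosure k Ω ≃ₐ[k] algebraicClosure k Ω) →* (M ≃ₐ[F] M)), Continuous S →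
    (∀ σ (c : algebraicClosure k Ω) (z : M), (z : Ω) = (c : Ω) → (S σ z : Ω) = (σ c : Ω)) →
    ∀ (Y : Ω) (Z : Fin r → Ω), algebraMap k Ω a * Y ^ ℓ = aeval (algebraMap F Ω x) f →
      (∀ i, algebraMap k Ω (b i) * Z i ^ ℓ = aeval (algebraMap F Ω x) (g i)) →
      (∀ σ (z : M), (z : Ω) = Y → S σ z = z) → (∀ i σ (z : M), (z : Ω) = Z i → S σ z = z) → False

/-- the curve `a y^ℓ = f(x)`, `b i (z i)^ℓ = g i (x)` has neither points nor sections -/
def FineX (ℓ : ℕ) {k : Type} [Field k] {r : ℕ} (a : k) (b : Fin r → k) (f : k[X])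
    (g : Fin r → k[X]) : Prop :=
  (∀ (F Ω : Type) [Field F] [Field Ω] [Algebra k F] [Algebra F Ω] [Algebra k Ω]
    [IsScalarTower k F Ω] [IsAlgClosed Ω] [Algebra.IsAlgebraic F Ω]
    (U : Set (ValuationSubring F)), (∀ O ∈ U, ∀ c : k, algebraMap k F c ∈ O) →
    ∀ (x y : F) (z : Fin r → F), algebraMap k F a * y ^ ℓ = aeval x f →
      (∀ i, algebraMap k F (b i) * z i ^ ℓ = aeval x (g i)) →
      IsEmpty (Pool.Agent.W620.SC.GSection k F Ω U)) ∧
  (∀ (x y : k) (z : Fin r → k), a * y ^ ℓ = f.eval x →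
    ¬ ∀ i, b i * z i ^ ℓ = (g i).eval x) ∧
  (∀ r : k, a * r ^ ℓ ≠ f.leadingCoeff) ∧ ProX ℓ a b f g

/-- scaling the equations -/
theorem FineX.scale {ℓ : ℕ} {k : Type} [Field k] {r : ℕ} {a c : k} {b d : Fin r → k} {f : k[X]}
    {g : Fin r → k[X]} (h : FineX ℓ (c * a) (fun i => d i * b i) (C c * f) (fun i => C (d i) * g i)) :
    FineX ℓ a b f g := by
  obtain ⟨h2, h3, h4, h5⟩ := h
  refine ⟨?_, ?_, ?_, ?_⟩
  · intro F Ω _ _ _ _ _ _ _ _ U hU x y z hxy hxz
    refine h2 F Ω U hU x y z ?_ fun i => ?_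
    · rw [map_mul, map_mul, aeval_C, mul_assoc, hxy]
    · rw [map_mul, map_mul, aeval_C, mul_assoc, hxz i]
  · intro x y z hxy hxz
    refine h3 x y z ?_ fun i => ?_
    · rw [eval_mul, eval_C, mul_assoc, hxy]
    · rw [eval_mul, eval_C, mul_assoc, hxz i]
  · intro r hr
    refine h4 r ?_
    rw [leadingCoeff_mul, leadingCoeff_C, mul_assoc, hr]
  · intro F Ω _ _ _ _ _ _ _ _ x w hx hxw hF M hM S hS hSc Y Z hY hZ hYf hZf
    refine h5 F Ω x w hx ?_ hF M hM S hS hSc Y Z ?_ (fun i => ?_) hYf hZf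
    · have e1 : C c * f * ∏ i, (C (d i) * g i) = C (c * ∏ i, d i) * (f * ∏ i, g i) := by
        rw [Finset.prod_mul_distrib, C_mul, map_prod]
        ring
      have e2 : c * a * ∏ i, (d i * b i) = (c * ∏ i, d i) * (a * ∏ i, b i) := by
        rw [Finset.prod_mul_distrib]
        ring
      rw [e1, e2, map_mul, map_mul (aeval x), aeval_C, mul_assoc, hxw]
    · rw [map_mul, map_mul, aeval_C, mul_assoc, hY]
    · rw [map_mul, map_mul, aeval_C, mul_assoc, hZ i]

theorem fineX {A k : Type} [CommRing A] [IsDomain A] [IsDiscreteValuationRing A]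
    [Finite (IsLocalRing.ResidueField A)] [Field k] [CharZero k] [Algebra A k] [IsFractionRing A k]
    {ℓ : ℕ} [Fact ℓ.Prime] (hℓ : IsUnit (ℓ : A)) (f H : A[X]) {r : ℕ} (g : Fin r → A[X])
    (hlf : IsUnit f.leadingCoeff) (hlg : ∀ i, IsUnit (g i).leadingCoeff)
    (hs : ((f * ∏ i, g i).map (IsLocalRing.residue A)).Separable) (hdf : ℓ ∣ f.natDegree)
    (hdg : ∀ i, ℓ ∣ (g i).natDegree) (h3 : 3 ≤ (f * ∏ i, g i).natDegree) (t₀ b : Fin r → A)
    (hb : ∀ i, IsUnit (b i))
    (hlH : IsUnit H.leadingCoeff) (hroot : ∀ a : A, H.eval a ∉ IsLocalRing.maximalIdeal A)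
    (hZ : Van ℓ (fun i => algebraMap A k (b i)) (fun i => algebraMap A k (t₀ i))
      (f.map (algebraMap A k)) (fun i => (g i).map (algebraMap A k)) (H.map (algebraMap A k)))
    (ϖ : A) (hϖ : Irreducible ϖ) (a : k) (m : ℤ) (hm : ¬ (ℓ : ℤ) ∣ m)
    (t : A) (ht : IsUnit t) (ha : a = algebraMap A k t * algebraMap A k ϖ ^ m) :
    FineX ℓ a (fun i => algebraMap A k (b i)) (f.map (algebraMap A k))
      (fun i => (g i).map (algebraMap A k)) := by
  have hℓ0 : 0 < ℓ := (Fact.out : ℓ.Prime).pos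
  have hAk : Function.Injective (algebraMap A k) := IsFractionRing.injective A k
  have ha0 : a ≠ 0 := by
    rw [ha]
    refine mul_ne_zero ?_ (zpow_ne_zero _ ?_)
    · rw [Ne, map_eq_zero_iff _ hAk]
      exact ht.ne_zero
    · rw [Ne, map_eq_zero_iff _ hAk]
      exact hϖ.ne_zero
  have hb0 : ∀ i, algebraMap A k (b i) ≠ 0 := by
    intro i
    rw [Ne, map_eq_zero_iff _ hAk]
    exact (hb i).ne_zero
  -- the product
  set G : A[X] := ∏ i, g i with hG
  set B : A := ∏ i, b i with hB
  have hlG : IsUnit G.leadingCoeff := by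
    rw [hG, leadingCoeff_prod]
    exact isU_prod _ _ fun i _ => hlg i
  have hBu : IsUnit B := isU_prod _ _ fun i _ => hb i
  have hg0 : ∀ i, g i ≠ 0 := fun i h => (hlg i).ne_zero (by rw [h, leadingCoeff_zero])
  have hf0 : f ≠ 0 := fun h => hlf.ne_zero (by rw [h, leadingCoeff_zero])
  have hG0 : G ≠ 0 := fun h => hlG.ne_zero (by rw [h, leadingCoeff_zero])
  have hdG : ℓ ∣ G.natDegree := by
    rw [hG, natDegree_prod _ _ fun i _ => hg0 i]
    exact Finset.dvd_sum fun i _ => hdg i
  have hgG : ∀ i, g i ∣ G := fun i => Finset.dvd_prod_of_mem g (Finset.mem_univ i)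
  rw [natDegree_mul hf0 hG0] at h3
  have hBk : ∏ i, algebraMap A k (b i) = algebraMap A k B := by rw [hB, map_prod]
  have hGk : ∏ i, (g i).map (algebraMap A k) = G.map (algebraMap A k) := by
    rw [hG, Polynomial.map_prod]
  have hB0 : algebraMap A k B ≠ 0 := by
    rw [Ne, map_eq_zero_iff _ hAk]
    exact hBu.ne_zero
  have hpt : ∀ (x y : k) (z : Fin r → k), a * y ^ ℓ = (f.map (algebraMap A k)).eval x →
      ¬ ∀ i, algebraMap A k (b i) * z i ^ ℓ = ((g i).map (algebraMap A k)).eval x :=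
    fun x y z h1 h2 =>
    no_ptX hℓ0 f H g hlf hdf t₀ b hb hroot hZ ϖ hϖ a m hm t ht ha x y z h1 h2
  -- `w` is algebraic
  have hwalg : ∀ (F : Type) [Field F] [Algebra k F] (x w : F),
      algebraMap k F (a * algebraMap A k B) * w ^ ℓ = aeval x ((f * G).map (algebraMap A k)) →
      IsAlgebraic (IntermediateField.adjoin k {x}) w := by
    intro F _ _ x w hw
    refine isAlgebraic_iff_isIntegral.2 (IsIntegral.of_pow hℓ0 ?_)
    have h1 : w ^ ℓ ∈ IntermediateField.adjoin k {x} := by
      have h2 : w ^ ℓ = (algebraMap k F (a * algebraMap A k B))⁻¹ *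
          aeval x ((f * G).map (algebraMap A k)) := by
        rw [← hw, inv_mul_cancel_left₀ ((_root_.map_ne_zero _).2 (mul_ne_zero ha0 hB0))]
      rw [h2]
      refine mul_mem (inv_mem (IntermediateField.algebraMap_mem _ _)) ?_
      have h3 : aeval x ((f * G).map (algebraMap A k)) =
          algebraMap (IntermediateField.adjoin k {x}) F
          (aeval (IntermediateField.AdjoinSimple.gen k x) ((f * G).map (algebraMap A k))) := by
        rw [← aeval_algebraMap_apply]
        rfl
      rw [h3]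
      exact (aeval (IntermediateField.AdjoinSimple.gen k x) ((f * G).map (algebraMap A k))).2
    exact isIntegral_algebraMap (x := (⟨_, h1⟩ : IntermediateField.adjoin k {x}))
  refine ⟨?_, hpt, ?_, ?_⟩
  · intro F Ω _ _ _ _ _ _ _ _ U hU x y z hxy hxz
    refine ⟨fun S => ?_⟩
    by_cases hx : Transcendental k x
    · have hw : algebraMap k F (a * algebraMap A k B) * (y * ∏ i, z i) ^ ℓ =
          aeval x ((f * G).map (algebraMap A k)) := by
        rw [Polynomial.map_mul, map_mul, map_mul, ← hxy, ← hGk, ← hBk, map_prod, map_prod, mul_pow,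
          ← Finset.prod_pow]
        have h4 : ∏ i, aeval x ((g i).map (algebraMap A k)) =
            (∏ i, algebraMap k F (algebraMap A k (b i))) * ∏ i, z i ^ ℓ := by
          rw [← Finset.prod_mul_distrib]
          exact Finset.prod_congr rfl fun i _ => (hxz i).symm
        rw [h4]
        ring
      obtain ⟨F₀, Ω₀, _, _, _, _, _, _, _, _, i, u, x₀, w₀, hu, hix, hiw, htop, S₀, hS, hScompat,
        hSfix⟩ := functX a_inrt ℓ k F Ω U hU S x (y * ∏ i, z i) hx (hwalg F x _ hw)
      have hx0 : Transcendental k x₀ := by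
        intro halg
        apply hx
        rw [← hix]
        exact (isAlgebraic_algHom_iff i i.toRingHom.injective).2 halg
      have huk : ∀ c : k, u (algebraMap k Ω₀ c) = algebraMap k Ω c := by
        intro c
        rw [IsScalarTower.algebraMap_apply k F₀ Ω₀, hu, i.commutes,
          ← IsScalarTower.algebraMap_apply k F Ω]
      have hxw0 : algebraMap k F₀ (a * algebraMap A k B) * w₀ ^ ℓ =
          aeval x₀ ((f * G).map (algebraMap A k)) := by
        apply i.toRingHom.injective
        have e1 : i (algebraMap k F₀ (a * algebraMap A k B) * w₀ ^ ℓ) =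
            i (aeval x₀ ((f * G).map (algebraMap A k))) := by
          rw [map_mul, map_pow, hiw, AlgHom.commutes, hw, ← hix, aeval_algHom_apply]
        exact e1
      -- roots in `Ω₀`
      have hroot0 : ∀ (c : k) (p : k[X]) (v : F), c ≠ 0 → algebraMap k F c * v ^ ℓ = aeval x p →
          ∃ Y : Ω₀, u Y = algebraMap F Ω v ∧
            algebraMap k Ω₀ c * Y ^ ℓ = aeval (algebraMap F₀ Ω₀ x₀) p := by
        intro c p v hc hv
        have huaev : u (aeval (algebraMap F₀ Ω₀ x₀) p) = algebraMap F Ω (aeval x p) := by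
          rw [aeval_algebraMap_apply, hu, ← aeval_algHom_apply, hix]
        obtain ⟨Y, hY⟩ := Pool.Agent.Y674.PS.rng0 (F₀ := F₀) u
          (C (algebraMap k F₀ c) * X ^ ℓ - C (aeval x₀ p)) (by
            intro h0
            have h1 := congrArg (fun q => q.coeff ℓ) h0
            simp only [coeff_sub, coeff_C_mul, coeff_X_pow_self, mul_one, coeff_C, hℓ0.ne',
              if_false, sub_zero, coeff_zero] at h1
            exact hc ((_root_.map_eq_zero _).1 h1)) (algebraMap F Ω v) (by
            rw [eval₂_sub, eval₂_mul, eval₂_C, eval₂_pow, eval₂_X, eval₂_C, RingHom.comp_apply,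
              RingHom.comp_apply, ← IsScalarTower.algebraMap_apply k F₀ Ω₀, huk, hu,
              ← aeval_algHom_apply, hix, ← hv, map_mul, map_pow,
              ← IsScalarTower.algebraMap_apply k F Ω, sub_self])
        refine ⟨Y, hY, u.injective ?_⟩
        rw [map_mul, map_pow, huk, hY, huaev, ← hv, map_mul, map_pow,
          ← IsScalarTower.algebraMap_apply k F Ω]
      obtain ⟨Y, hYu, hY⟩ := hroot0 a (f.map (algebraMap A k)) y ha0 hxy
      have hZex := fun j => hroot0 (algebraMap A k (b j)) ((g j).map (algebraMap A k)) (z j)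
        (hb0 j) (hxz j)
      choose Z hZu hZ0 using hZex
      exact locR hℓ f G H hlf hlG hs hdf hdG h3 g hgG hdg (fun i => algebraMap A k (t₀ i)) b hb B
        hBu hlH hroot
        (fun e c he hc => hZ (algebraicClosure k Ω₀) e c he hc) ϖ hϖ a m hm t ht ha x₀ w₀ hx0 hxw0
        htop S₀ hS hScompat Y Z hY hZ0 (fun σ z' hz' => hSfix σ z' y (by rw [hz']; exact hYu))
        (fun j σ z' hz' => hSfix σ z' (z j) (by rw [hz']; exact hZu j))
    · rw [Transcendental, not_not] at hx
      obtain ⟨x', rfl⟩ := Pool.Agent.W623.SecE.alg_mem_base S x hx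
      have hconst : ∀ (c : k) (p : k[X]) (v : F), c ≠ 0 →
          algebraMap k F c * v ^ ℓ = aeval (algebraMap k F x') p →
          ∃ v' : k, algebraMap k F v' = v ∧ c * v' ^ ℓ = p.eval x' := by
        intro c p v hc hv
        rw [aeval_algebraMap_apply, aeval_def, Algebra.algebraMap_self, eval₂_id] at hv
        have h1 : v ^ ℓ = algebraMap k F (p.eval x' / c) := by
          rw [map_div₀, eq_div_iff ((_root_.map_ne_zero _).2 hc)]
          linear_combination hv
        have h2 : IsAlgebraic k v := by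
          apply IsAlgebraic.of_pow hℓ0
          rw [h1]
          exact isAlgebraic_algebraMap _
        obtain ⟨v', rfl⟩ := Pool.Agent.W623.SecE.alg_mem_base S v h2
        refine ⟨v', rfl, (algebraMap k F).injective ?_⟩
        rw [map_mul, map_pow, hv]
      obtain ⟨y', -, hy'⟩ := hconst a (f.map (algebraMap A k)) y ha0 hxy
      have hzex := fun j => hconst (algebraMap A k (b j)) ((g j).map (algebraMap A k)) (z j)
        (hb0 j) (hxz j)
      choose z' hz'1 hz' using hzex
      exact hpt x' y' z' hy' hz'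
  · intro r
    rw [leadingCoeff_map_of_injective hAk f]
    exact no_inf hℓ0 ϖ hϖ f hlf a t ht m hm ha r
  · intro F Ω _ _ _ _ _ _ _ _ x w hx hxw hF M hM S hS hSc Y Z hY hZ' hYf hZf
    rw [hBk, hGk, ← Polynomial.map_mul] at hxw
    have halg : Algebra.IsAlgebraic (IntermediateField.adjoin k {x}) F :=
      Pool.Agent.Y674.PS.alg_gen (AlgHom.id k F) x w hF (hwalg F x w hxw)
    haveI : IsAlgClosure F Ω := ⟨inferInstance, inferInstance⟩
    obtain ⟨h1, h2⟩ := a_inrt ℓ k F Ω x hx halg
    obtain ⟨Φ, hΦ, hΦ'⟩ := Pool.Agent.Y674.PS.restr' (RingHom.id F) (RingHom.id Ω) (fun _ => rfl)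
      (geomPro ℓ k F Ω) M (fun z hz => hM hz) (fun σ z hz => ⟨σ z, h2 σ z hz, rfl⟩)
    have hΦ2 : ∀ (e : M ≃ₐ[F] M) (z : M) (q : geomPro ℓ k F Ω), (q : Ω) = (z : Ω) →
        ((Φ e q : geomPro ℓ k F Ω) : Ω) = ((e z : M) : Ω) := hΦ'
    refine locR hℓ f G H hlf hlG hs hdf hdG h3 g hgG hdg (fun i => algebraMap A k (t₀ i)) b hb B
      hBu hlH hroot
      (fun e c he hc => hZ (algebraicClosure k Ω) e c he hc) ϖ hϖ a m hm t ht ha x w hx hxw hF
      (Φ.comp S) (hΦ.comp hS) ?_ Y Z hY hZ' ?_ ?_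
    · intro σ c z hz
      rw [MonoidHom.comp_apply, hΦ2 (S σ) ⟨(z : Ω), hM z.2⟩ z rfl]
      exact hSc σ c _ hz
    · intro σ z hz
      apply Subtype.ext
      rw [MonoidHom.comp_apply, hΦ2 (S σ) ⟨(z : Ω), hM z.2⟩ z rfl, hYf σ _ hz]
    · intro j σ z hz
      apply Subtype.ext
      rw [MonoidHom.comp_apply, hΦ2 (S σ) ⟨(z : Ω), hM z.2⟩ z rfl, hZf j σ _ hz]

end Pool.Agent.J4H44.FP
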