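import Pool.Agent.J4H44.FP.Hp

/-!
# Density zero

(helper44, project FP.)
-/

set_option autoImplicit false
set_option linter.all false

open Polynomial NumberField IsDedekindDomain

namespace Pool.Agent.J4H44.FP

/-- density zero -/
def DZ {K : Type} [Field K] [NumberField K] (E : Set (𝓞 K)) : Prop :=
  ∀ ε : ℝ, 0 < ε → ∃ I : Ideal (𝓞 K), I ≠ ⊥ ∧
    (Set.ncard ((Ideal.Quotient.mk I) '' E) : ℝ) ≤ ε * Nat.card (𝓞 K ⧸ I)

theorem DZ.mono {K : Type} [Field K] [NumberField K] {E E' : Set (𝓞 K)} (h : DZ E')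
    (hE : E ⊆ E') : DZ E := by
  intro ε hε
  obtain ⟨I, hI, h1⟩ := h ε hε
  have hfin : Finite (𝓞 K ⧸ I) := Ideal.finiteQuotientOfFreeOfNeBot I hI
  refine ⟨I, hI, le_trans ?_ h1⟩
  exact_mod_cast Set.ncard_le_ncard (Set.image_mono hE) (Set.toFinite _)

/-- smaller ideals -/
theorem shrink {K : Type} [Field K] [NumberField K] (E : Set (𝓞 K)) {I J : Ideal (𝓞 K)}
    (hJI : J ≤ I) (hJ : J ≠ ⊥) :
    Set.ncard ((Ideal.Quotient.mk J) '' E) * Nat.card (𝓞 K ⧸ I) ≤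
      Set.ncard ((Ideal.Quotient.mk I) '' E) * Nat.card (𝓞 K ⧸ J) := by
  have hI : I ≠ ⊥ := fun h => hJ (le_bot_iff.1 (h ▸ hJI))
  haveI hfI : Finite (𝓞 K ⧸ I) := Ideal.finiteQuotientOfFreeOfNeBot I hI
  haveI hfJ : Finite (𝓞 K ⧸ J) := Ideal.finiteQuotientOfFreeOfNeBot J hJ
  let π : (𝓞 K ⧸ J) →+* (𝓞 K ⧸ I) := Ideal.Quotient.factor hJI
  have hπ : ∀ a, π (Ideal.Quotient.mk J a) = Ideal.Quotient.mk I a := fun a => rfl
  have hsurj : Function.Surjective π := by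
    intro y
    obtain ⟨a, rfl⟩ := Ideal.Quotient.mk_surjective y
    exact ⟨Ideal.Quotient.mk J a, rfl⟩
  obtain ⟨s, hs⟩ := hsurj.hasRightInverse
  have hmem : ∀ x ∈ (Ideal.Quotient.mk J) '' E, π x ∈ (Ideal.Quotient.mk I) '' E := by
    rintro x ⟨a, ha, rfl⟩
    exact ⟨a, ha, rfl⟩
  let Ψ : ((Ideal.Quotient.mk J) '' E : Set (𝓞 K ⧸ J)) × (𝓞 K ⧸ I) →
      ((Ideal.Quotient.mk I) '' E : Set (𝓞 K ⧸ I)) × (𝓞 K ⧸ J) :=
    fun q => (⟨π q.1.1, hmem _ q.1.2⟩, q.1.1 - s (π q.1.1) + s q.2)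
  have hΨ : Function.Injective Ψ := by
    rintro ⟨⟨x, hx⟩, y⟩ ⟨⟨x', hx'⟩, y'⟩ h
    simp only [Ψ, Prod.mk.injEq, Subtype.mk.injEq] at h
    obtain ⟨h1, h2⟩ := h
    have h3 := congrArg π h2
    simp only [map_add, map_sub, hs (π x), hs (π x'), hs y, hs y', sub_self, zero_add] at h3
    rw [h1, h3] at h2
    have h4 : x = x' := by
      have h5 := add_right_cancel h2
      exact sub_left_injective h5
    simp only [Prod.mk.injEq, Subtype.mk.injEq]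
    exact ⟨h4, h3⟩
  have h1 := Nat.card_le_card_of_injective Ψ hΨ
  rw [Nat.card_prod, Nat.card_prod] at h1
  exact h1

theorem DZ.union {K : Type} [Field K] [NumberField K] {E E' : Set (𝓞 K)} (h : DZ E)
    (h' : DZ E') : DZ (E ∪ E') := by
  intro ε hε
  obtain ⟨I, hI, h1⟩ := h (ε / 2) (by positivity)
  obtain ⟨I', hI', h1'⟩ := h' (ε / 2) (by positivity)
  have hJ : I * I' ≠ ⊥ := mul_ne_zero hI hI'
  refine ⟨I * I', hJ, ?_⟩
  haveI hfI : Finite (𝓞 K ⧸ I) := Ideal.finiteQuotientOfFreeOfNeBot I hI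
  haveI hfI' : Finite (𝓞 K ⧸ I') := Ideal.finiteQuotientOfFreeOfNeBot I' hI'
  haveI hfJ : Finite (𝓞 K ⧸ I * I') := Ideal.finiteQuotientOfFreeOfNeBot _ hJ
  have main : ∀ (E : Set (𝓞 K)) (I₀ J₀ : Ideal (𝓞 K)), J₀ ≤ I₀ → J₀ ≠ ⊥ →
      (Set.ncard ((Ideal.Quotient.mk I₀) '' E) : ℝ) ≤ ε / 2 * Nat.card (𝓞 K ⧸ I₀) →
      (Set.ncard ((Ideal.Quotient.mk J₀) '' E) : ℝ) ≤ ε / 2 * Nat.card (𝓞 K ⧸ J₀) := by
    intro E I₀ J₀ hJI hJ0 hE
    have hI0 : I₀ ≠ ⊥ := fun h => hJ0 (le_bot_iff.1 (h ▸ hJI))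
    haveI : Finite (𝓞 K ⧸ I₀) := Ideal.finiteQuotientOfFreeOfNeBot I₀ hI0
    have hpos : (0 : ℝ) < Nat.card (𝓞 K ⧸ I₀) := by exact_mod_cast Nat.card_pos
    have h2 : (Set.ncard ((Ideal.Quotient.mk J₀) '' E) : ℝ) * Nat.card (𝓞 K ⧸ I₀) ≤
        Set.ncard ((Ideal.Quotient.mk I₀) '' E) * Nat.card (𝓞 K ⧸ J₀) := by
      exact_mod_cast shrink E hJI hJ0
    have h3 : (Set.ncard ((Ideal.Quotient.mk I₀) '' E) : ℝ) * Nat.card (𝓞 K ⧸ J₀) ≤
        (ε / 2 * Nat.card (𝓞 K ⧸ I₀)) * Nat.card (𝓞 K ⧸ J₀) :=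
      mul_le_mul_of_nonneg_right hE (Nat.cast_nonneg _)
    have h4 : (Set.ncard ((Ideal.Quotient.mk J₀) '' E) : ℝ) * Nat.card (𝓞 K ⧸ I₀) ≤
        (ε / 2 * Nat.card (𝓞 K ⧸ J₀)) * Nat.card (𝓞 K ⧸ I₀) := by
      refine (h2.trans h3).trans (le_of_eq ?_)
      ring
    exact le_of_mul_le_mul_right h4 hpos
  have h2 := main E I (I * I') Ideal.mul_le_left hJ h1
  have h2' := main E' I' (I * I') Ideal.mul_le_right hJ h1'
  rw [Set.image_union]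
  have h3 : (Set.ncard ((Ideal.Quotient.mk (I * I')) '' E ∪
      (Ideal.Quotient.mk (I * I')) '' E') : ℝ) ≤
      Set.ncard ((Ideal.Quotient.mk (I * I')) '' E) +
      Set.ncard ((Ideal.Quotient.mk (I * I')) '' E') := by
    exact_mod_cast Set.ncard_union_le _ _
  linarith

theorem DZ.empty {K : Type} [Field K] [NumberField K] : DZ (∅ : Set (𝓞 K)) := by
  intro ε hε
  refine ⟨⊤, top_ne_bot, ?_⟩
  rw [Set.image_empty, Set.ncard_empty, Nat.cast_zero]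
  exact mul_nonneg hε.le (Nat.cast_nonneg _)

theorem DZ.biUnion {K : Type} [Field K] [NumberField K] {ι : Type} (s : Set ι) (hs : s.Finite)
    (E : ι → Set (𝓞 K)) (h : ∀ i ∈ s, DZ (E i)) : DZ (⋃ i ∈ s, E i) := by
  induction s, hs using Set.Finite.induction_on with
  | empty =>
    rw [Set.biUnion_empty]
    exact DZ.empty
  | insert _ _ ih =>
    rw [Set.biUnion_insert]
    exact (h _ (Set.mem_insert _ _)).union (ih fun i hi => h i (Set.mem_insert_of_mem _ hi))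

/-- the semigroup generated by `ℓ` and the lengths of the cycles of `σ` on the tuples `(e, c)` -/
def SG (ℓ : ℕ) {K : Type} [Field K] {r : ℕ} (f : K[X]) (g : Fin r → K[X]) (b : Fin r → K)
    (σ : AlgebraicClosure K ≃ₐ[K] AlgebraicClosure K) : AddSubmonoid ℕ :=
  AddSubmonoid.closure ({ℓ} ∪
    {n | ∃ z ∈ ZZ ℓ f g b, (σ ^ n) z.1 = z.1 ∧ ∀ i, (σ ^ n) (z.2 i) = z.2 i})

theorem mainA {K : Type} [Field K] [NumberField K] {ℓ : ℕ} (hℓ : ℓ.Prime) {r : ℕ} (f : K[X])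
    (g : Fin r → K[X])
    (hs : (f * ∏ i, g i).Separable) (hdf : ℓ ∣ f.natDegree) (hdg : ∀ i, ℓ ∣ (g i).natDegree)
    (h3 : 3 ≤ (f * ∏ i, g i).natDegree) (b : Fin r → K) (hb : ∀ i, b i ≠ 0)
    (c0 : 𝓞 K) (hc0 : c0 ≠ 0) :
    DZ {a : 𝓞 K | ∃ σ : AlgebraicClosure K ≃ₐ[K] AlgebraicClosure K,
      ¬ ∃ v : HeightOneSpectrum (𝓞 K), c0 ∉ v.asIdeal ∧ a ∈ v.asIdeal ∧ a ∉ v.asIdeal ^ 2 ∧
        LocF ℓ v.asIdeal (SG ℓ f g b σ) (algebraMap (𝓞 K) K a) b f g} := by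
  classical
  have hf0 : f ≠ 0 := fun h => hs.ne_zero (by rw [h, zero_mul])
  have hfin := ZZ_finite hℓ.pos f g hf0 b hb
  let Zt : Type := {z // z ∈ ZZ ℓ f g b}
  haveI : Finite Zt := hfin
  let F : (AlgebraicClosure K ≃ₐ[K] AlgebraicClosure K) → Zt → Zt :=
    fun σ z => ⟨(σ z.1.1, fun i => σ (z.1.2 i)), ZZ_gal σ z.2⟩
  have hF : ∀ (σ : AlgebraicClosure K ≃ₐ[K] AlgebraicClosure K) (n : ℕ) (z : Zt),
      ((F σ)^[n] z).1 = ((σ ^ n) z.1.1, fun i => (σ ^ n) (z.1.2 i)) := by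
    intro σ n
    induction n with
    | zero => intro z; rfl
    | succ n ih =>
      intro z
      rw [Function.iterate_succ, Function.comp_apply, ih, pow_succ]
      rfl
  let P : (Zt → Zt) → Set ℕ := fun φ => {n | ∃ z, φ^[n] z = z}
  have hP : ∀ σ : AlgebraicClosure K ≃ₐ[K] AlgebraicClosure K,
      {n | ∃ z ∈ ZZ ℓ f g b, (σ ^ n) z.1 = z.1 ∧ ∀ i, (σ ^ n) (z.2 i) = z.2 i} = P (F σ) := by
    intro σ
    ext n
    constructor
    · rintro ⟨z, hz, h1, h2⟩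
      refine ⟨⟨z, hz⟩, Subtype.ext ?_⟩
      rw [hF]
      exact Prod.ext h1 (funext h2)
    · rintro ⟨z, hz⟩
      have h1 := hF σ n z
      rw [hz] at h1
      exact ⟨z.1, z.2, (congrArg Prod.fst h1).symm, fun i =>
        (congrFun (congrArg Prod.snd h1) i).symm⟩
  let E : (Zt → Zt) → Set (𝓞 K) := fun φ =>
    {a : 𝓞 K | ¬ ∃ v : HeightOneSpectrum (𝓞 K), c0 ∉ v.asIdeal ∧ a ∈ v.asIdeal ∧
      a ∉ v.asIdeal ^ 2 ∧ LocF ℓ v.asIdeal (AddSubmonoid.closure ({ℓ} ∪ P φ))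
        (algebraMap (𝓞 K) K a) b f g}
  have hE : ∀ φ ∈ Set.range F, DZ (E φ) := by
    rintro _ ⟨σ, rfl⟩ ε hε
    obtain ⟨H, t₀, hH0, hVan, hHσ⟩ := exists_H hℓ.pos f g hf0 b hb
    obtain ⟨T, hT, hTε⟩ := exists_primesA hℓ f H g hs hdf hdg h3 b t₀ hb hH0 hVan σ
      (AddSubmonoid.closure ({ℓ} ∪ P (F σ)))
      (AddSubmonoid.subset_closure (Or.inl rfl)) (by
        intro n θ hθ hn
        obtain ⟨z, hz, h1, h2⟩ := hHσ (σ ^ n) θ hθ hn
        refine AddSubmonoid.subset_closure (Or.inr ?_)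
        rw [← hP]
        exact ⟨z, hz, h1, h2⟩) c0 hc0 ε hε
    refine ⟨∏ v ∈ T, v.asIdeal ^ 2, ?_, ?_⟩
    · refine Finset.prod_ne_zero_iff.2 fun v _ => pow_ne_zero _ v.ne_bot
    · have h1 := Pool.Agent.W417.SecC.D2.partD2 K T (E (F σ)) (by
          intro a ha v hv hav
          by_contra hcon
          exact ha ⟨v, (hT v hv).1, hav, hcon, (hT v hv).2 a hav hcon⟩)
      exact h1.trans (mul_le_mul_of_nonneg_right hTε.le (Nat.cast_nonneg _))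
  refine (DZ.biUnion (Set.range F) (Set.toFinite _) E hE).mono ?_
  rintro a ⟨σ, hσ⟩
  refine Set.mem_biUnion (Set.mem_range_self σ) ?_
  intro h
  apply hσ
  rw [SG, hP]
  exact h

/-- number fields -/
theorem LocF.num {K : Type} [Field K] [NumberField K] {ℓ : ℕ} {v : HeightOneSpectrum (𝓞 K)}
    {S : AddSubmonoid ℕ} {r : ℕ} {a : K} {b : Fin r → K} {f : K[X]} {g : Fin r → K[X]}
    (h : LocF ℓ v.asIdeal S a b f g) (L : Type) [Field L] [NumberField L] [Algebra K L]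
    (hL : Module.finrank K L ∉ S) :
    FineX ℓ (algebraMap K L a) (fun i => algebraMap K L (b i)) (f.map (algebraMap K L))
      (fun i => (g i).map (algebraMap K L)) := by
  obtain ⟨A, i1, i2, i3, i4, e₁, f₁, hfin, hfr, hover, hef⟩ := over_num (L := L) v S hL
  exact h A L e₁ f₁ hover hef

end Pool.Agent.J4H44.FP
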