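import Mathlib

/-!
# The places of an extension

(helper44, project FP.)
-/

set_option autoImplicit false
set_option linter.all false

namespace Pool.Agent.J4H44.FP

open Polynomial NumberField IsDedekindDomain WithZero

theorem exists_w {K L : Type} [Field K] [NumberField K] [Field L] [NumberField L] [Algebra K L]
    (v : HeightOneSpectrum (𝓞 K)) {p : ℕ} (hp : Nat.card (𝓞 K ⧸ v.asIdeal) = p)
    (S : AddSubmonoid ℕ) (hS : Module.finrank K L ∉ S) :
    ∃ (w : HeightOneSpectrum (𝓞 L)) (e f : ℕ),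
      w.asIdeal.comap (algebraMap (𝓞 K) (𝓞 L)) = v.asIdeal ∧ e * f ∉ S ∧
      Nat.card (𝓞 L ⧸ w.asIdeal) = p ^ f ∧
      ∀ a : 𝓞 K, a ∈ v.asIdeal → a ∉ v.asIdeal ^ 2 →
        algebraMap (𝓞 K) (𝓞 L) a ∈ w.asIdeal ^ e ∧
        algebraMap (𝓞 K) (𝓞 L) a ∉ w.asIdeal ^ (e + 1) := by
  classical
  have hvm : v.asIdeal.IsMaximal := v.isMaximal
  have h1 := Ideal.sum_ramification_inertia (𝓞 L) K L (p := v.asIdeal) v.ne_bot
  have h2 : ∃ P ∈ IsDedekindDomain.primesOverFinset v.asIdeal (𝓞 L),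
      v.asIdeal.ramificationIdx' P * v.asIdeal.inertiaDeg' P ∉ S := by
    by_contra hcon
    push Not at hcon
    apply hS
    rw [← h1]
    exact S.sum_mem hcon
  obtain ⟨P, hP, hPS⟩ := h2
  obtain ⟨hPp, hPv⟩ := (IsDedekindDomain.mem_primesOverFinset_iff v.ne_bot (𝓞 L)).1 hP
  have hPb : P ≠ ⊥ := Ideal.ne_bot_of_liesOver_of_ne_bot v.ne_bot P
  have hPm : P.IsMaximal := hPp.isMaximal hPb
  let w : HeightOneSpectrum (𝓞 L) := ⟨P, hPp, hPb⟩
  haveI : w.asIdeal.LiesOver v.asIdeal := hPv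
  refine ⟨w, v.asIdeal.ramificationIdx' P, v.asIdeal.inertiaDeg' P, ?_, hPS, ?_, ?_⟩
  · exact (Ideal.over_def P v.asIdeal).symm
  · rw [← hp, Ideal.inertiaDeg'_eq_inertiaDeg v.asIdeal P]
    have h3 := Ideal.cardQuot_pow_inertiaDeg v.asIdeal P
    rw [Submodule.cardQuot_apply, Submodule.cardQuot_apply] at h3
    exact h3.symm
  · intro a ha ha'
    have ha0 : a ≠ 0 := by
      rintro rfl
      exact ha' (zero_mem _)
    have h3 : v.intValuation a = exp (-(1 : ℤ)) := by
      have h4 : v.intValuation a ≤ exp (-((1 : ℕ) : ℤ)) := by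
        rw [HeightOneSpectrum.intValuation_le_pow_iff_mem, pow_one]
        exact ha
      have h5 : ¬ v.intValuation a ≤ exp (-((2 : ℕ) : ℤ)) := by
        rw [HeightOneSpectrum.intValuation_le_pow_iff_mem]
        exact ha'
      rw [v.intValuation_eq_exp_neg_multiplicity ha0, exp_le_exp] at h4 h5
      rw [v.intValuation_eq_exp_neg_multiplicity ha0]
      congr 1
      push_cast at h4 h5 ⊢
      omega
    have h4 := HeightOneSpectrum.intValuation_liesOver v w a
    rw [h3] at h4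
    have h5 : w.intValuation (algebraMap (𝓞 K) (𝓞 L) a) =
        exp (-((v.asIdeal.ramificationIdx' P : ℕ) : ℤ)) := by
      rw [← h4, ← exp_nsmul]
      congr 1
      simp
      rfl
    constructor
    · rw [← HeightOneSpectrum.intValuation_le_pow_iff_mem, h5]
    · rw [← HeightOneSpectrum.intValuation_le_pow_iff_mem, h5, exp_le_exp]
      push_cast
      omega

end Pool.Agent.J4H44.FP
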