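import Pool.Agent.J4H44.FP.Gal
import Pool.Agent.W723.SecC.D1d

/-!
# Primes with a given Frobenius element and roots in the extensions of the residue field

(helper44, project FP.)  A variant of `Pool.Agent.W723.SecC.partD1`.
-/

set_option autoImplicit false
set_option linter.all false

namespace Pool.Agent.J4H44.FP

open Polynomial NumberField IsDedekindDomain
open Pool.Agent.W401.Cheb Pool.Agent.W723.SecC

theorem frob_pow {L : Type} [Field L] [NumberField L] {k : Type} [Field k] {p : ℕ}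
    {φ : 𝓞 L →+* k} {τ : Gal(L/ℚ)} (h : HasFrob p φ τ) (d : ℕ) (x : 𝓞 L) :
    φ ((τ ^ d) • x) = φ x ^ (p ^ d) := by
  induction d generalizing x with
  | zero => rw [pow_zero, one_smul, pow_zero, pow_one]
  | succ d ih => rw [pow_succ', mul_smul, h, ih, ← pow_mul, pow_succ]

/-- the elements of `𝓞 K` are congruent to natural numbers modulo a prime of degree one -/
theorem nat_congr {K : Type} [Field K] [NumberField K] (v : Ideal (𝓞 K)) (hv : v.IsPrime) {p : ℕ}
    (hp : p.Prime) (h : Nat.card (𝓞 K ⧸ v) = p) (x : 𝓞 K) : ∃ n : ℕ, x - n ∈ v := by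
  haveI : Fact p.Prime := ⟨hp⟩
  haveI : Finite (𝓞 K ⧸ v) := Nat.finite_of_card_ne_zero (by rw [h]; exact hp.ne_zero)
  haveI : Fintype (𝓞 K ⧸ v) := Fintype.ofFinite _
  haveI : Nontrivial (𝓞 K ⧸ v) := Ideal.Quotient.nontrivial_iff.2 hv.ne_top
  have h0 : ((p : ℕ) : 𝓞 K ⧸ v) = 0 := by
    rw [← h, Nat.card_eq_fintype_card]
    exact Nat.cast_card_eq_zero _
  haveI : CharP (𝓞 K ⧸ v) p := (CharP.charP_iff_prime_eq_zero hp).2 h0
  have h1 : Function.Bijective (ZMod.castHom (dvd_refl p) (𝓞 K ⧸ v)) := by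
    refine (ZMod.castHom_injective (𝓞 K ⧸ v)).bijective_of_nat_card_le ?_
    rw [h, Nat.card_zmod]
  obtain ⟨z, hz⟩ := h1.2 (Ideal.Quotient.mk v x)
  refine ⟨z.val, ?_⟩
  rw [← Ideal.Quotient.eq_zero_iff_mem, map_sub, ← hz, map_natCast, sub_eq_zero]
  conv_lhs => rw [← ZMod.natCast_zmod_val z]
  rw [map_natCast]

theorem frobX (K : Type) [Field K] [NumberField K] (g : (𝓞 K)[X]) (c : 𝓞 K) (hc : c ≠ 0)
    (hg0 : g ≠ 0) (σ : AlgebraicClosure K ≃ₐ[K] AlgebraicClosure K) (ε : ℝ) (hε : 0 < ε) :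
    ∃ T : Finset (HeightOneSpectrum (𝓞 K)), (∀ v ∈ T, c ∉ v.asIdeal ∧
      g.leadingCoeff ∉ v.asIdeal ∧ ∃ p : ℕ, p.Prime ∧ Nat.card (𝓞 K ⧸ v.asIdeal) = p ∧
      ∀ d : ℕ, (∀ θ : AlgebraicClosure K, aeval θ (g.map (algebraMap (𝓞 K) K)) = 0 →
        (σ ^ d) θ ≠ θ) →
      ∀ (k' : Type) [Field k'] [Finite k'] (j : 𝓞 K →+* k'), RingHom.ker j = v.asIdeal →
        Nat.card k' = p ^ d → ∀ r : k', g.eval₂ j r ≠ 0) ∧
      ∏ v ∈ T, (1 - (1 / (Ideal.absNorm v.asIdeal : ℝ) -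
        1 / (Ideal.absNorm v.asIdeal : ℝ) ^ 2)) < ε := by
  classical
  have hinjK : Function.Injective (algebraMap (𝓞 K) K) := FaithfulSMul.algebraMap_injective _ _
  have hgK0 : g.map (algebraMap (𝓞 K) K) ≠ 0 := (Polynomial.map_ne_zero_iff hinjK).2 hg0
  obtain ⟨L, _, _, _, i, τ, u, hui, huτ, hspl⟩ :=
    exists_M K (g.map (algebraMap (𝓞 K) K)) hgK0 σ
  have hτi : ∀ x, τ (i x) = i x := by
    intro x
    apply u.injective
    rw [huτ, hui, AlgEquiv.commutes]
  have huτd : ∀ (d : ℕ) (x : L), u ((τ ^ d) x) = (σ ^ d) (u x) := by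
    intro d
    induction d with
    | zero => intro x; rfl
    | succ d ih =>
      intro x
      rw [pow_succ, pow_succ, AlgEquiv.mul_apply, AlgEquiv.mul_apply, ih, huτ]
  let iO : 𝓞 K →+* 𝓞 L := RingOfIntegers.mapRingHom i
  have hiO : ∀ x, ((iO x : 𝓞 L) : L) = i x := fun x => rfl
  have hiinj : Function.Injective iO := by
    intro x y hxy
    have h1 : (iO x : L) = iO y := by rw [hxy]
    rw [hiO, hiO] at h1
    exact RingOfIntegers.coe_injective (i.injective h1)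
  have hsmul : ∀ (ρ : Gal(L/ℚ)) (x : 𝓞 L), ((ρ • x : 𝓞 L) : L) = ρ x := fun ρ x => rfl
  have hτO : ∀ x, τ • (iO x) = iO x := by
    intro x
    apply RingOfIntegers.ext
    rw [hsmul, hiO, hτi]
  set lc := g.leadingCoeff with hlc
  have hlc0 : lc ≠ 0 := leadingCoeff_ne_zero.mpr hg0
  -- the image of `g` over `L`
  set gL : L[X] := (g.map (algebraMap (𝓞 K) K)).map i with hgL
  have hgL0 : gL ≠ 0 := by
    rw [hgL, Ne, Polynomial.map_eq_zero]
    exact hgK0
  have hgLO : gL = (g.map iO).map (algebraMap (𝓞 L) L) := by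
    rw [hgL, Polynomial.map_map, Polynomial.map_map]
    rfl
  have hgLlc : gL.leadingCoeff = i (lc : K) := by
    rw [hgL, leadingCoeff_map, leadingCoeff_map_of_injective hinjK]
  have hroot : ∀ θ ∈ gL.roots, gL.eval θ = 0 := fun θ hθ => (mem_roots hgL0).mp hθ
  have hint : ∀ θ ∈ gL.roots, IsIntegral ℤ (i (lc : K) * θ) := by
    intro θ hθ
    have h1 : (i.comp (algebraMap (𝓞 K) K)).IsIntegralElem
        ((i.comp (algebraMap (𝓞 K) K)) lc * θ) := by
      refine (i.comp (algebraMap (𝓞 K) K)).isIntegralElem_leadingCoeff_mul g θ ?_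
      have h2 := hroot θ hθ
      rw [hgL, Polynomial.map_map, eval_map] at h2
      exact h2
    let _ : Algebra (𝓞 K) L := (i.comp (algebraMap (𝓞 K) K)).toAlgebra
    exact isIntegral_trans (R := ℤ) (A := 𝓞 K) _ h1
  have hηex : ∀ θ : L, ∃ y : 𝓞 L, θ ∈ gL.roots → ((y : 𝓞 L) : L) = i (lc : K) * θ := by
    intro θ
    by_cases hθ : θ ∈ gL.roots
    · exact ⟨⟨_, hint θ hθ⟩, fun _ => rfl⟩
    · exact ⟨0, fun h => absurd h hθ⟩
  choose η hη using hηex
  have hilc : i (lc : K) ≠ 0 := by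
    rw [Ne, _root_.map_eq_zero]
    intro h1
    apply hlc0
    apply RingOfIntegers.coe_injective
    exact h1.trans (map_zero (algebraMap (𝓞 K) K)).symm
  -- fixed by a power of `τ`
  have hfix : ∀ (d : ℕ) (θ : L), θ ∈ gL.roots → (τ ^ d) • (η θ) = η θ →
      ∃ θ' : AlgebraicClosure K, aeval θ' (g.map (algebraMap (𝓞 K) K)) = 0 ∧
        (σ ^ d) θ' = θ' := by
    intro d θ hθ h0
    have h1 : (((τ ^ d) • (η θ) : 𝓞 L) : L) = η θ := by rw [h0]
    rw [hsmul, hη θ hθ, map_mul] at h1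
    have h2 : (τ ^ d) (i (lc : K)) = i (lc : K) := by
      clear h1 h0
      induction d with
      | zero => rfl
      | succ d ih => rw [pow_succ, AlgEquiv.mul_apply, hτi, ih]
    rw [h2] at h1
    have h3 := mul_left_cancel₀ hilc h1
    refine ⟨u θ, ?_, ?_⟩
    · have h4 := congrArg u (hroot θ hθ)
      have h5 : u.comp i = algebraMap K (AlgebraicClosure K) := RingHom.ext hui
      rw [hgL, eval_map, hom_eval₂, h5, map_zero] at h4
      exact h4
    · rw [← huτd, h3]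
  -- the bad primes
  have hE1 : iO (c * lc) ≠ 0 := by
    rw [Ne, map_eq_zero_iff iO hiinj]
    exact mul_ne_zero hc hlc0
  obtain ⟨m1, hm1, hm1'⟩ := nz L _ hE1
  let P : Type := {x : L × Gal(L/ℚ) // x.1 ∈ gL.roots.toFinset ∧ x.2 • (η x.1) - η x.1 ≠ 0}
  haveI : Finite {θ : L // θ ∈ gL.roots.toFinset} := inferInstance
  haveI : Finite Gal(L/ℚ) := inferInstance
  haveI : Finite P := by
    refine Finite.of_injective (fun x : P =>
      ((⟨x.1.1, x.2.1⟩ : {θ : L // θ ∈ gL.roots.toFinset}), x.1.2)) ?_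
    rintro ⟨⟨x, y⟩, hx⟩ ⟨⟨x', y'⟩, hx'⟩ h
    simp only [Prod.mk.injEq, Subtype.mk.injEq] at h
    apply Subtype.ext
    exact Prod.ext h.1 h.2
  letI : Fintype P := Fintype.ofFinite P
  choose mθ hmθ hmθ' using fun x : P => nz L _ x.2.2
  set m : ℕ := m1 * ∏ x, mθ x with hm
  have hmpos : 0 < m := Nat.mul_pos hm1 (Finset.prod_pos fun x _ => hmθ x)
  obtain ⟨δ, C', hδpos, hcount⟩ := count L τ m hmpos
  refine many (frobSet L τ m) (fun p hp => hp.1) (diverge _ δ C' hδpos hcount)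
    (fun v : HeightOneSpectrum (𝓞 K) => Ideal.absNorm v.asIdeal) _ ?_ ε hε
  intro p hp
  obtain ⟨hpp, hpm, hxp⟩ := hp
  have : Fact p.Prime := ⟨hpp⟩
  have hex : ∃ φ : 𝓞 L →+* AlgebraicClosure (ZMod p), HasFrob p φ τ := by
    unfold xp at hxp
    rw [dif_pos hpp] at hxp
    by_contra h
    push Not at h
    apply hxp
    rw [Nat.card_eq_zero]
    left
    exact ⟨fun x => h x.1 x.2⟩
  obtain ⟨φ, hφ⟩ := hex
  have hcast : ∀ n : ℕ, n ∣ m → (n : AlgebraicClosure (ZMod p)) ≠ 0 := by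
    intro n hn h
    rw [CharP.cast_eq_zero_iff (AlgebraicClosure (ZMod p)) p] at h
    exact hpm (h.trans hn)
  have hφE1 : φ (iO (c * lc)) ≠ 0 := hm1' _ φ (hcast m1 (Dvd.intro _ rfl))
  have hφθ : ∀ (θ : L) (ρ : Gal(L/ℚ)), θ ∈ gL.roots → ρ • (η θ) - η θ ≠ 0 →
      φ (ρ • (η θ) - η θ) ≠ 0 := by
    intro θ ρ hθ hρ
    have hθ' : θ ∈ gL.roots.toFinset := Multiset.mem_toFinset.mpr hθ
    refine hmθ' ⟨⟨θ, ρ⟩, hθ', hρ⟩ _ φ (hcast _ ?_)
    exact (Finset.dvd_prod_of_mem mθ (Finset.mem_univ _)).trans (Dvd.intro_left _ rfl)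
  let ψ : 𝓞 K →+* AlgebraicClosure (ZMod p) := φ.comp iO
  have hψ : ∀ x, ψ x ^ p = ψ x := by
    intro x
    have h1 := hφ (iO x)
    rw [hτO] at h1
    exact h1.symm
  have hnorm := absNorm_ker K p (AlgebraicClosure (ZMod p)) ψ hψ
  have hmem : ∀ x, x ∈ RingHom.ker ψ ↔ φ (iO x) = 0 := fun x => RingHom.mem_ker
  have hprime : (RingHom.ker ψ).IsPrime := RingHom.ker_isPrime ψ
  have hbot : RingHom.ker ψ ≠ ⊥ := by
    intro h
    rw [h, Ideal.absNorm_bot] at hnorm
    exact hpp.ne_zero hnorm.symm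
  have hφ4 : φ (iO c) ≠ 0 ∧ φ (iO lc) ≠ 0 := by
    rw [map_mul, map_mul] at hφE1
    exact ⟨left_ne_zero_of_mul hφE1, right_ne_zero_of_mul hφE1⟩
  obtain ⟨h4c, h4lc⟩ := hφ4
  have hcard : Nat.card (𝓞 K ⧸ RingHom.ker ψ) = p := by
    refine Eq.trans ?_ hnorm
    rw [Ideal.absNorm_apply, Submodule.cardQuot_apply]
  refine ⟨⟨RingHom.ker ψ, hprime, hbot⟩, ⟨fun h => h4c ((hmem _).mp h),
    fun h => h4lc ((hmem _).mp h), p, hpp, hcard, ?_⟩, hnorm⟩
  intro d hd k' _ _ j hj hk' r hr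
  have hj' : RingHom.ker j = RingHom.ker ψ := hj
  -- `k'` in the algebraic closure
  haveI : Fintype k' := Fintype.ofFinite k'
  have hp0 : ((p : ℕ) : k') = 0 := by
    have h1 : ((p : ℕ) : 𝓞 K) ∈ RingHom.ker j := by
      rw [hj', RingHom.mem_ker, map_natCast, CharP.cast_eq_zero]
    rw [RingHom.mem_ker, map_natCast] at h1
    exact h1
  haveI : CharP k' p := (CharP.charP_iff_prime_eq_zero hpp).2 hp0
  letI : Algebra (ZMod p) k' := ZMod.algebra k' p
  haveI : Module.Finite (ZMod p) k' := Module.Finite.of_finite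
  haveI : Algebra.IsAlgebraic (ZMod p) k' := Algebra.IsAlgebraic.of_finite _ _
  let ι : k' →ₐ[ZMod p] AlgebraicClosure (ZMod p) := IsAlgClosed.lift
  have hιj : (ι : k' →+* AlgebraicClosure (ZMod p)).comp j = ψ := by
    ext x
    obtain ⟨n, hn⟩ := nat_congr (RingHom.ker ψ) hprime hpp hcard x
    have h1 : ψ x = n := by
      rw [RingHom.mem_ker, map_sub, map_natCast, sub_eq_zero] at hn
      exact hn
    have h2 : j x = n := by
      rw [← hj', RingHom.mem_ker, map_sub, map_natCast, sub_eq_zero] at hn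
      exact hn
    rw [h1, RingHom.comp_apply, h2, map_natCast]
  set r' : AlgebraicClosure (ZMod p) := ι r with hr'
  have hr'1 : g.eval₂ ψ r' = 0 := by
    have h1 := congrArg (ι : k' →+* AlgebraicClosure (ZMod p)) hr
    rw [hom_eval₂, hιj, map_zero] at h1
    exact h1
  have hr'2 : r' ^ (p ^ d) = r' := by
    have h1 := FiniteField.pow_card r
    rw [← Nat.card_eq_fintype_card, hk'] at h1
    rw [hr', ← map_pow, h1]
  -- the factorization
  have hfac : gL = C gL.leadingCoeff * (gL.roots.map fun θ => X - C θ).prod :=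
    hspl.eq_prod_roots
  have h2 : C (iO lc ^ (Multiset.card gL.roots)) * g.map iO =
      C (iO lc) * (gL.roots.map fun θ => C (iO lc) * X - C (η θ)).prod := by
    apply Polynomial.map_injective (algebraMap (𝓞 L) L) (FaithfulSMul.algebraMap_injective _ _)
    have h8 : (algebraMap (𝓞 L) L) (iO lc) = i (lc : K) := rfl
    rw [Polynomial.map_mul, map_C, ← hgLO, Polynomial.map_mul, map_C, map_pow, h8,
      Polynomial.map_multiset_prod, Multiset.map_map]
    have h10 : gL.roots.map ((Polynomial.map (algebraMap (𝓞 L) L)) ∘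
        fun θ => C (iO lc) * X - C (η θ)) =
        gL.roots.map (fun θ => C (i (lc : K)) * (X - C θ)) := by
      refine Multiset.map_congr rfl fun θ hθ => ?_
      have h11 : algebraMap (𝓞 L) L (η θ) = i (lc : K) * θ := hη θ hθ
      rw [Function.comp_apply, Polynomial.map_sub, Polynomial.map_mul, map_C, map_X, map_C, h11,
        h8, C_mul]
      ring
    rw [h10, Multiset.prod_map_mul, Multiset.map_const', Multiset.prod_replicate]
    rw [C_pow]
    conv_lhs => 
      arg 2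
      rw [hfac, hgLlc]
    ring
  have h3 := congrArg (fun q => (q.map φ).eval r') h2
  simp only [Polynomial.map_mul, map_C, eval_mul, eval_C, Polynomial.map_map] at h3
  have h3' : (g.map (φ.comp iO)).eval r' = 0 := by
    rw [eval_map]
    exact hr'1
  rw [h3', mul_zero, Polynomial.map_multiset_prod, Multiset.map_map, eval_multiset_prod,
    Multiset.map_map] at h3
  have h4 := (mul_eq_zero.mp h3.symm).resolve_left h4lc
  rw [Multiset.prod_eq_zero_iff, Multiset.mem_map] at h4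
  obtain ⟨θ, hθ, h5⟩ := h4
  have h6 : φ (iO lc) * r' = φ (η θ) := by
    simp only [Function.comp_apply, Polynomial.map_sub, Polynomial.map_mul, map_C, map_X, eval_sub,
      eval_mul, eval_C, eval_X] at h5
    exact sub_eq_zero.1 h5
  have hlcd : ∀ n : ℕ, φ (iO lc) ^ (p ^ n) = φ (iO lc) := by
    intro n
    induction n with
    | zero => rw [pow_zero, pow_one]
    | succ n ih =>
      rw [pow_succ, pow_mul, ih]
      exact hψ lc
  have h7 : φ ((τ ^ d) • (η θ) - η θ) = 0 := by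
    rw [map_sub, frob_pow hφ, ← h6, mul_pow, hlcd, hr'2, sub_self]
  by_cases h8 : (τ ^ d) • (η θ) - η θ = 0
  · obtain ⟨θ', hθ', hσθ'⟩ := hfix d θ hθ (sub_eq_zero.1 h8)
    exact hd θ' hθ' hσθ'
  · exact hφθ θ (τ ^ d) hθ h8 h7

end Pool.Agent.J4H44.FP
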