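import Pool.Agent.J4H44.FP.NumX
import Pool.Agent.J4H44.FP.Frob
import Pool.Agent.J4H44.FP.Ext

/-!
# Number fields and their local extensions

(helper44, project FP.)
-/

set_option autoImplicit false
set_option linter.all false

open Polynomial FF NumberField IsDedekindDomain

namespace Pool.Agent.J4H44.FP

open Pool.Agent.Y157.PS

/-- `Van` over an extension -/
theorem Van.ext {ℓ : ℕ} (hℓ : 0 < ℓ) {K L : Type} [Field K] [Field L] [Algebra K L] {r : ℕ}
    {b t₀ : Fin r → K} {f H : K[X]} {g : Fin r → K[X]} (hf : f ≠ 0) (hb : ∀ i, b i ≠ 0)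
    (h : Van ℓ b t₀ f g H) :
    Van ℓ (fun i => algebraMap K L (b i)) (fun i => algebraMap K L (t₀ i)) (f.map (algebraMap K L))
      (fun i => (g i).map (algebraMap K L)) (H.map (algebraMap K L)) := by
  intro κ _ _ _ e c he hc
  letI : Algebra K κ := ((algebraMap L κ).comp (algebraMap K L)).toAlgebra
  haveI : IsScalarTower K L κ := IsScalarTower.of_algebraMap_eq fun _ => rfl
  rw [aeval_map_algebraMap] at he ⊢
  simp only [← IsScalarTower.algebraMap_apply K L κ, aeval_map_algebraMap] at hc ⊢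
  have hea : e ∈ algebraicClosure K κ := mem_algebraicClosure_iff.2 ⟨f, hf, he⟩
  have hge : ∀ p : K[X], IsAlgebraic K (aeval e p) := by
    intro p
    have h1 : aeval e p ∈ algebraicClosure K κ := by
      have h2 : aeval e p = algebraMap (algebraicClosure K κ) κ
          (aeval (⟨e, hea⟩ : algebraicClosure K κ) p) := by
        rw [← aeval_algebraMap_apply]
        rfl
      rw [h2]
      exact (aeval (⟨e, hea⟩ : algebraicClosure K κ) p).2
    exact mem_algebraicClosure_iff.1 h1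
  have hca : ∀ i, c i ∈ algebraicClosure K κ := by
    intro i
    refine mem_algebraicClosure_iff.2 ?_
    apply IsAlgebraic.of_pow hℓ
    have hbκ : algebraMap K κ (b i) ≠ 0 := (_root_.map_ne_zero _).2 (hb i)
    have h1 : c i ^ ℓ = algebraMap K κ (b i)⁻¹ * aeval e (g i) := by
      rw [← hc i, map_inv₀, inv_mul_cancel_left₀ hbκ]
    rw [h1]
    exact (isAlgebraic_algebraMap _).mul (hge _)
  set e' : algebraicClosure K κ := ⟨e, hea⟩ with he'
  set c' : Fin r → algebraicClosure K κ := fun i => ⟨c i, hca i⟩ with hc'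
  have haev : ∀ (p : K[X]) (x : algebraicClosure K κ), ((aeval x p : algebraicClosure K κ) : κ) =
      aeval (x : κ) p := fun p x => (aeval_algebraMap_apply κ x p).symm
  have h1 := h (algebraicClosure K κ) e' c' (by
    apply Subtype.ext
    rw [haev]
    exact he) (fun i => by
    apply Subtype.ext
    rw [haev]
    exact hc i)
  have h2 := congrArg (fun q : algebraicClosure K κ => (q : κ)) h1
  simp only [haev] at h2
  have h3 : ((e' + ∑ i, algebraMap K (algebraicClosure K κ) (t₀ i) * c' i :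
      algebraicClosure K κ) : κ) = e + ∑ i, algebraMap K κ (t₀ i) * c i := by
    have h4 : algebraMap (algebraicClosure K κ) κ
        (e' + ∑ i, algebraMap K (algebraicClosure K κ) (t₀ i) * c' i) =
        algebraMap (algebraicClosure K κ) κ e' + ∑ i, algebraMap (algebraicClosure K κ) κ
          (algebraMap K (algebraicClosure K κ) (t₀ i) * c' i) := by
      rw [map_add, map_sum]
    exact h4
  rw [h3] at h2
  exact h2

/-- `A` lies over the prime `v`, with ramification index `e` and residue degree `f`; `k` is the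
fraction field of `A` -/
def Over {K : Type} [Field K] [NumberField K] (v : Ideal (𝓞 K)) (A k : Type) [CommRing A]
    [IsDomain A] [IsDiscreteValuationRing A] [Field k] [Algebra A k] [Algebra K k] (e f : ℕ) :
    Prop :=
  ∃ r : 𝓞 K →+* A, (∀ c, algebraMap A k (r c) = algebraMap K k (algebraMap (𝓞 K) K c)) ∧
    v.map r = IsLocalRing.maximalIdeal A ^ e ∧
    Nat.card (IsLocalRing.ResidueField A) = Nat.card (𝓞 K ⧸ v) ^ f

/-- over all discrete valuation rings over `v` with `e f ∉ S` the curves have neither points nor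
sections -/
def LocF (ℓ : ℕ) {K : Type} [Field K] [NumberField K] (v : Ideal (𝓞 K)) (S : AddSubmonoid ℕ)
    {r : ℕ} (a : K) (b : Fin r → K) (f : K[X]) (g : Fin r → K[X]) : Prop :=
  ∀ (A k : Type) [CommRing A] [IsDomain A] [IsDiscreteValuationRing A]
    [Finite (IsLocalRing.ResidueField A)] [Field k] [Algebra A k] [IsFractionRing A k]
    [Algebra K k] (e₁ f₁ : ℕ), Over v A k e₁ f₁ → e₁ * f₁ ∉ S →
      FineX ℓ (algebraMap K k a) (fun i => algebraMap K k (b i)) (f.map (algebraMap K k))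
        (fun i => (g i).map (algebraMap K k))

theorem exists_primesA {K : Type} [Field K] [NumberField K] {ℓ : ℕ} (hℓ : ℓ.Prime) (f H : K[X])
    {r : ℕ} (g : Fin r → K[X])
    (hs : (f * ∏ i, g i).Separable) (hdf : ℓ ∣ f.natDegree) (hdg : ∀ i, ℓ ∣ (g i).natDegree)
    (h3 : 3 ≤ (f * ∏ i, g i).natDegree) (b t₀ : Fin r → K) (hb : ∀ i, b i ≠ 0) (hH : H ≠ 0)
    (hZ : Van ℓ b t₀ f g H)
    (σ : AlgebraicClosure K ≃ₐ[K] AlgebraicClosure K) (S : AddSubmonoid ℕ) (hSℓ : ℓ ∈ S)
    (hS : ∀ (n : ℕ) (θ : AlgebraicClosure K), aeval θ H = 0 → (σ ^ n) θ = θ → n ∈ S)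
    (c0 : 𝓞 K) (hc0 : c0 ≠ 0) (ε : ℝ) (hε : 0 < ε) :
    ∃ T : Finset (HeightOneSpectrum (𝓞 K)),
      (∀ v ∈ T, c0 ∉ v.asIdeal ∧ ∀ a : 𝓞 K, a ∈ v.asIdeal → a ∉ v.asIdeal ^ 2 →
        LocF ℓ v.asIdeal S (algebraMap (𝓞 K) K a) b f g) ∧
      ∏ v ∈ T, (1 - (1 / (Ideal.absNorm v.asIdeal : ℝ) -
        1 / (Ideal.absNorm v.asIdeal : ℝ) ^ 2)) < ε := by
  classical
  have hinj : Function.Injective (algebraMap (𝓞 K) K) := IsFractionRing.injective (𝓞 K) K
  obtain ⟨c1, f', hc1K, hc1, hf', hdf'⟩ := int_poly f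
  have hgex := fun i => int_poly (g i)
  choose c2 g' hc2K hc2 hg' hdg' using hgex
  obtain ⟨c3, H', hc3K, hc3, hH', hdH'⟩ := int_poly H
  have hbex := fun i => IsFractionRing.div_surjective (A := 𝓞 K) (b i)
  choose β δ hδ hβδ using hbex
  have htex := fun i => IsFractionRing.div_surjective (A := 𝓞 K) (t₀ i)
  choose τ₁ τ₂ hτ₂ hτ using htex
  have hδ0 : ∀ i, δ i ≠ 0 := fun i => nonZeroDivisors.ne_zero (hδ i)
  have hτ0 : ∀ i, τ₂ i ≠ 0 := fun i => nonZeroDivisors.ne_zero (hτ₂ i)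
  have hβ0 : ∀ i, β i ≠ 0 := by
    intro i h0
    have h1 := hβδ i
    rw [h0, map_zero, zero_div] at h1
    exact hb i h1.symm
  have hf0 : f ≠ 0 := fun h => hs.ne_zero (by rw [h, zero_mul])
  have hg0 : ∀ i, g i ≠ 0 := fun i h => hs.ne_zero (by
    rw [Finset.prod_eq_zero (Finset.mem_univ i) h, mul_zero])
  have hne' : ∀ (c : 𝓞 K) (p : K[X]) (p' : (𝓞 K)[X]), algebraMap (𝓞 K) K c ≠ 0 → p ≠ 0 →
      p'.map (algebraMap (𝓞 K) K) = C (algebraMap (𝓞 K) K c) * p → p' ≠ 0 := by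
    rintro c p p' hc hp hcp rfl
    rw [Polynomial.map_zero] at hcp
    exact (mul_ne_zero (C_ne_zero.2 hc) hp) hcp.symm
  have hf'0 : f' ≠ 0 := hne' c1 f f' hc1K hf0 hf'
  have hg'0 : ∀ i, g' i ≠ 0 := fun i => hne' (c2 i) (g i) (g' i) (hc2K i) (hg0 i) (hg' i)
  have hH'0 : H' ≠ 0 := hne' c3 H H' hc3K hH hH'
  have hfgs : ((f' * ∏ i, g' i).map (algebraMap (𝓞 K) K)).Separable := by
    have h1 : (f' * ∏ i, g' i).map (algebraMap (𝓞 K) K) =
        C (algebraMap (𝓞 K) K c1 * ∏ i, algebraMap (𝓞 K) K (c2 i)) * (f * ∏ i, g i) := by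
      rw [Polynomial.map_mul, Polynomial.map_prod, hf', C_mul, map_prod]
      simp only [hg']
      rw [Finset.prod_mul_distrib]
      ring
    rw [h1]
    exact Separable.unit_mul (isUnit_C.2 (mul_ne_zero hc1K
      (Finset.prod_ne_zero_iff.2 fun i _ => hc2K i)).isUnit) hs
  obtain ⟨u, w, D, hD, huw⟩ := Pool.Agent.W723.SecC.sep_int K (f' * ∏ i, g' i) hfgs
  have hH'σ : ∀ (n : ℕ) (θ : AlgebraicClosure K),
      aeval θ (H'.map (algebraMap (𝓞 K) K)) = 0 → (σ ^ n) θ = θ → n ∈ S := by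
    intro n θ hθ hn
    refine hS n θ ?_ hn
    rw [hH', map_mul, aeval_C] at hθ
    exact (mul_eq_zero.1 hθ).resolve_left ((_root_.map_ne_zero _).2 hc3K)
  have hℓ0 : (ℓ : 𝓞 K) ≠ 0 := by
    rw [Nat.cast_ne_zero]
    exact hℓ.ne_zero
  obtain ⟨T, hT, hTε⟩ := frobX K H'
    (c0 * c1 * c3 * D * f'.leadingCoeff * (ℓ : 𝓞 K) *
      ∏ i, (c2 i * β i * δ i * τ₂ i * (g' i).leadingCoeff))
    (by
      refine mul_ne_zero (mul_ne_zero (mul_ne_zero (mul_ne_zero (mul_ne_zero (mul_ne_zero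
        hc0 hc1) hc3) hD) (leadingCoeff_ne_zero.2 hf'0)) hℓ0) ?_
      refine Finset.prod_ne_zero_iff.2 fun i _ => ?_
      exact mul_ne_zero (mul_ne_zero (mul_ne_zero (mul_ne_zero (hc2 i) (hβ0 i)) (hδ0 i)) (hτ0 i))
        (leadingCoeff_ne_zero.2 (hg'0 i))) hH'0 σ ε hε
  refine ⟨T, ?_, hTε⟩
  intro v hv
  obtain ⟨hN, hlcv, p, hpp, hcard, hrv⟩ := hT v hv
  have hvp : v.asIdeal.IsPrime := v.isPrime
  have hvm : v.asIdeal.IsMaximal := v.isMaximal
  simp only [hvp.mul_mem_iff_mem_or_mem, not_or] at hN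
  obtain ⟨⟨⟨⟨⟨⟨n0, n1⟩, n3⟩, nD⟩, nf⟩, nℓ⟩, nprod⟩ := hN
  have nall : ∀ i, c2 i * β i * δ i * τ₂ i * (g' i).leadingCoeff ∉ v.asIdeal := by
    intro i hi
    apply nprod
    obtain ⟨q, hq⟩ := Finset.dvd_prod_of_mem
      (fun i => c2 i * β i * δ i * τ₂ i * (g' i).leadingCoeff) (Finset.mem_univ i)
    rw [hq]
    exact Ideal.mul_mem_right _ _ hi
  simp only [hvp.mul_mem_iff_mem_or_mem, not_or] at nall
  have n2 : ∀ i, c2 i ∉ v.asIdeal := fun i => (nall i).1.1.1.1
  have nβ : ∀ i, β i ∉ v.asIdeal := fun i => (nall i).1.1.1.2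
  have nδ : ∀ i, δ i ∉ v.asIdeal := fun i => (nall i).1.1.2
  have nτ : ∀ i, τ₂ i ∉ v.asIdeal := fun i => (nall i).1.2
  have ng : ∀ i, (g' i).leadingCoeff ∉ v.asIdeal := fun i => (nall i).2
  refine ⟨n0, ?_⟩
  intro a ha ha' A k _ _ _ _ _ _ _ _ e₁ f₁ hover hef
  obtain ⟨ρ, hA, hmapv, hcardA⟩ := hover
  have hKk : Function.Injective (algebraMap K k) := (algebraMap K k).injective
  haveI : CharZero k := charZero_of_injective_algebraMap hKk
  have he1 : e₁ ≠ 0 := by
    rintro rfl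
    apply hef
    rw [zero_mul]
    exact S.zero_mem
  have hℓe : ¬ ℓ ∣ e₁ := by
    rintro ⟨j, rfl⟩
    apply hef
    have h1 : ℓ * j * f₁ = (j * f₁) • ℓ := by
      rw [smul_eq_mul]
      ring
    rw [h1]
    exact S.nsmul_mem hSℓ _
  have hfσ : ∀ θ : AlgebraicClosure K, aeval θ (H'.map (algebraMap (𝓞 K) K)) = 0 →
      (σ ^ f₁) θ ≠ θ := by
    intro θ hθ h1
    apply hef
    rw [← smul_eq_mul]
    exact S.nsmul_mem (hH'σ f₁ θ hθ h1) _
  have hr' : (algebraMap A k).comp ρ = (algebraMap K k).comp (algebraMap (𝓞 K) K) :=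
    RingHom.ext hA
  have hcomap : (IsLocalRing.maximalIdeal A).comap ρ = v.asIdeal := by
    refine (hvm.eq_of_le ?_ ?_).symm
    · exact Ideal.IsPrime.ne_top inferInstance
    · intro c hc
      rw [Ideal.mem_comap]
      have h1 := Ideal.mem_map_of_mem ρ hc
      rw [hmapv] at h1
      exact Ideal.pow_le_self he1 h1
  have hunitr : ∀ c : 𝓞 K, c ∉ v.asIdeal → IsUnit (ρ c) := by
    intro c hc
    by_contra hu
    apply hc
    rw [← hcomap, Ideal.mem_comap]
    exact (IsLocalRing.mem_maximalIdeal _).2 hu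
  set j : 𝓞 K →+* IsLocalRing.ResidueField A := (IsLocalRing.residue A).comp ρ with hj
  have hjker : RingHom.ker j = v.asIdeal := by
    ext c
    rw [RingHom.mem_ker, hj, RingHom.comp_apply, IsLocalRing.residue_eq_zero_iff, ← hcomap]
    rfl
  have hinjr : Function.Injective ρ := by
    intro c c' hcc
    apply hinj
    apply hKk
    rw [← hA, ← hA, hcc]
  have hcb : c1 * a ∈ v.asIdeal := Ideal.mul_mem_left _ _ ha
  have hcb' : c1 * a ∉ v.asIdeal ^ 2 := by
    intro h
    rcases Ideal.IsMaximal.mul_mem_pow _ h with h1 | h1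
    · exact n1 h1
    · exact ha' h1
  -- the valuation of `c1 * a`
  obtain ⟨ϖ, hϖ⟩ := IsDiscreteValuationRing.exists_irreducible A
  obtain ⟨t, ht, hbt⟩ : ∃ t : A, IsUnit t ∧ ρ (c1 * a) = t * ϖ ^ e₁ := by
    have h1 : Ideal.span {ρ (c1 * a)} = Ideal.span {ϖ ^ e₁} := by
      have h2 : v.asIdeal ∣ Ideal.span {c1 * a} := by
        rw [Ideal.dvd_span_singleton]
        exact hcb
      obtain ⟨J, hJ⟩ := h2
      have h3 : ¬ J ≤ v.asIdeal := by
        intro h4
        apply hcb'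
        have h5 : Ideal.span {c1 * a} ≤ v.asIdeal ^ 2 := by
          rw [hJ, pow_two]
          exact Ideal.mul_mono_right h4
        exact h5 (Ideal.mem_span_singleton_self _)
      obtain ⟨q, hqJ, hqv⟩ := Set.not_subset.1 h3
      have h6 : J.map ρ = ⊤ := Ideal.eq_top_of_isUnit_mem _ (Ideal.mem_map_of_mem ρ hqJ)
        (hunitr q hqv)
      rw [← Set.image_singleton, ← Ideal.map_span, hJ, Ideal.map_mul, h6, Ideal.mul_top, hmapv,
        hϖ.maximalIdeal_eq, Ideal.span_singleton_pow]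
    rw [Ideal.span_singleton_eq_span_singleton] at h1
    obtain ⟨u, hu⟩ := h1.symm
    exact ⟨u, u.isUnit, by rw [← hu, mul_comm]⟩
  have hfact : Fact ℓ.Prime := ⟨hℓ⟩
  have hmapK : ∀ q : (𝓞 K)[X], (q.map ρ).map (algebraMap A k) =
      (q.map (algebraMap (𝓞 K) K)).map (algebraMap K k) := fun q => by
    rw [Polynomial.map_map, hr', Polynomial.map_map]
  have hlcA : ∀ q : (𝓞 K)[X], q.leadingCoeff ∉ v.asIdeal →
      IsUnit (q.map ρ).leadingCoeff := by
    intro q hq
    rw [leadingCoeff_map_of_injective hinjr]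
    exact hunitr _ hq
  have hdegA : ∀ q : (𝓞 K)[X], (q.map ρ).natDegree = q.natDegree := fun q =>
    natDegree_map_eq_of_injective hinjr q
  -- the units
  have hδu := fun i => hunitr (δ i) (nδ i)
  choose uδ huδ using hδu
  have hτu := fun i => hunitr (τ₂ i) (nτ i)
  choose uτ huτ using hτu
  have hinvK : ∀ (q : Aˣ) (c : 𝓞 K), (q : A) = ρ c →
      algebraMap A k ((q⁻¹ : Aˣ) : A) = (algebraMap K k (algebraMap (𝓞 K) K c))⁻¹ := by
    intro q c hq
    refine (inv_eq_of_mul_eq_one_right ?_).symm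
    rw [← hA c, ← hq, ← map_mul, Units.mul_inv, map_one]
  set bA : Fin r → A := fun i => ρ (c2 i) * (ρ (β i) * (((uδ i)⁻¹ : Aˣ) : A)) with hbA
  have hbAu : ∀ i, IsUnit (bA i) := fun i =>
    (hunitr (c2 i) (n2 i)).mul ((hunitr (β i) (nβ i)).mul (uδ i)⁻¹.isUnit)
  have hbAK : ∀ i, algebraMap A k (bA i) =
      algebraMap K k (algebraMap (𝓞 K) K (c2 i)) * algebraMap K k (b i) := by
    intro i
    simp only [hbA]
    rw [map_mul, map_mul, hA, hA, hinvK (uδ i) (δ i) (huδ i), ← hβδ i, map_div₀, div_eq_mul_inv]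
  set tA : Fin r → A := fun i => ρ (τ₁ i) * (((uτ i)⁻¹ : Aˣ) : A) with htA
  have htAK : ∀ i, algebraMap A k (tA i) = algebraMap K k (t₀ i) := by
    intro i
    simp only [htA]
    rw [map_mul, hA, hinvK (uτ i) (τ₂ i) (huτ i), ← hτ i, map_div₀, div_eq_mul_inv]
  have key := fineX (ℓ := ℓ) (k := k) (by
      have := hunitr _ nℓ
      rwa [map_natCast] at this)
    (f'.map ρ) (H'.map ρ) (fun i => (g' i).map ρ)
    (hlcA f' nf) (fun i => hlcA (g' i) (ng i)) (by
      rw [← Polynomial.map_prod, ← Polynomial.map_mul, Polynomial.map_map]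
      have h1 := congrArg (fun q => q.map j) huw
      simp only [Polynomial.map_add, Polynomial.map_mul, map_C] at h1
      have hDv : j D ≠ 0 := by
        intro h
        apply nD
        rw [← hjker, RingHom.mem_ker, h]
      refine ⟨C (j D)⁻¹ * u.map j, C (j D)⁻¹ * w.map j, ?_⟩
      rw [derivative_map, mul_assoc, mul_assoc, ← mul_add, Polynomial.map_mul, h1, ← C_mul,
        inv_mul_cancel₀ hDv, C_1])
    (by rw [hdegA, hdf']; exact hdf) (fun i => by rw [hdegA, hdg' i]; exact hdg i)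
    (by
      rw [← Polynomial.map_prod, ← Polynomial.map_mul, hdegA]
      rw [natDegree_mul hf0 (Finset.prod_ne_zero_iff.2 fun i _ => hg0 i),
        natDegree_prod _ _ fun i _ => hg0 i] at h3
      rw [natDegree_mul hf'0 (Finset.prod_ne_zero_iff.2 fun i _ => hg'0 i),
        natDegree_prod _ _ fun i _ => hg'0 i, hdf']
      simp only [hdg']
      exact h3) tA bA hbAu (hlcA H' hlcv) (by
      intro c hc
      have h3 : IsLocalRing.residue A ((H'.map ρ).eval c) = 0 :=
        (IsLocalRing.residue_eq_zero_iff _).2 hc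
      rw [← eval₂_at_apply, ← eval_map, Polynomial.map_map, eval_map] at h3
      exact hrv f₁ hfσ (IsLocalRing.ResidueField A) j hjker (by rw [hcardA, hcard]) _ h3)
    (by
      have hZL := hZ.ext (L := k) hℓ.pos hf0 hb
      intro κ _ _ _ x c hx hc
      simp only [htAK]
      rw [hmapK, hH', Polynomial.map_mul, map_mul, map_C, aeval_C]
      rw [hmapK, hf', Polynomial.map_mul, map_mul, map_C, aeval_C] at hx
      have hc1L : algebraMap K k (algebraMap (𝓞 K) K c1) ≠ 0 := (_root_.map_ne_zero _).2 hc1K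
      have hx1 := (mul_eq_zero.1 hx).resolve_left ((_root_.map_ne_zero _).2 hc1L)
      rw [hZL κ x c hx1 (fun i => ?_), mul_zero]
      have hci := hc i
      simp only at hci
      rw [hmapK, hg' i, hbAK, Polynomial.map_mul, map_mul, map_mul, map_C, aeval_C,
        mul_assoc] at hci
      have hc2L : algebraMap K k (algebraMap (𝓞 K) K (c2 i)) ≠ 0 :=
        (_root_.map_ne_zero _).2 (hc2K i)
      exact mul_left_cancel₀ ((_root_.map_ne_zero _).2 hc2L) hci)
    ϖ hϖ (algebraMap K k (algebraMap (𝓞 K) K (c1 * a))) e₁ (by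
      intro h
      exact hℓe (by exact_mod_cast h)) t ht (by
        rw [← hA, hbt, map_mul, map_pow, zpow_natCast])
  simp only [hmapK, hf', hg', hbAK, map_mul, Polynomial.map_mul, map_C] at key
  exact key.scale

/-- the places of a number field `L` of degree not in `S` -/
theorem over_num {K L : Type} [Field K] [NumberField K] [Field L] [NumberField L] [Algebra K L]
    (v : HeightOneSpectrum (𝓞 K)) (S : AddSubmonoid ℕ) (hS : Module.finrank K L ∉ S) :
    ∃ (A : Type) (_ : CommRing A) (_ : IsDomain A) (_ : IsDiscreteValuationRing A)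
      (_ : Algebra A L) (e₁ f₁ : ℕ), Finite (IsLocalRing.ResidueField A) ∧
      IsFractionRing A L ∧ Over v.asIdeal A L e₁ f₁ ∧ e₁ * f₁ ∉ S := by
  classical
  obtain ⟨P, e₁, f₁, hcomap, hef, hPcard, hPval⟩ := exists_w (L := L) v rfl S hS
  obtain ⟨A, i1, i2, i3, i4, i5, hfin, hfr, hcompK, hunit, ⟨e, hcomp⟩, hval⟩ := num_ring P
  refine ⟨A, i1, i2, i3, i5, e₁, f₁, hfin, hfr,
    ⟨(algebraMap (𝓞 L) A).comp (algebraMap (𝓞 K) (𝓞 L)), ?_, ?_, ?_⟩, hef⟩
  · intro c
    have h1 := DFunLike.congr_fun hcompK (algebraMap (𝓞 K) (𝓞 L) c)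
    exact h1
  · have hinj : Function.Injective (algebraMap A L) := IsFractionRing.injective A L
    have hgen : ∀ a : 𝓞 K, a ∈ v.asIdeal → a ∉ v.asIdeal ^ 2 →
        Ideal.span {(algebraMap (𝓞 L) A) (algebraMap (𝓞 K) (𝓞 L) a)} =
          IsLocalRing.maximalIdeal A ^ e₁ := by
      intro a ha ha'
      obtain ⟨h1, h2⟩ := hPval a ha ha'
      obtain ⟨ϖ, t, hϖ, ht, hbt⟩ := hval _ e₁ h1 h2
      have h3 : (algebraMap (𝓞 L) A) (algebraMap (𝓞 K) (𝓞 L) a) = t * ϖ ^ e₁ := by
        apply hinj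
        rw [map_mul, map_pow, ← zpow_natCast, ← hbt]
        exact DFunLike.congr_fun hcompK (algebraMap (𝓞 K) (𝓞 L) a)
      rw [h3, Ideal.span_singleton_mul_left_unit ht, hϖ.maximalIdeal_eq, Ideal.span_singleton_pow]
    obtain ⟨a, ha, ha'⟩ : ∃ a, a ∈ v.asIdeal ∧ a ∉ v.asIdeal ^ 2 := by
      have h1 : v.asIdeal ^ 2 < v.asIdeal := by
        haveI := v.isPrime
        have h2 := Ideal.pow_succ_lt_pow v.ne_bot 1
        rwa [pow_one] at h2
      exact Set.exists_of_ssubset h1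
    apply le_antisymm
    · rw [Ideal.map_le_iff_le_comap]
      intro c hc
      rw [Ideal.mem_comap, RingHom.comp_apply]
      by_cases hc2 : c ∈ v.asIdeal ^ 2
      · have h1 := hgen a ha ha'
        have h2 := hgen (c + a) (add_mem hc ha) (fun h => ha' (by
          have := sub_mem h hc2
          rwa [add_sub_cancel_left] at this))
        have h3 : (algebraMap (𝓞 L) A) (algebraMap (𝓞 K) (𝓞 L) c) =
            (algebraMap (𝓞 L) A) (algebraMap (𝓞 K) (𝓞 L) (c + a)) -
              (algebraMap (𝓞 L) A) (algebraMap (𝓞 K) (𝓞 L) a) := by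
          rw [map_add, map_add, add_sub_cancel_right]
        rw [h3]
        refine sub_mem ?_ ?_
        · rw [← h2]
          exact Ideal.mem_span_singleton_self _
        · rw [← h1]
          exact Ideal.mem_span_singleton_self _
      · rw [← hgen c hc hc2]
        exact Ideal.mem_span_singleton_self _
    · rw [← hgen a ha ha', Ideal.span_singleton_le_iff_mem]
      exact Ideal.mem_map_of_mem
        ((algebraMap (𝓞 L) A).comp (algebraMap (𝓞 K) (𝓞 L))) ha
  · rw [← hPcard]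
    exact (Nat.card_congr e.toEquiv).symm

end Pool.Agent.J4H44.FP
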