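import Mathlib

/-!
# A Galois number field containing the roots of a polynomial, with a given automorphism

(helper44, project FP.)  A variant of `Pool.Agent.W723.SecC.exists_L`.
-/

set_option autoImplicit false
set_option linter.all false

namespace Pool.Agent.J4H44.FP

open Polynomial

theorem exists_M_aux (Ω : Type) [Field Ω] [Algebra ℚ Ω] [IsAlgClosure ℚ Ω] [IsAlgClosed Ω]
    [IsGalois ℚ Ω]
    (K : Type) [Field K] [NumberField K] (f : K[X]) (hf : f ≠ 0)
    (σ : AlgebraicClosure K ≃ₐ[K] AlgebraicClosure K) :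
    ∃ (L : Type) (_ : Field L) (_ : NumberField L) (_ : IsGalois ℚ L) (i : K →+* L)
      (τ : L ≃ₐ[ℚ] L) (u : L →+* AlgebraicClosure K),
      (∀ x, u (i x) = algebraMap K (AlgebraicClosure K) x) ∧ (∀ x, u (τ x) = σ (u x)) ∧
        (f.map i).Splits := by
  classical
  have : Algebra.IsAlgebraic ℚ (AlgebraicClosure K) := Algebra.IsAlgebraic.trans ℚ K _
  have : IsAlgClosure ℚ (AlgebraicClosure K) := ⟨inferInstance, inferInstance⟩
  let e : AlgebraicClosure K ≃ₐ[ℚ] Ω := IsAlgClosure.equiv ℚ (AlgebraicClosure K) Ω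
  let j : K →ₐ[ℚ] Ω := (e : AlgebraicClosure K →ₐ[ℚ] Ω).comp
    ((Algebra.ofId K (AlgebraicClosure K)).restrictScalars ℚ)
  have hj : ∀ x, j x = e (algebraMap K (AlgebraicClosure K) x) := fun x => rfl
  let τ₀ : Ω ≃ₐ[ℚ] Ω := e.symm.trans ((σ.restrictScalars ℚ).trans e)
  have hτ₀ : ∀ x, τ₀ x = e (σ (e.symm x)) := fun x => rfl
  let b := Module.finBasis ℚ K
  let s : Set Ω := (Set.range fun k => j (b k)) ∪ {θ : Ω | (f.map (j : K →+* Ω)).IsRoot θ}
  have hs : s.Finite := by
    refine (Set.finite_range _).union ?_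
    have h0 : f.map (j : K →+* Ω) ≠ 0 := by
      rwa [Ne, Polynomial.map_eq_zero]
    exact Polynomial.finite_setOfPred_isRoot h0
  have : Finite s := hs
  let LL := FiniteGaloisIntermediateField.adjoin ℚ s
  have hsub : s ⊆ LL.toIntermediateField := FiniteGaloisIntermediateField.subset_adjoin ℚ s
  let L := LL.toIntermediateField
  have hjL : ∀ x, j x ∈ L := by
    intro x
    rw [← b.sum_repr x, map_sum]
    refine sum_mem fun k _ => ?_
    rw [map_smul]
    exact L.smul_mem (hsub (Or.inl ⟨k, rfl⟩))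
  have hEq : (DivisionRing.toRatAlgebra : Algebra ℚ L) = L.algebra' := Subsingleton.elim _ _
  have hga : IsGalois ℚ L := by
    have h := LL.isGalois
    rw [hEq]
    exact h
  have hn : NumberField L :=
    { to_charZero := inferInstance
      to_finiteDimensional := by
        have h := LL.finiteDimensional
        rw [hEq]
        exact h }
  have hnorm : @Normal ℚ L _ _ L.algebra' := by
    have h := LL.isGalois
    exact h.to_normal
  let i : K →+* L := (j : K →+* Ω).codRestrict L hjL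
  have hi : ∀ x, (i x : Ω) = j x := fun x => rfl
  have hic : (algebraMap L Ω).comp i = (j : K →+* Ω) := by
    ext x; rfl
  have hτex : ∃ τ' : L ≃+* L, ∀ x : L, ((τ' x : L) : Ω) = τ₀ x := by
    letI : Algebra ℚ L := L.algebra'
    haveI : Normal ℚ L := hnorm
    exact ⟨(τ₀.restrictNormal L).toRingEquiv, fun x => τ₀.restrictNormal_commutes L x⟩
  obtain ⟨τ', hτ'⟩ := hτex
  let τ : L ≃ₐ[ℚ] L := AlgEquiv.ofRingEquiv (f := τ') (fun r => by
    rw [eq_ratCast, map_ratCast])
  have hτ : ∀ x : L, (τ x : Ω) = τ₀ x := hτ'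
  have hmap : f.map (j : K →+* Ω) = (f.map i).map (algebraMap L Ω) := by
    rw [Polynomial.map_map, hic]
  let u : L →+* AlgebraicClosure K :=
    ((e.symm : Ω →ₐ[ℚ] AlgebraicClosure K) : Ω →+* AlgebraicClosure K).comp (algebraMap L Ω)
  have hu : ∀ x : L, u x = e.symm (x : Ω) := fun x => rfl
  refine ⟨L, inferInstance, inferInstance, inferInstance, i, τ, u, ?_, ?_, ?_⟩
  · intro x
    rw [hu, hi, hj]
    exact e.symm_apply_apply _
  · intro x
    rw [hu, hτ, hτ₀, hu]
    exact e.symm_apply_apply _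
  · have h6 : (f.map (j : K →+* Ω)).Splits := IsAlgClosed.splits _
    rw [hmap] at h6
    refine Splits.of_splits_map (algebraMap L Ω) h6 ?_
    intro θ hθ
    rw [← hmap] at hθ
    have h7 : (f.map (j : K →+* Ω)).IsRoot θ := Polynomial.isRoot_of_mem_roots hθ
    exact ⟨⟨θ, hsub (Or.inr h7)⟩, rfl⟩

theorem exists_M (K : Type) [Field K] [NumberField K] (f : K[X]) (hf : f ≠ 0)
    (σ : AlgebraicClosure K ≃ₐ[K] AlgebraicClosure K) :
    ∃ (L : Type) (_ : Field L) (_ : NumberField L) (_ : IsGalois ℚ L) (i : K →+* L)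
      (τ : L ≃ₐ[ℚ] L) (u : L →+* AlgebraicClosure K),
      (∀ x, u (i x) = algebraMap K (AlgebraicClosure K) x) ∧ (∀ x, u (τ x) = σ (u x)) ∧
        (f.map i).Splits :=
  @exists_M_aux (AlgebraicClosure ℚ) _ (AlgebraicClosure.instAlgebra ℚ) inferInstance inferInstance
    inferInstance K _ _ f hf σ

end Pool.Agent.J4H44.FP
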