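import Pool.Agent.J4H44.FP.Den

/-!
# Elements of the Galois group all of whose cycles have lengths divisible by `ℓ`

(helper44, project FP.)
-/

set_option autoImplicit false
set_option linter.all false

open Polynomial

namespace Pool.Agent.J4H44.FP

section groups

/-- a transitive group has an element without fixed points -/
theorem exists_der {G X : Type} [Group G] [MulAction G X] [Finite G] [Finite X]
    [MulAction.IsPretransitive G X] (h : 2 ≤ Nat.card X) : ∃ g : G, ∀ x : X, g • x ≠ x := by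
  classical
  haveI : Fintype G := Fintype.ofFinite _
  haveI : Fintype X := Fintype.ofFinite _
  by_contra hc
  push Not at hc
  have hfix : ∀ g : G, 1 ≤ Fintype.card (MulAction.fixedBy X g) := by
    intro g
    obtain ⟨x, hx⟩ := hc g
    exact Fintype.card_pos_iff.2 ⟨⟨x, hx⟩⟩
  have hone : 1 < Fintype.card (MulAction.fixedBy X (1 : G)) := by
    have h1 : MulAction.fixedBy X (1 : G) = Set.univ := by
      ext x
      simp [MulAction.mem_fixedBy]
    have h2 : Fintype.card (MulAction.fixedBy X (1 : G)) = Fintype.card X := by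
      rw [← Set.toFinset_card]
      simp only [h1, Set.toFinset_univ, Finset.card_univ]
    rw [h2, ← Nat.card_eq_fintype_card]
    omega
  have hlt : ∑ _g : G, 1 < ∑ g : G, Fintype.card (MulAction.fixedBy X g) :=
    Finset.sum_lt_sum (fun g _ => hfix g) ⟨1, Finset.mem_univ _, hone⟩
  have horb : Fintype.card (MulAction.orbitRel.Quotient G X) ≤ 1 := by
    rw [Fintype.card_le_one_iff_subsingleton]
    exact (MulAction.pretransitive_iff_subsingleton_quotient _ _).1 inferInstance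
  have hB := MulAction.sum_card_fixedBy_eq_card_orbits_mul_card_group G X
  rw [hB, Finset.sum_const, Finset.card_univ, smul_eq_mul, mul_one] at hlt
  have hle : Fintype.card (MulAction.orbitRel.Quotient G X) * Fintype.card G ≤
      1 * Fintype.card G := Nat.mul_le_mul_right _ horb
  rw [one_mul] at hle
  exact absurd hlt (not_lt.2 hle)

/-- a Sylow subgroup acts transitively on a set of `ℓ`-power order -/
theorem sylow_trans {G X : Type} [Group G] [MulAction G X] [Finite G] [Finite X]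
    [MulAction.IsPretransitive G X] {ℓ : ℕ} [Fact ℓ.Prime] {s : ℕ} (hX : Nat.card X = ℓ ^ s)
    (P : Sylow ℓ G) : MulAction.IsPretransitive (P : Subgroup G) X := by
  classical
  have hℓ : ℓ.Prime := Fact.out
  refine ⟨fun x y => ?_⟩
  set H := MulAction.stabilizer G x with hH
  have hHi : H.index = ℓ ^ s := by
    rw [← hX]
    exact MulAction.index_stabilizer_of_transitive G x
  have h1 : (H ⊓ (P : Subgroup G)).relIndex P * (P : Subgroup G).index =
      (H ⊓ (P : Subgroup G)).index := Subgroup.relIndex_mul_index inf_le_right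
  have h2 : (H ⊓ (P : Subgroup G)).relIndex H * H.index =
      (H ⊓ (P : Subgroup G)).index := Subgroup.relIndex_mul_index inf_le_left
  have h3 : ℓ ^ s ∣ H.relIndex (P : Subgroup G) * (P : Subgroup G).index := by
    rw [← Subgroup.inf_relIndex_right, h1, ← h2, hHi]
    exact dvd_mul_left _ _
  have h4 : ℓ ^ s ∣ H.relIndex (P : Subgroup G) := by
    refine Nat.Coprime.dvd_of_dvd_mul_right ?_ h3
    exact Nat.Coprime.pow_left _ ((Nat.Prime.coprime_iff_not_dvd hℓ).2 P.not_dvd_index)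
  have h5 : H.relIndex (P : Subgroup G) = (MulAction.orbit (P : Subgroup G) x).ncard := by
    rw [← MulAction.index_stabilizer]
    rfl
  have h6 : ℓ ^ s ≤ (MulAction.orbit (P : Subgroup G) x).ncard := by
    rw [← h5]
    refine Nat.le_of_dvd (Nat.pos_of_ne_zero ?_) h4
    exact Subgroup.index_ne_zero_of_finite
  have h7 : MulAction.orbit (P : Subgroup G) x = Set.univ := by
    refine Set.eq_of_subset_of_ncard_le (Set.subset_univ _) ?_ (Set.toFinite _)
    rw [Set.ncard_univ, hX]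
    exact h6
  have h8 : y ∈ MulAction.orbit (P : Subgroup G) x := by
    rw [h7]
    trivial
  exact h8

/-- an element all of whose cycles have lengths divisible by `ℓ` -/
theorem exists_ell {G X : Type} [Group G] [MulAction G X] [Finite G] [Finite X]
    [MulAction.IsPretransitive G X] {ℓ : ℕ} [Fact ℓ.Prime] {s : ℕ} (hX : Nat.card X = ℓ ^ s)
    (h2 : 2 ≤ Nat.card X) : ∃ g : G, ∀ (n : ℕ) (x : X), (g ^ n) • x = x → ℓ ∣ n := by
  have hℓ : ℓ.Prime := Fact.out
  obtain ⟨P⟩ : Nonempty (Sylow ℓ G) := inferInstance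
  haveI := sylow_trans hX P
  obtain ⟨g, hg⟩ := exists_der (G := (P : Subgroup G)) (X := X) h2
  refine ⟨(g : G), fun n x hn => ?_⟩
  by_contra hcon
  obtain ⟨j, hj⟩ := P.isPGroup' g
  have hcop : Nat.Coprime n (ℓ ^ j) :=
    Nat.Coprime.pow_right _ (Nat.Coprime.symm ((Nat.Prime.coprime_iff_not_dvd hℓ).2 hcon))
  have hper : Function.IsPeriodicPt (fun y : X => (g : G) • y) n x := by
    rw [Function.IsPeriodicPt, Function.IsFixedPt, smul_iterate]
    exact hn
  have hper2 : Function.IsPeriodicPt (fun y : X => (g : G) • y) (ℓ ^ j) x := by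
    rw [Function.IsPeriodicPt, Function.IsFixedPt, smul_iterate]
    have h3 : ((g : G) ^ (ℓ ^ j)) = 1 := by
      have h4 := congrArg (fun q : (P : Subgroup G) => (q : G)) hj
      simpa using h4
    change (g : G) ^ (ℓ ^ j) • x = x
    rw [h3, one_smul]
  have h5 := hper.gcd hper2
  rw [Nat.Coprime.gcd_eq_one hcop] at h5
  exact hg x h5

end groups

section fields

variable {K : Type} [Field K]

theorem SG_dvd {ℓ r : ℕ} {f : K[X]} {g : Fin r → K[X]} {b : Fin r → K}
    {σ : AlgebraicClosure K ≃ₐ[K] AlgebraicClosure K}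
    (h : ∀ n : ℕ, ∀ z ∈ ZZ ℓ f g b, (σ ^ n) z.1 = z.1 → (∀ i, (σ ^ n) (z.2 i) = z.2 i) → ℓ ∣ n) :
    ∀ d ∈ SG ℓ f g b σ, ℓ ∣ d := by
  have h1 : SG ℓ f g b σ ≤ AddSubmonoid.multiples ℓ := by
    rw [SG, AddSubmonoid.closure_le]
    rintro n (hn | ⟨z, hz, h1, h2⟩)
    · rw [Set.mem_singleton_iff] at hn
      rw [hn]
      exact AddSubmonoid.mem_multiples ℓ
    · obtain ⟨m, rfl⟩ := h n z hz h1 h2
      refine (AddSubmonoid.mem_multiples_iff _ _).2 ⟨m, ?_⟩
      rw [smul_eq_mul, mul_comm]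
  intro d hd
  obtain ⟨m, rfl⟩ := (AddSubmonoid.mem_multiples_iff _ _).1 (h1 hd)
  rw [smul_eq_mul]
  exact dvd_mul_left _ _

/-- irreducible polynomials of `ℓ`-power degree -/
theorem exists_irr [CharZero K] {ℓ : ℕ} (hℓ : ℓ.Prime) (f : K[X]) (hf : Irreducible f) {s : ℕ}
    (hs : f.natDegree = ℓ ^ s) (h2 : 2 ≤ f.natDegree) :
    ∃ σ : AlgebraicClosure K ≃ₐ[K] AlgebraicClosure K, ∀ (n : ℕ) (θ : AlgebraicClosure K),
      aeval θ f = 0 → (σ ^ n) θ = θ → ℓ ∣ n := by
  classical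
  haveI : Fact ℓ.Prime := ⟨hℓ⟩
  have hsp : Fact ((f.map (algebraMap K (AlgebraicClosure K))).Splits) := ⟨IsAlgClosed.splits _⟩
  have htr : MulAction.IsPretransitive f.Gal (f.rootSet (AlgebraicClosure K)) :=
    Polynomial.Gal.galAction_isPretransitive f (AlgebraicClosure K) hf
  have hcard : Nat.card (f.rootSet (AlgebraicClosure K)) = f.natDegree := by
    rw [Nat.card_eq_fintype_card]
    exact card_rootSet_eq_natDegree hf.separable hsp.out
  obtain ⟨g, hg⟩ := exists_ell (G := f.Gal) (X := f.rootSet (AlgebraicClosure K)) (ℓ := ℓ)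
    (s := s) (by rw [hcard, hs]) (by rw [hcard]; exact h2)
  obtain ⟨σ, hσ⟩ := Polynomial.Gal.restrict_surjective f (AlgebraicClosure K) g
  refine ⟨σ, fun n θ hθ hn => ?_⟩
  have hmem : θ ∈ f.rootSet (AlgebraicClosure K) := by
    rw [mem_rootSet]
    exact ⟨hf.ne_zero, hθ⟩
  refine hg n ⟨θ, hmem⟩ ?_
  apply Subtype.ext
  rw [← hσ, ← map_pow, Polynomial.Gal.restrict_smul]
  exact hn

/-- Kummer theory: all `b` outside finitely many classes modulo `ℓ`-th powers -/
theorem exists_classes [CharZero K] {ℓ : ℕ} (hℓ : ℓ.Prime) (f g : K[X])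
    (hs : (f * g).Separable) :
    ∃ Γ : Set K, Γ.Finite ∧ ∀ b : K, b ≠ 0 → (∀ γ ∈ Γ, ∀ c : K, b ≠ γ * c ^ ℓ) →
      ∃ σ : AlgebraicClosure K ≃ₐ[K] AlgebraicClosure K, ∀ (n : ℕ) (e c : AlgebraicClosure K),
        aeval e f = 0 → algebraMap K (AlgebraicClosure K) b * c ^ ℓ = aeval e g →
        (σ ^ n) e = e → (σ ^ n) c = c → ℓ ∣ n := by
  classical
  set Ω := AlgebraicClosure K with hΩ
  have hf0 : f ≠ 0 := fun h => hs.ne_zero (by rw [h, zero_mul])
  -- the finite set of generators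
  set s : Set Ω := {ζ | ζ ^ ℓ = 1} ∪ {c | ∃ e : Ω, aeval e f = 0 ∧ c ^ ℓ = aeval e g} with hsdef
  have hμfin : {ζ : Ω | ζ ^ ℓ = 1}.Finite := by
    have h3 : (X ^ ℓ - C 1 : Polynomial Ω) ≠ 0 := X_pow_sub_C_ne_zero hℓ.pos _
    refine Set.Finite.subset (Polynomial.finite_setOfPred_isRoot h3) ?_
    intro ζ hζ
    change (X ^ ℓ - C 1 : Polynomial Ω).IsRoot ζ
    rw [IsRoot.def, eval_sub, eval_pow, eval_X, eval_C, sub_eq_zero]
    exact hζ
  have hsfin : s.Finite := by
    refine hμfin.union (((ZZ_finite (r := 1) hℓ.pos f (fun _ => g) hf0 (fun _ => 1)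
      (fun _ => one_ne_zero)).image (fun z => z.2 0)).subset ?_)
    rintro c ⟨e, he, hc⟩
    refine ⟨(e, fun _ => c), ⟨he, fun _ => ?_⟩, rfl⟩
    change algebraMap K Ω 1 * c ^ ℓ = aeval e g
    rw [map_one, one_mul, hc]
  haveI : Finite s := hsfin
  haveI : IsGalois K Ω := inferInstance
  set NN := FiniteGaloisIntermediateField.adjoin K s with hNN
  set N : IntermediateField K Ω := NN.toIntermediateField with hN
  have hsub : s ⊆ (N : Set Ω) := FiniteGaloisIntermediateField.subset_adjoin K s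
  haveI : FiniteDimensional K N := NN.finiteDimensional
  haveI : IsGalois K N := NN.isGalois
  haveI : Finite (N ≃ₐ[K] N) := inferInstance
  -- the cocycles
  let B : Type := {β : N // β ≠ 0 ∧ ∃ c : K, algebraMap K N c = β ^ ℓ}
  have hcoc : ∀ (β : B) (τ : N ≃ₐ[K] N), ((τ β.1 / β.1 : N) : Ω) ^ ℓ = 1 := by
    rintro ⟨β, hβ0, c, hc⟩ τ
    have h1 : (τ β / β) ^ ℓ = 1 := by
      rw [div_pow, ← map_pow, ← hc, AlgEquiv.commutes, div_self]
      rw [hc]
      exact pow_ne_zero _ hβ0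
    have h2 := congrArg (fun q : N => (q : Ω)) h1
    simpa using h2
  let Φ : B → ((N ≃ₐ[K] N) → {ζ : Ω // ζ ^ ℓ = 1}) := fun β τ => ⟨_, hcoc β τ⟩
  haveI : Finite {ζ : Ω // ζ ^ ℓ = 1} := hμfin
  haveI : Finite ((N ≃ₐ[K] N) → {ζ : Ω // ζ ^ ℓ = 1}) := inferInstance
  have hrep : ∀ φ : ((N ≃ₐ[K] N) → {ζ : Ω // ζ ^ ℓ = 1}), ∃ γ : K,
      (∃ β, Φ β = φ) → ∃ β : B, Φ β = φ ∧ algebraMap K N γ = β.1 ^ ℓ := by
    intro φ
    by_cases h : ∃ β, Φ β = φ
    · obtain ⟨β, hβ⟩ := h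
      obtain ⟨c, hc⟩ := β.2.2
      exact ⟨c, fun _ => ⟨β, hβ, hc⟩⟩
    · exact ⟨0, fun h' => absurd h' h⟩
  choose γ hγ using hrep
  refine ⟨Set.range γ, Set.finite_range γ, ?_⟩
  intro b hb hbγ
  obtain ⟨β, hβ⟩ : ∃ β : Ω, β ^ ℓ = algebraMap K Ω b :=
    IsAlgClosed.exists_pow_nat_eq _ hℓ.pos
  have hbΩ : algebraMap K Ω b ≠ 0 := (_root_.map_ne_zero _).2 hb
  have hβ0 : β ≠ 0 := by
    rintro rfl
    rw [zero_pow hℓ.ne_zero] at hβ
    exact hbΩ hβ.symm
  have hβN : β ∉ N := by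
    intro hβN
    let β₁ : B := ⟨⟨β, hβN⟩, fun h => hβ0 (congrArg Subtype.val h), b, by
      apply Subtype.ext
      exact hβ.symm⟩
    obtain ⟨β₂, h1, h2⟩ := hγ (Φ β₁) ⟨β₁, rfl⟩
    have h3 : ∀ τ : N ≃ₐ[K] N, τ (β₁.1 / β₂.1) = β₁.1 / β₂.1 := by
      intro τ
      have h4 := congrArg (fun q => ((q τ : {ζ : Ω // ζ ^ ℓ = 1}) : Ω)) h1
      have h5 : (τ β₂.1 / β₂.1 : N) = τ β₁.1 / β₁.1 := Subtype.ext h4
      have h6 := β₁.2.1
      have h7 := β₂.2.1
      have h8 : τ β₂.1 ≠ 0 := (_root_.map_ne_zero _).2 h7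
      rw [div_eq_div_iff h7 h6] at h5
      rw [map_div₀, div_eq_div_iff h8 h7]
      linear_combination -h5
    have h4 : (β₁.1 / β₂.1 : N) ∈ Set.range (algebraMap K N) :=
      (IsGalois.mem_range_algebraMap_iff_fixed (F := K) (E := N) _).2 h3
    obtain ⟨c, hc⟩ := h4
    refine hbγ (γ (Φ β₁)) (Set.mem_range_self _) c ?_
    apply (algebraMap K N).injective
    rw [map_mul, map_pow, h2, hc, div_pow, mul_div_cancel₀]
    · apply Subtype.ext
      exact hβ.symm
    · exact pow_ne_zero _ β₂.2.1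
  -- an automorphism that moves `β`
  obtain ⟨σ, hσN, hσβ⟩ : ∃ σ : Ω ≃ₐ[K] Ω, (∀ x ∈ N, σ x = x) ∧ σ β ≠ β := by
    by_contra hcon
    push Not at hcon
    apply hβN
    have h1 : β ∈ IntermediateField.fixedField N.fixingSubgroup := by
      rw [IntermediateField.mem_fixedField_iff]
      intro σ hσ
      exact hcon σ fun x hx => (IntermediateField.mem_fixingSubgroup_iff N σ).1 hσ x hx
    rwa [InfiniteGalois.fixedField_fixingSubgroup] at h1
  refine ⟨σ, fun n e c he hc h1 h2 => ?_⟩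
  have hμN : ∀ ζ : Ω, ζ ^ ℓ = 1 → σ ζ = ζ := fun ζ hζ => hσN ζ (hsub (Or.inl hζ))
  have hcN : σ (β * c) = β * c := by
    refine hσN _ (hsub (Or.inr ⟨e, he, ?_⟩))
    rw [mul_pow, hβ]
    exact hc
  have hz0 : c ≠ 0 := by
    intro h0
    have h3 := hc
    rw [h0, zero_pow hℓ.ne_zero, mul_zero] at h3
    obtain ⟨u, v, huv⟩ := hs.isCoprime
    have h4 := congrArg (aeval e) huv
    rw [map_add, map_mul, map_mul, he, ← h3, mul_zero, mul_zero, add_zero, map_one] at h4
    exact zero_ne_one h4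
  set ζ := σ β / β with hζ
  have hζ1 : ζ ^ ℓ = 1 := by
    rw [hζ, div_pow, ← map_pow, hβ, AlgEquiv.commutes, div_self hbΩ]
  have hσζ : σ β = ζ * β := by
    rw [hζ, div_mul_cancel₀ _ hβ0]
  have hpow : ∀ m : ℕ, (σ ^ m) β = ζ ^ m * β := by
    intro m
    induction m with
    | zero => rw [pow_zero, pow_zero, one_mul]; rfl
    | succ m ih =>
      rw [pow_succ', AlgEquiv.mul_apply, ih, map_mul, map_pow, hμN ζ hζ1, hσζ]
      ring
  have hcN' : ∀ m : ℕ, (σ ^ m) (β * c) = β * c := by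
    intro m
    induction m with
    | zero => rfl
    | succ m ih => rw [pow_succ', AlgEquiv.mul_apply, ih, hcN]
  have h3 := hcN' n
  rw [map_mul, h2, hpow] at h3
  have h4 : ζ ^ n = 1 := by
    have h5 : ζ ^ n * (β * c) = 1 * (β * c) := by
      rw [one_mul]
      linear_combination h3
    exact mul_right_cancel₀ (mul_ne_zero hβ0 hz0) h5
  have hζne : ζ ≠ 1 := by
    intro h5
    rw [h5, one_mul] at hσζ
    exact hσβ hσζ
  haveI : Fact ℓ.Prime := ⟨hℓ⟩
  have h5 : orderOf ζ = ℓ := orderOf_eq_prime hζ1 hζne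
  rw [← h5]
  exact orderOf_dvd_of_pow_eq_one h4

end fields

end Pool.Agent.J4H44.FP
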