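import Pool.Agent.J4H44.FP.NumA

/-!
# The polynomial with the roots `e + ∑ t i c i`

(helper44, project FP.)
-/

set_option autoImplicit false
set_option linter.all false

open Polynomial

namespace Pool.Agent.J4H44.FP

/-- the tuples `(e, c)` with `f(e) = 0`, `b i (c i)^ℓ = g i (e)` -/
def ZZ (ℓ : ℕ) {K : Type} [Field K] {r : ℕ} (f : K[X]) (g : Fin r → K[X]) (b : Fin r → K) :
    Set (AlgebraicClosure K × (Fin r → AlgebraicClosure K)) :=
  {z | aeval z.1 f = 0 ∧
    ∀ i, algebraMap K (AlgebraicClosure K) (b i) * z.2 i ^ ℓ = aeval z.1 (g i)}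

theorem ZZ_finite {ℓ : ℕ} (hℓ : 0 < ℓ) {K : Type} [Field K] {r : ℕ} (f : K[X])
    (g : Fin r → K[X]) (hf : f ≠ 0) (b : Fin r → K) (hb : ∀ i, b i ≠ 0) :
    (ZZ ℓ f g b).Finite := by
  classical
  have hinj := (algebraMap K (AlgebraicClosure K)).injective
  have h1 : {e : AlgebraicClosure K | aeval e f = 0}.Finite := by
    refine Set.Finite.subset (Polynomial.finite_setOfPred_isRoot
      ((Polynomial.map_ne_zero_iff hinj).2 hf)) ?_
    intro e he
    change (f.map (algebraMap K (AlgebraicClosure K))).IsRoot e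
    rw [IsRoot.def, eval_map_algebraMap]
    exact he
  have h2 : ∀ (e : AlgebraicClosure K) (i : Fin r),
      {c : AlgebraicClosure K | algebraMap K (AlgebraicClosure K) (b i) * c ^ ℓ =
        aeval e (g i)}.Finite := by
    intro e i
    have hb0 : algebraMap K (AlgebraicClosure K) (b i) ≠ 0 := (_root_.map_ne_zero _).2 (hb i)
    have h3 : (C (algebraMap K (AlgebraicClosure K) (b i)) * X ^ ℓ - C (aeval e (g i)) :
        (AlgebraicClosure K)[X]) ≠ 0 := by
      intro h0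
      have h4 := congrArg (fun q => q.coeff ℓ) h0
      simp only [coeff_sub, coeff_C_mul, coeff_X_pow_self, mul_one, coeff_C, hℓ.ne',
        if_false, sub_zero, coeff_zero] at h4
      exact hb0 h4
    refine Set.Finite.subset (Polynomial.finite_setOfPred_isRoot h3) ?_
    intro c hc
    change (C (algebraMap K (AlgebraicClosure K) (b i)) * X ^ ℓ - C (aeval e (g i)) :
      (AlgebraicClosure K)[X]).IsRoot c
    rw [IsRoot.def, eval_sub, eval_mul, eval_C, eval_pow, eval_X, eval_C, sub_eq_zero]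
    exact hc
  refine Set.Finite.subset (h1.biUnion fun e _ => (Set.Finite.pi fun i => h2 e i).image
    fun c => (e, c)) ?_
  rintro ⟨e, c⟩ ⟨he, hc⟩
  exact Set.mem_biUnion he ⟨c, fun i _ => hc i, rfl⟩

/-- a good parameter -/
theorem exists_t {Ω : Type} [Field Ω] [CharZero Ω] {r : ℕ} (Z : Set (Ω × (Fin r → Ω)))
    (hZ : Z.Finite) :
    ∃ n : ℕ, Set.InjOn (fun z : Ω × (Fin r → Ω) => z.1 + ∑ i : Fin r, (n : Ω) ^ ((i : ℕ) + 1) * z.2 i) Z := by
  classical
  have h1 : ∀ q : (Ω × (Fin r → Ω)) × (Ω × (Fin r → Ω)), q.1 ≠ q.2 →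
      {n : ℕ | q.1.1 + ∑ i : Fin r, (n : Ω) ^ ((i : ℕ) + 1) * q.1.2 i =
        q.2.1 + ∑ i : Fin r, (n : Ω) ^ ((i : ℕ) + 1) * q.2.2 i}.Finite := by
    intro q hq
    set P : Polynomial Ω := C (q.1.1 - q.2.1) +
      ∑ i : Fin r, C (q.1.2 i - q.2.2 i) * X ^ ((i : ℕ) + 1) with hP
    have hP0 : P ≠ 0 := by
      intro h0
      apply hq
      have hc0 : q.1.1 = q.2.1 := by
        have h2 := congrArg (fun p => p.coeff 0) h0
        simp only [hP, coeff_add, coeff_C_zero, finset_sum_coeff, coeff_C_mul, coeff_X_pow,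
          coeff_zero] at h2
        have h3 : ∑ i : Fin r, (q.1.2 i - q.2.2 i) * (if (0 : ℕ) = (i : ℕ) + 1 then (1 : Ω) else 0)
            = 0 := Finset.sum_eq_zero fun i _ => by
          rw [if_neg (by omega), mul_zero]
        rw [h3, add_zero] at h2
        exact sub_eq_zero.1 h2
      refine Prod.ext hc0 (funext fun i => ?_)
      have h2 := congrArg (fun p => p.coeff ((i : ℕ) + 1)) h0
      simp only [hP, coeff_add, finset_sum_coeff, coeff_C_mul, coeff_X_pow,
        coeff_zero] at h2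
      rw [coeff_C_ne_zero (by omega), zero_add, Finset.sum_eq_single i] at h2
      · rw [if_pos rfl, mul_one] at h2
        exact sub_eq_zero.1 h2
      · intro j _ hji
        rw [if_neg, mul_zero]
        intro h3
        apply hji
        apply Fin.ext
        omega
      · intro h3
        exact absurd (Finset.mem_univ _) h3
    refine Set.Finite.subset (Set.Finite.preimage (f := fun n : ℕ => (n : Ω))
      (Nat.cast_injective.injOn) (Polynomial.finite_setOfPred_isRoot hP0)) ?_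
    intro n hn
    change P.IsRoot (n : Ω)
    rw [IsRoot.def, hP, eval_add, eval_C, eval_finset_sum]
    simp only [eval_mul, eval_C, eval_pow, eval_X]
    have h2 : q.1.1 + ∑ i : Fin r, (n : Ω) ^ ((i : ℕ) + 1) * q.1.2 i =
        q.2.1 + ∑ i : Fin r, (n : Ω) ^ ((i : ℕ) + 1) * q.2.2 i := hn
    have h3 : ∑ i : Fin r, (q.1.2 i - q.2.2 i) * (n : Ω) ^ ((i : ℕ) + 1) =
        ∑ i : Fin r, (n : Ω) ^ ((i : ℕ) + 1) * q.1.2 i - ∑ i : Fin r, (n : Ω) ^ ((i : ℕ) + 1) * q.2.2 i := by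
      rw [← Finset.sum_sub_distrib]
      exact Finset.sum_congr rfl fun i _ => by ring
    rw [h3]
    linear_combination h2
  have h2 : (⋃ q ∈ (Z ×ˢ Z) ∩ {q | q.1 ≠ q.2},
      {n : ℕ | q.1.1 + ∑ i : Fin r, (n : Ω) ^ ((i : ℕ) + 1) * q.1.2 i =
        q.2.1 + ∑ i : Fin r, (n : Ω) ^ ((i : ℕ) + 1) * q.2.2 i}).Finite := by
    refine Set.Finite.biUnion ((hZ.prod hZ).inter_of_left _) ?_
    intro q hq
    exact h1 q hq.2
  obtain ⟨n, hn⟩ := h2.infinite_compl.nonempty
  refine ⟨n, ?_⟩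
  intro z hz z' hz' h
  by_contra hne
  apply hn
  refine Set.mem_biUnion (show ((z, z') : (Ω × (Fin r → Ω)) × (Ω × (Fin r → Ω))) ∈
    (Z ×ˢ Z) ∩ {q | q.1 ≠ q.2} from ⟨⟨hz, hz'⟩, hne⟩) ?_
  exact h

theorem ZZ_gal {ℓ : ℕ} {K : Type} [Field K] {r : ℕ} {f : K[X]} {g : Fin r → K[X]} {b : Fin r → K}
    (ρ : AlgebraicClosure K ≃ₐ[K] AlgebraicClosure K)
    {z : AlgebraicClosure K × (Fin r → AlgebraicClosure K)}
    (hz : z ∈ ZZ ℓ f g b) : (ρ z.1, fun i => ρ (z.2 i)) ∈ ZZ ℓ f g b := by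
  have haev : ∀ (p : K[X]) (e : AlgebraicClosure K), aeval (ρ e) p = ρ (aeval e p) := fun p e =>
    (aeval_algHom_apply (ρ : AlgebraicClosure K →ₐ[K] AlgebraicClosure K) e p)
  refine ⟨?_, fun i => ?_⟩
  · change aeval (ρ z.1) f = 0
    rw [haev, hz.1, map_zero]
  · change algebraMap K (AlgebraicClosure K) (b i) * (ρ (z.2 i)) ^ ℓ = aeval (ρ z.1) (g i)
    rw [haev, ← hz.2 i, map_mul, map_pow, AlgEquiv.commutes]

theorem exists_H {K : Type} [Field K] [CharZero K] {ℓ : ℕ} (hℓ : 0 < ℓ) {r : ℕ} (f : K[X])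
    (g : Fin r → K[X]) (hf : f ≠ 0) (b : Fin r → K) (hb : ∀ i, b i ≠ 0) :
    ∃ (H : K[X]) (t₀ : Fin r → K), H ≠ 0 ∧ Van ℓ b t₀ f g H ∧
      ∀ (ρ : AlgebraicClosure K ≃ₐ[K] AlgebraicClosure K) (θ : AlgebraicClosure K),
        aeval θ H = 0 → ρ θ = θ → ∃ z ∈ ZZ ℓ f g b, ρ z.1 = z.1 ∧ ∀ i, ρ (z.2 i) = z.2 i := by
  classical
  have hfin := ZZ_finite hℓ f g hf b hb
  haveI : CharZero (AlgebraicClosure K) :=
    charZero_of_injective_algebraMap (algebraMap K (AlgebraicClosure K)).injective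
  obtain ⟨n, hn⟩ := exists_t (ZZ ℓ f g b) hfin
  set lin : AlgebraicClosure K × (Fin r → AlgebraicClosure K) → AlgebraicClosure K :=
    fun z => z.1 + ∑ i : Fin r, (n : AlgebraicClosure K) ^ ((i : ℕ) + 1) * z.2 i with hlin
  set H : K[X] := ∏ z ∈ hfin.toFinset, minpoly K (lin z) with hH
  have halg : ∀ x : AlgebraicClosure K, IsIntegral K x := fun x =>
    (Algebra.IsAlgebraic.isAlgebraic x).isIntegral
  have hlinρ : ∀ (ρ : AlgebraicClosure K ≃ₐ[K] AlgebraicClosure K)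
      (z : AlgebraicClosure K × (Fin r → AlgebraicClosure K)),
      ρ (lin z) = lin (ρ z.1, fun i => ρ (z.2 i)) := by
    intro ρ z
    simp only [hlin, map_add, map_sum, map_mul, map_pow, map_natCast]
  refine ⟨H, fun i => (n : K) ^ ((i : ℕ) + 1), ?_, ?_, ?_⟩
  · rw [hH]
    exact Finset.prod_ne_zero_iff.2 fun z _ => minpoly.ne_zero (halg _)
  · intro κ _ _ _ e c he hc
    let u : κ →ₐ[K] AlgebraicClosure K := IsAlgClosed.lift
    refine (_root_.map_eq_zero u).1 ?_
    rw [← aeval_algHom_apply]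
    have h1 : (u e, fun i => u (c i)) ∈ ZZ ℓ f g b := by
      refine ⟨?_, fun i => ?_⟩
      · change aeval (u e) f = 0
        rw [aeval_algHom_apply, he, map_zero]
      · change algebraMap K (AlgebraicClosure K) (b i) * (u (c i)) ^ ℓ = aeval (u e) (g i)
        rw [aeval_algHom_apply, ← hc i, map_mul, map_pow, AlgHom.commutes]
    have h2 : u (e + ∑ i : Fin r, algebraMap K κ ((n : K) ^ ((i : ℕ) + 1)) * c i) =
        lin (u e, fun i => u (c i)) := by
      simp only [hlin, map_add, map_sum, map_mul, map_pow, map_natCast]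
    rw [h2, hH, map_prod]
    refine Finset.prod_eq_zero (hfin.mem_toFinset.2 h1) ?_
    exact minpoly.aeval K _
  · intro ρ θ hθ hρ
    rw [hH, map_prod, Finset.prod_eq_zero_iff] at hθ
    obtain ⟨z, hz, hzθ⟩ := hθ
    have hz' := hfin.mem_toFinset.1 hz
    obtain ⟨τ, hτ⟩ := minpoly.exists_algEquiv_of_root'
      (Algebra.IsAlgebraic.isAlgebraic (lin z)) hzθ
    have h1 := ZZ_gal τ hz'
    have h2 := ZZ_gal ρ h1
    have h3 : θ = lin (τ z.1, fun i => τ (z.2 i)) := by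
      rw [← hτ, hlinρ]
    have h4 := hρ
    rw [h3, hlinρ] at h4
    have h5 := hn h2 h1 h4
    refine ⟨_, h1, congrArg Prod.fst h5, fun i => ?_⟩
    exact congrFun (congrArg Prod.snd h5) i

end Pool.Agent.J4H44.FP
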