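import Pool.Agent.J4H44.FP.Rts
import Pool.Agent.Y157.PS.Sup

/-!
# The local theorem for the curves `a y^ℓ = f(x)`, `b z^ℓ = g(x)`

(helper44, project FP.)
-/

set_option autoImplicit false
set_option linter.all false

open Polynomial FF

namespace Pool.Agent.J4H44.FP

open Pool.Agent.Y157.PS

/-- an element of a valuation ring is determined by a power -/
theorem mem_of_pow {N : Type} [Field N] (W : ValuationSubring N) {z : N} {n : ℕ} (hn : 0 < n)
    (h : z ^ n ∈ W) : z ∈ W := by
  by_contra hz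
  have h1 : z⁻¹ ∈ W := (W.mem_or_inv_mem z).resolve_left hz
  have hz0 : z ≠ 0 := by
    rintro rfl
    exact hz (zero_mem _)
  apply hz
  have h2 : z = z ^ n * (z⁻¹) ^ (n - 1) := by
    obtain ⟨m, rfl⟩ := Nat.exists_eq_succ_of_ne_zero hn.ne'
    rw [Nat.succ_sub_one, pow_succ', inv_pow]
    field_simp
  rw [h2]
  exact mul_mem h (pow_mem h1 _)

/-- congruent elements have congruent values -/
theorem eval_congr {N : Type} [Field N] (W : ValuationSubring N) {R : Type} [CommRing R]
    (ι : R →+* N) (hk : ∀ c : R, ι c ∈ W) (g : R[X]) (x e : N) (hx : x ∈ W) (he : e ∈ W)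
    (h : x - e ∈ W.nonunits) : g.eval₂ ι x - g.eval₂ ι e ∈ W.nonunits ∧ g.eval₂ ι x ∈ W := by
  let i : R →+* W := ι.codRestrict W.toSubring hk
  have hi : W.subtype.comp i = ι := rfl
  have hval : ∀ z : W, g.eval₂ ι (z : N) = ((g.map i).eval z : W) := by
    intro z
    have h1 : W.subtype ((g.map i).eval z) = eval₂ (W.subtype.comp i) (W.subtype z) g := by
      rw [eval_map, hom_eval₂]
    rw [hi] at h1
    exact h1.symm
  have h2 := hval ⟨x, hx⟩
  have h3 := hval ⟨e, he⟩
  simp only at h2 h3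
  refine ⟨?_, by rw [h2]; exact ((g.map i).eval _).2⟩
  obtain ⟨q, hq⟩ := Polynomial.sub_dvd_eval_sub (⟨x, hx⟩ : W) ⟨e, he⟩ (g.map i)
  have h4 : g.eval₂ ι x - g.eval₂ ι e = (x - e) * (q : N) := by
    rw [h2, h3]
    exact congrArg Subtype.val hq
  rw [h4, mul_comm]
  exact non_mul q.2 h

theorem pow_congr {N : Type} [Field N] (W : ValuationSubring N) (x e : N) (hx : x ∈ W) (he : e ∈ W)
    (h : x - e ∈ W.nonunits) (n : ℕ) : x ^ n - e ^ n ∈ W.nonunits := by
  obtain ⟨q, hq⟩ := sub_dvd_pow_sub_pow (⟨x, hx⟩ : W) ⟨e, he⟩ n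
  have h4 : x ^ n - e ^ n = (x - e) * (q : N) := congrArg Subtype.val hq
  rw [h4, mul_comm]
  exact non_mul q.2 h

section consts

variable {k F Ω : Type} [Field k] [Field F] [Field Ω] [Algebra k F] [Algebra F Ω] [Algebra k Ω]
  [IsScalarTower k F Ω]

/-- constants in the residue field of the fixed elements are fixed -/
theorem res_fixedX (N : IntermediateField F Ω) (W : ValuationSubring N)
    (hW : ∀ c : k, algebraMap F N (algebraMap k F c) ∈ W)
    (σ : algebraicClosure k Ω ≃ₐ[k] algebraicClosure k Ω) (τ : N ≃ₐ[F] N)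
    (hτ : ∀ z, τ z ∈ W ↔ z ∈ W)
    (hστ : ∀ (c : algebraicClosure k Ω) (z : N), (z : Ω) = (c : Ω) → (τ z : Ω) = (σ c : Ω))
    (z : N) (hz : τ z = z) (c : algebraicClosure k Ω) (z' : N) (hz' : z' ∈ W.nonunits)
    (hzc : (z' : Ω) = (z : Ω) - (c : Ω)) : σ c = c := by
  have h1 : τ z' ∈ W.nonunits := (stable_non (τ := (τ : N ≃+* N)) hτ z').2 hz'
  have h2 := non_sub hz' h1
  set cN : N := z - z' with hcN
  have h3 : (cN : Ω) = (c : Ω) := by
    change (z : Ω) - (z' : Ω) = _
    rw [hzc]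
    ring
  have h4 : τ z' = z - τ cN := by
    have h5 : z' = z - cN := by rw [hcN]; ring
    conv_lhs => rw [h5]
    rw [map_sub, hz]
  have h6 : ((z' - τ z' : N) : Ω) = ((σ c - c : algebraicClosure k Ω) : Ω) := by
    rw [h4]
    change (z' : Ω) - ((z : Ω) - (τ cN : Ω)) = (σ c : Ω) - (c : Ω)
    rw [hστ c cN h3, hzc]
    ring
  exact sub_eq_zero.1 (const_non_N N W hW _ _ h6 h2)

/-- the value of a root of a polynomial in `x` at a place above `e` -/
theorem value_root {ℓ : ℕ} (hℓ : 0 < ℓ) (N : IntermediateField F Ω)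
    (hN : ∀ c : algebraicClosure k Ω, (c : Ω) ∈ N) (W : ValuationSubring N)
    (hW : ∀ c : k, algebraMap F N (algebraMap k F c) ∈ W)
    (hres : ∀ z ∈ W, ∃ c : algebraicClosure k Ω, ∃ z' ∈ W.nonunits, (z' : Ω) = (z : Ω) - c)
    (x : F) (e : algebraicClosure k Ω) (z' : N) (hz' : z' ∈ W.nonunits)
    (hx : (z' : Ω) = algebraMap F Ω x - (e : Ω)) (g : k[X]) (b : k) (hb : b ≠ 0) (Z : N)
    (hZ : algebraMap k Ω b * (Z : Ω) ^ ℓ = aeval (algebraMap F Ω x) g) :
    ∃ c : algebraicClosure k Ω, (∃ z' ∈ W.nonunits, (z' : Ω) = (Z : Ω) - c) ∧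
      algebraMap k (algebraicClosure k Ω) b * c ^ ℓ = aeval e g := by
  letI : Algebra k N := ((algebraMap F N).comp (algebraMap k F)).toAlgebra
  have hkN : ∀ c : k, algebraMap k N c = algebraMap F N (algebraMap k F c) := fun _ => rfl
  have hNΩ : ∀ c : k, ((algebraMap k N c : N) : Ω) = algebraMap k Ω c := fun c =>
    (IsScalarTower.algebraMap_apply k F Ω c).symm
  haveI : IsScalarTower k N Ω := IsScalarTower.of_algebraMap_eq fun c => (hNΩ c).symm
  have hkW : ∀ c : k, algebraMap k N c ∈ W := hW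
  let cN : algebraicClosure k Ω → N := fun c => ⟨(c : Ω), hN c⟩
  have hcW : ∀ c, cN c ∈ W := fun c => const_mem_N N W hW c _ rfl
  set xN : N := algebraMap F N x with hxN
  have hxN' : (xN : Ω) = algebraMap F Ω x := rfl
  have h1 : xN - cN e = z' := by
    apply Subtype.ext
    rw [hx]
    rfl
  have hxW : xN ∈ W := by
    have : xN = z' + cN e := by rw [← h1]; ring
    rw [this]
    exact add_mem (non_mem hz') (hcW e)
  have h2 := eval_congr W (algebraMap k N) hkW g xN (cN e) hxW (hcW e) (by rw [h1]; exact hz')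
  rw [← aeval_def, ← aeval_def] at h2
  have hZ' : algebraMap k N b * Z ^ ℓ = aeval xN g := by
    apply (algebraMap N Ω).injective
    rw [map_mul, map_pow, ← aeval_algebraMap_apply]
    change ((algebraMap k N b : N) : Ω) * (Z : Ω) ^ ℓ = _
    rw [hNΩ, hZ]
    rfl
  have hbN : algebraMap k N b ≠ 0 := (_root_.map_ne_zero _).2 hb
  have hZW : Z ∈ W := by
    refine mem_of_pow W hℓ ?_
    have h3 : Z ^ ℓ = algebraMap k N b⁻¹ * aeval xN g := by
      rw [← hZ', map_inv₀, inv_mul_cancel_left₀ hbN]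
    rw [h3]
    exact mul_mem (hkW _) h2.2
  obtain ⟨c, z'', hz'', hzc⟩ := hres Z hZW
  refine ⟨c, ⟨z'', hz'', hzc⟩, ?_⟩
  have h4 : Z - cN c = z'' := by
    apply Subtype.ext
    rw [hzc]
    rfl
  have h5 := pow_congr W Z (cN c) hZW (hcW c) (by rw [h4]; exact hz'') ℓ
  have h6 : aeval xN g - aeval (cN e) g - algebraMap k N b * (Z ^ ℓ - cN c ^ ℓ) ∈ W.nonunits :=
    non_sub h2.1 (non_mul (hkW b) h5)
  have h7 : aeval xN g - aeval (cN e) g - algebraMap k N b * (Z ^ ℓ - cN c ^ ℓ) =
      algebraMap k N b * cN c ^ ℓ - aeval (cN e) g := by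
    rw [← hZ']
    ring
  rw [h7] at h6
  have h8 := const_non_N N W hW (algebraMap k (algebraicClosure k Ω) b * c ^ ℓ - aeval e g) _ (by
    have e1 : ((aeval (cN e) g : N) : Ω) = ((aeval e g : algebraicClosure k Ω) : Ω) := by
      have e2 : algebraMap N Ω (aeval (cN e) g) = aeval (e : Ω) g := by
        rw [← aeval_algebraMap_apply]
        rfl
      have e3 : algebraMap (algebraicClosure k Ω) Ω (aeval e g) = aeval (e : Ω) g := by
        rw [← aeval_algebraMap_apply]
        rfl
      exact e2.trans e3.symm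
    have e4 : ((algebraMap k N b : N) : Ω) =
        ((algebraMap k (algebraicClosure k Ω) b : algebraicClosure k Ω) : Ω) := by
      rw [hNΩ]
      exact IsScalarTower.algebraMap_apply k (algebraicClosure k Ω) Ω b
    change ((algebraMap k N b : N) : Ω) * (c : Ω) ^ ℓ - ((aeval (cN e) g : N) : Ω) =
      ((algebraMap k (algebraicClosure k Ω) b : algebraicClosure k Ω) : Ω) * (c : Ω) ^ ℓ -
        ((aeval e g : algebraicClosure k Ω) : Ω)
    rw [e1, e4]) h6
  exact sub_eq_zero.1 h8

end consts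

section units

variable {A k κ : Type} [CommRing A] [IsDomain A] [IsDiscreteValuationRing A] [Field k]
    [Field κ] [Algebra A k] [Algebra k κ] [IsFractionRing A k]

theorem root_mem (V : ValuationSubring κ) (hVA : ∀ a : A, algebraMap k κ (algebraMap A k a) ∈ V)
    (f : A[X]) (hlc : IsUnit f.leadingCoeff) (e : κ)
    (he : aeval e (f.map (algebraMap A k)) = 0) : e ∈ V := by
  let g : A →+* V := ((algebraMap k κ).comp (algebraMap A k)).codRestrict V.toSubring hVA
  have hg : V.subtype.comp g = (algebraMap k κ).comp (algebraMap A k) := rfl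
  have hfe : f.eval₂ ((algebraMap k κ).comp (algebraMap A k)) e = 0 := by
    rw [aeval_def, eval₂_map] at he
    exact he
  obtain ⟨u, hu⟩ := hlc
  have hint : IsIntegral V e := by
    refine ⟨(C (↑u⁻¹ : A) * f).map g, ?_, ?_⟩
    · refine Monic.map _ ?_
      rw [Monic, leadingCoeff_C_mul_of_isUnit (Units.isUnit _), ← hu, Units.inv_mul]
    · rw [eval₂_map]
      change eval₂ ((algebraMap k κ).comp (algebraMap A k)) e _ = 0
      rw [eval₂_mul, hfe, mul_zero]
  obtain ⟨y, hy⟩ := IsIntegrallyClosed.isIntegral_iff.1 hint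
  rw [← hy]
  exact y.2

theorem isU_unit (V : ValuationSubring κ)
    (hVA : ∀ a : A, algebraMap k κ (algebraMap A k a) ∈ V) (b : A) (hb : IsUnit b) :
    IsU V (algebraMap k κ (algebraMap A k b)) := by
  obtain ⟨b, rfl⟩ := hb
  have h0 : algebraMap k κ (algebraMap A k (b : A)) * algebraMap k κ (algebraMap A k (↑b⁻¹ : A)) =
      1 := by
    rw [← map_mul, ← map_mul, Units.mul_inv, map_one, map_one]
  have hne : algebraMap k κ (algebraMap A k (b : A)) ≠ 0 := left_ne_zero_of_mul_eq_one h0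
  exact ⟨hne, hVA _, by rw [inv_eq_of_mul_eq_one_right h0]; exact hVA _⟩

/-- the value of `f` at a root of `g`, if `f` and `g` are coprime modulo the maximal ideal -/
theorem unit_eval (V : ValuationSubring κ)
    (hVA : ∀ a : A, algebraMap k κ (algebraMap A k a) ∈ V)
    (hVm : ∀ a ∈ IsLocalRing.maximalIdeal A, algebraMap k κ (algebraMap A k a) ∈ V.nonunits)
    (f g : A[X]) (hcop : IsCoprime (f.map (IsLocalRing.residue A)) (g.map (IsLocalRing.residue A)))
    (e : κ) (he : e ∈ V) (hg : aeval e (g.map (algebraMap A k)) ∈ V.nonunits) :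
    IsU V (aeval e (f.map (algebraMap A k))) := by
  let i : A →+* V := ((algebraMap k κ).comp (algebraMap A k)).codRestrict V.toSubring hVA
  let ρ : A →+* IsLocalRing.ResidueField V := (IsLocalRing.residue V).comp i
  have hρ : ∀ a : A, a ∈ IsLocalRing.maximalIdeal A → ρ a = 0 := by
    intro a ha
    rw [RingHom.comp_apply, IsLocalRing.residue_eq_zero_iff]
    have h1 := hVm a ha
    rw [ValuationSubring.mem_nonunits_iff_exists_mem_maximalIdeal] at h1
    obtain ⟨_, h2⟩ := h1
    exact h2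
  let j : IsLocalRing.ResidueField A →+* IsLocalRing.ResidueField V :=
    Ideal.Quotient.lift (IsLocalRing.maximalIdeal A) ρ hρ
  have hj : j.comp (IsLocalRing.residue A) = ρ := rfl
  have hval : ∀ p : A[X], aeval e (p.map (algebraMap A k)) = ((p.map i).eval (⟨e, he⟩ : V) : V) ∧
      IsLocalRing.residue V ((p.map i).eval (⟨e, he⟩ : V)) =
        ((p.map (IsLocalRing.residue A)).map j).eval (IsLocalRing.residue V ⟨e, he⟩) := by
    intro p
    constructor
    · have h1 : V.subtype ((p.map i).eval (⟨e, he⟩ : V)) =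
          eval₂ (V.subtype.comp i) (V.subtype ⟨e, he⟩) p := by
        rw [eval_map, hom_eval₂]
      rw [aeval_def, eval₂_map]
      exact h1.symm
    · rw [Polynomial.map_map, hj, eval_map, eval_map, hom_eval₂]
  obtain ⟨hf1, hf2⟩ := hval f
  obtain ⟨hg1, hg2⟩ := hval g
  rw [hg1] at hg
  have hg3 : IsLocalRing.residue V ((g.map i).eval (⟨e, he⟩ : V)) = 0 :=
    (residue_zero_iff _).2 hg
  obtain ⟨u, v, huv⟩ := hcop
  have h4 := congrArg (fun p => (p.map j).eval (IsLocalRing.residue V ⟨e, he⟩)) huv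
  simp only [Polynomial.map_add, Polynomial.map_mul, eval_add, eval_mul, Polynomial.map_one,
    eval_one] at h4
  rw [← hg2, hg3, mul_zero, add_zero] at h4
  have h5 : IsLocalRing.residue V ((f.map i).eval (⟨e, he⟩ : V)) ≠ 0 := by
    rw [hf2]
    intro h6
    rw [h6, mul_zero] at h4
    exact zero_ne_one h4
  rw [hf1]
  refine isU_of_not_nonunit (Subtype.mem _) fun h6 => h5 ((residue_zero_iff _).2 h6)

/-- separable modulo the maximal ideal: separable over the field -/
theorem sep_of_res (f : A[X]) (hlc : IsUnit f.leadingCoeff)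
    (hs : (f.map (IsLocalRing.residue A)).Separable) : (f.map (algebraMap A k)).Separable := by
  have hac : IsAlgClosure k (AlgebraicClosure k) := inferInstance
  have hkb : IsAlgClosed (AlgebraicClosure k) := hac.1
  obtain ⟨V, hVA, hVm⟩ := exists_V A k (AlgebraicClosure k)
  rw [Separable, isCoprime_iff_aeval_ne_zero_of_isAlgClosed k (AlgebraicClosure k)]
  intro e
  by_contra hcon
  push Not at hcon
  obtain ⟨h1, h2⟩ := hcon
  have heV : e ∈ V := root_mem V hVA f hlc e h1
  have h3 := unit_eval V hVA hVm (derivative f) f (by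
    rw [← derivative_map]
    exact hs.symm) e heV (by
      rw [h1, nonunits_iff]
      exact ⟨zero_mem _, Or.inl rfl⟩)
  rw [← derivative_map] at h3
  exact h3.1 h2

end units

section main

variable {A k F Ω : Type} [CommRing A] [IsDomain A] [IsDiscreteValuationRing A]
    [Finite (IsLocalRing.ResidueField A)] [Field k] [CharZero k] [Algebra A k] [IsFractionRing A k]
    [Field F] [Field Ω] [Algebra k F] [Algebra F Ω] [Algebra k Ω] [IsScalarTower k F Ω]
    [IsAlgClosed Ω] [Algebra.IsAlgebraic F Ω]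

/-- no sections over `F = k(x, w)`, `a B w^ℓ = f(x) G(x)`, which fix `Y` and `Z i`, `a Y^ℓ = f(x)`,
`b i (Z i)^ℓ = g i (x)`, for divisors `g i` of `G` -/
theorem locR {ℓ : ℕ} [Fact ℓ.Prime] (hℓ : IsUnit (ℓ : A)) (f G H : A[X])
    (hlf : IsUnit f.leadingCoeff) (hlG : IsUnit G.leadingCoeff)
    (hs : ((f * G).map (IsLocalRing.residue A)).Separable) (hdf : ℓ ∣ f.natDegree)
    (hdG : ℓ ∣ G.natDegree) (h3 : 3 ≤ f.natDegree + G.natDegree)
    {r : ℕ} (g : Fin r → A[X]) (hgG : ∀ i, g i ∣ G) (hdg : ∀ i, ℓ ∣ (g i).natDegree)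
    (t₀ : Fin r → k) (b : Fin r → A) (hb : ∀ i, IsUnit (b i)) (B : A) (hB : IsUnit B)
    (hlH : IsUnit H.leadingCoeff) (hroot : ∀ a : A, H.eval a ∉ IsLocalRing.maximalIdeal A)
    (hZ : ∀ (e : algebraicClosure k Ω) (c : Fin r → algebraicClosure k Ω),
      aeval e (f.map (algebraMap A k)) = 0 →
      (∀ i, algebraMap k (algebraicClosure k Ω) (algebraMap A k (b i)) * c i ^ ℓ =
        aeval e ((g i).map (algebraMap A k))) →
      aeval (e + ∑ i, algebraMap k (algebraicClosure k Ω) (t₀ i) * c i)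
        (H.map (algebraMap A k)) = 0)
    (ϖ : A) (hϖ : Irreducible ϖ) (a : k) (m : ℤ) (hm : ¬ (ℓ : ℤ) ∣ m)
    (t : A) (ht : IsUnit t) (ha : a = algebraMap A k t * algebraMap A k ϖ ^ m)
    (x w : F) (hx : Transcendental k x)
    (hxw : algebraMap k F (a * algebraMap A k B) * w ^ ℓ = aeval x ((f * G).map (algebraMap A k)))
    (hF : IntermediateField.adjoin k {x, w} = (⊤ : IntermediateField k F))
    (S : (algebraicClosure k Ω ≃ₐ[k] algebraicClosure k Ω) →*
      (geomPro ℓ k F Ω ≃ₐ[F] geomPro ℓ k F Ω)) (hcont : Continuous S)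
    (hcompat : ∀ σ (c : algebraicClosure k Ω) (z : geomPro ℓ k F Ω), (z : Ω) = (c : Ω) →
      (S σ z : Ω) = (σ c : Ω))
    (Y : Ω) (Z : Fin r → Ω)
    (hY : algebraMap k Ω a * Y ^ ℓ = aeval (algebraMap F Ω x) (f.map (algebraMap A k)))
    (hZ' : ∀ i, algebraMap k Ω (algebraMap A k (b i)) * Z i ^ ℓ =
      aeval (algebraMap F Ω x) ((g i).map (algebraMap A k)))
    (hYf : ∀ σ (z : geomPro ℓ k F Ω), (z : Ω) = Y → S σ z = z)
    (hZf : ∀ i σ (z : geomPro ℓ k F Ω), (z : Ω) = Z i → S σ z = z) : False := by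
  have hℓp : ℓ.Prime := Fact.out
  have hAk : Function.Injective (algebraMap A k) := IsFractionRing.injective A k
  have hac : IsAlgClosure k (algebraicClosure k Ω) := inferInstance
  have hkb : IsAlgClosed (algebraicClosure k Ω) := hac.1
  have hϖ0 : algebraMap A k ϖ ≠ 0 := by
    rw [Ne, map_eq_zero_iff _ hAk]
    exact hϖ.ne_zero
  have hU0 : ∀ u : A, IsUnit u → algebraMap A k u ≠ 0 := by
    intro u hu
    rw [Ne, map_eq_zero_iff _ hAk]
    exact hu.ne_zero
  have ht0 : algebraMap A k t ≠ 0 := hU0 t ht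
  have ha0 : a ≠ 0 := by
    rw [ha]
    exact mul_ne_zero ht0 (zpow_ne_zero _ hϖ0)
  have hf0 : f ≠ 0 := fun h => hlf.ne_zero (by rw [h, leadingCoeff_zero])
  have hG0 : G ≠ 0 := fun h => hlG.ne_zero (by rw [h, leadingCoeff_zero])
  have hfG : (f * G).natDegree = f.natDegree + G.natDegree := natDegree_mul hf0 hG0
  have hlfG : IsUnit (f * G).leadingCoeff := by
    rw [leadingCoeff_mul]
    exact hlf.mul hlG
  have hdfG : ℓ ∣ (f * G).natDegree := by
    rw [hfG]
    exact dvd_add hdf hdG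
  have hda : a * algebraMap A k B = algebraMap A k (t * B) * algebraMap A k ϖ ^ m := by
    rw [ha, map_mul]
    ring
  have hcop : IsCoprime (f.map (IsLocalRing.residue A)) (G.map (IsLocalRing.residue A)) := by
    rw [Polynomial.map_mul] at hs
    exact hs.isCoprime
  obtain ⟨V, hVA, hVm⟩ := exists_V A k (algebraicClosure k Ω)
  obtain ⟨W, ⟨h1, hres, ⟨e, he, hfix, z', hz', hz'e⟩, hst⟩, -⟩ := geo a_loc a_cov a_ndisc V hVA hVm
    hℓ (f * G) hlfG hs hdfG (by rw [hfG]; exact h3) ϖ hϖ _ m hm (t * B) (ht.mul hB) hda x w hx hxw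
    hF S hcont hcompat
  have hsepk : ((f * G).map (algebraMap A k)).Separable := sep_of_res (f * G) hlfG hs
  have hdegk : ∀ p : A[X], (p.map (algebraMap A k)).natDegree = p.natDegree := fun p =>
    natDegree_map_eq_of_injective hAk p
  have hYm : Y ∈ geomPro ℓ k F Ω := mem_geomPro ((f * G).map (algebraMap A k)) hsepk
    (by rw [hdegk]; exact hdfG) (by rw [hdegk, hfG]; exact h3) _ (mul_ne_zero ha0 (hU0 B hB)) x w
    hx hxw hF
    (f.map (algebraMap A k)) (by rw [Polynomial.map_mul]; exact dvd_mul_right _ _)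
    (by rw [hdegk]; exact hdf) a ha0 Y hY
  have hZm : ∀ i, Z i ∈ geomPro ℓ k F Ω := fun i =>
    mem_geomPro ((f * G).map (algebraMap A k)) hsepk
    (by rw [hdegk]; exact hdfG) (by rw [hdegk, hfG]; exact h3) _ (mul_ne_zero ha0 (hU0 B hB)) x w
    hx hxw hF
    ((g i).map (algebraMap A k)) (by
      obtain ⟨q, hq⟩ := hgG i
      rw [Polynomial.map_mul, hq, Polynomial.map_mul]
      exact Dvd.dvd.mul_left (dvd_mul_right _ _) _)
    (by rw [hdegk]; exact hdg i) _ (hU0 _ (hb i)) (Z i) (hZ' i)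
  have heV : e ∈ V := root_mem V hVA (f * G) hlfG e he
  rw [Polynomial.map_mul, map_mul] at he
  rcases mul_eq_zero.1 he with hef | heg
  · -- the place is above a root of `f`
    have hex : ∀ i, ∃ c : algebraicClosure k Ω,
        (∃ z' ∈ W.nonunits, (z' : Ω) = (Z i : Ω) - c) ∧
        algebraMap k (algebraicClosure k Ω) (algebraMap A k (b i)) * c ^ ℓ =
          aeval e ((g i).map (algebraMap A k)) := fun i =>
      value_root hℓp.pos (geomPro ℓ k F Ω)
        (fun c => const_geomPro ℓ k c) W h1 hres x e z' hz' hz'e ((g i).map (algebraMap A k))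
        (algebraMap A k (b i)) (hU0 _ (hb i)) ⟨Z i, hZm i⟩ (hZ' i)
    choose c hc hbc using hex
    have hcfix : ∀ i, ∀ σ : algebraicClosure k Ω ≃ₐ[k] algebraicClosure k Ω, Dec V σ →
        σ (c i) = c i := by
      intro i σ hσ
      obtain ⟨z'', hz'', hzc⟩ := hc i
      exact res_fixedX _ W h1 σ (S σ) (hst σ hσ) (fun c z hz => hcompat σ c z hz) ⟨Z i, hZm i⟩
        (hZf i σ _ rfl) (c i) z'' hz'' hzc
    obtain ⟨α, hα⟩ := root_mod V hVA hVm H hlH _ (hZ e c hef hbc) (fun σ hσ => by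
      rw [map_add, map_sum, hfix σ hσ]
      congr 1
      refine Finset.sum_congr rfl fun i _ => ?_
      rw [map_mul, AlgEquiv.commutes, hcfix i σ hσ])
    exact hroot α hα
  · -- the place is above a root of `G`
    obtain ⟨c, ⟨z'', hz'', hzc⟩, hac'⟩ := value_root hℓp.pos (geomPro ℓ k F Ω)
      (fun c => const_geomPro ℓ k c) W h1 hres x e z' hz' hz'e (f.map (algebraMap A k))
      a ha0 ⟨Y, hYm⟩ hY
    have hcfix : ∀ σ : algebraicClosure k Ω ≃ₐ[k] algebraicClosure k Ω, Dec V σ → σ c = c :=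
      fun σ hσ => res_fixedX _ W h1 σ (S σ) (hst σ hσ) (fun c z hz => hcompat σ c z hz) ⟨Y, hYm⟩
        (hYf σ _ rfl) c z'' hz'' hzc
    have hU := unit_eval V hVA hVm f G hcop e heV (by
      rw [heg, nonunits_iff]
      exact ⟨zero_mem _, Or.inl rfl⟩)
    have hc0 : c ≠ 0 := by
      rintro rfl
      rw [zero_pow hℓp.ne_zero, mul_zero] at hac'
      exact hU.1 hac'.symm
    letI : Algebra A (algebraicClosure k Ω) :=
      ((algebraMap k (algebraicClosure k Ω)).comp (algebraMap A k)).toAlgebra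
    haveI hst' : IsScalarTower A k (algebraicClosure k Ω) :=
      IsScalarTower.of_algebraMap_eq (fun _ => rfl)
    obtain ⟨j, hj⟩ := a_ine A k (algebraicClosure k Ω) V ϖ hVA hVm hϖ c hc0
      (fun σ hσ => hcfix σ hσ.1)
    set P : algebraicClosure k Ω := algebraMap A (algebraicClosure k Ω) ϖ with hP
    have hP0 : P ≠ 0 := by
      rw [hP, IsScalarTower.algebraMap_apply A k (algebraicClosure k Ω)]
      exact (_root_.map_ne_zero _).2 hϖ0
    have hPn : P ∈ V.nonunits := hVm ϖ hϖ.not_isUnit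
    -- `ϖ ^ (m + ℓ j)` is a unit
    have hPU : IsU V (P ^ (m + ℓ * j)) := by
      have htU := isU_unit V hVA t ht
      have h5 : P ^ (m + ℓ * j) = aeval e (f.map (algebraMap A k)) /
          (algebraMap k (algebraicClosure k Ω) (algebraMap A k t) * (c / P ^ j) ^ ℓ) := by
        rw [← hac', ha, map_mul, map_zpow₀, ← IsScalarTower.algebraMap_apply A k _ ϖ, ← hP,
          zpow_add₀ hP0, div_pow, ← zpow_natCast (P ^ j) ℓ, ← zpow_mul, mul_comm j (ℓ : ℤ)]
        have h6 := htU.1
        have h7 : P ^ ((ℓ : ℤ) * j) ≠ 0 := zpow_ne_zero _ hP0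
        have h8 : c ^ ℓ ≠ 0 := pow_ne_zero _ hc0
        field_simp
      rw [h5]
      refine hU.div (htU.mul ?_)
      have : ∀ n : ℕ, IsU V ((c / P ^ j) ^ n) := by
        intro n
        induction n with
        | zero => rw [pow_zero]; exact isU_one
        | succ n ih => rw [pow_succ]; exact ih.mul hj
      exact this ℓ
    have hzero : m + ℓ * j = 0 := by
      have hpos : ∀ n : ℕ, 0 < n → P ^ n ∈ V.nonunits := by
        intro n hn
        obtain ⟨n, rfl⟩ := Nat.exists_eq_succ_of_ne_zero hn.ne'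
        rw [pow_succ]
        exact non_mul (pow_mem (non_mem hPn) n) hPn
      rcases lt_trichotomy (m + ℓ * j) 0 with h6 | h6 | h6
      · exfalso
        obtain ⟨n, hn⟩ := Int.eq_ofNat_of_zero_le (show 0 ≤ -(m + ℓ * j) by omega)
        have h7 : m + ℓ * j = -(n : ℤ) := by omega
        rw [h7, zpow_neg, zpow_natCast] at hPU
        have h8 := hPU.inv
        rw [inv_inv] at h8
        exact h8.not_nonunit (hpos n (by omega))
      · exact h6
      · exfalso
        obtain ⟨n, hn⟩ := Int.eq_ofNat_of_zero_le h6.le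
        rw [hn, zpow_natCast] at hPU
        exact hPU.not_nonunit (hpos n (by omega))
    exact hm ⟨-j, by linear_combination hzero⟩

end main

end Pool.Agent.J4H44.FP
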