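import Pool.Agent.J4H44.FP.Sec
import Pool.Agent.Y157.PS.SupN

/-!
# Number fields

(helper44, project FP.)
-/

set_option autoImplicit false
set_option linter.all false

open Polynomial FF NumberField IsDedekindDomain

namespace Pool.Agent.J4H44.FP

open Pool.Agent.Y157.PS

/-- the local ring of `v` -/
theorem num_ring {K : Type} [Field K] [NumberField K] (v : HeightOneSpectrum (𝓞 K)) :
    ∃ (A : Type) (_ : CommRing A) (_ : IsDomain A) (_ : IsDiscreteValuationRing A)
      (_ : Algebra (𝓞 K) A) (_ : Algebra A K), Finite (IsLocalRing.ResidueField A) ∧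
      IsFractionRing A K ∧ (algebraMap A K).comp (algebraMap (𝓞 K) A) = algebraMap (𝓞 K) K ∧
      (∀ c : 𝓞 K, c ∉ v.asIdeal → IsUnit (algebraMap (𝓞 K) A c)) ∧
      (∃ e : (𝓞 K ⧸ v.asIdeal) ≃+* IsLocalRing.ResidueField A,
        (IsLocalRing.residue A).comp (algebraMap (𝓞 K) A) =
          (e : (𝓞 K ⧸ v.asIdeal) →+* IsLocalRing.ResidueField A).comp
            (Ideal.Quotient.mk v.asIdeal)) ∧
      ∀ (b : 𝓞 K) (n : ℕ), b ∈ v.asIdeal ^ n → b ∉ v.asIdeal ^ (n + 1) →
        ∃ ϖ t : A, Irreducible ϖ ∧ IsUnit t ∧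
          algebraMap (𝓞 K) K b = algebraMap A K t * algebraMap A K ϖ ^ (n : ℤ) := by
  classical
  have hvm : v.asIdeal.IsMaximal := v.isMaximal
  have hvp : v.asIdeal.IsPrime := v.isPrime
  have hle : v.asIdeal.primeCompl ≤ nonZeroDivisors (𝓞 K) := v.asIdeal.primeCompl_le_nonZeroDivisors
  let A := Localization.subalgebra.ofField K v.asIdeal.primeCompl hle
  have hloc : IsLocalization.AtPrime A v.asIdeal :=
    Localization.subalgebra.isLocalization_ofField K v.asIdeal.primeCompl hle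
  have hdvr : IsDiscreteValuationRing A :=
    IsLocalization.AtPrime.isDiscreteValuationRing_of_dedekind_domain (𝓞 K) v.ne_bot A
  have hfr : IsFractionRing A K := inferInstance
  have hunit : ∀ c : 𝓞 K, c ∉ v.asIdeal → IsUnit (algebraMap (𝓞 K) A c) := fun c hc =>
    (IsLocalization.AtPrime.isUnit_to_map_iff A v.asIdeal c).2 hc
  let e : (𝓞 K ⧸ v.asIdeal) ≃+* IsLocalRing.ResidueField A :=
    IsLocalization.AtPrime.equivQuotMaximalIdeal v.asIdeal A
  have hcomp : (IsLocalRing.residue A).comp (algebraMap (𝓞 K) A) =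
      (e : (𝓞 K ⧸ v.asIdeal) →+* IsLocalRing.ResidueField A).comp
        (Ideal.Quotient.mk v.asIdeal) := by
    ext c
    rfl
  have hcompK : (algebraMap A K).comp (algebraMap (𝓞 K) A) = algebraMap (𝓞 K) K := by
    ext c
    rfl
  have hfin : Finite (IsLocalRing.ResidueField A) := by
    have h1 : Finite (𝓞 K ⧸ v.asIdeal) := Ideal.finiteQuotientOfFreeOfNeBot _ v.ne_bot
    exact Finite.of_equiv _ e.toEquiv
  refine ⟨A, inferInstance, inferInstance, hdvr, inferInstance, inferInstance, hfin, hfr, hcompK,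
    hunit, ⟨e, hcomp⟩, ?_⟩
  intro b n hb hb'
  obtain ⟨ϖ, hϖ⟩ := IsDiscreteValuationRing.exists_irreducible A
  have hpow : ∀ m : ℕ, b ∈ v.asIdeal ^ m ↔ algebraMap (𝓞 K) A b ∈
      IsLocalRing.maximalIdeal A ^ m := by
    intro m
    rw [← IsLocalization.AtPrime.under_maximalIdeal_pow v.asIdeal A]
    rfl
  have hb0 : algebraMap (𝓞 K) A b ≠ 0 := by
    intro h
    apply hb'
    rw [hpow, h]
    exact zero_mem _
  obtain ⟨j, u, hj⟩ := IsDiscreteValuationRing.eq_unit_mul_pow_irreducible hb0 hϖ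
  have hdvd : ∀ m : ℕ, b ∈ v.asIdeal ^ m ↔ m ≤ j := by
    intro m
    rw [hpow, hϖ.maximalIdeal_eq, Ideal.span_singleton_pow, Ideal.mem_span_singleton, hj,
      (Units.isUnit u).dvd_mul_left, pow_dvd_pow_iff hϖ.ne_zero hϖ.not_isUnit]
  have hjn : j = n := by
    rw [hdvd] at hb hb'
    omega
  refine ⟨ϖ, u, hϖ, u.isUnit, ?_⟩
  rw [← hcompK, RingHom.comp_apply, hj, map_mul, map_pow, hjn, zpow_natCast]

/-- clearing denominators -/
theorem int_poly {K : Type} [Field K] [NumberField K] (f : K[X]) :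
    ∃ (c : 𝓞 K) (g : (𝓞 K)[X]), algebraMap (𝓞 K) K c ≠ 0 ∧ c ≠ 0 ∧
      g.map (algebraMap (𝓞 K) K) = C (algebraMap (𝓞 K) K c) * f ∧ g.natDegree = f.natDegree := by
  obtain ⟨c, hc, hcf⟩ := IsLocalization.integerNormalization_spec (nonZeroDivisors (𝓞 K)) f
  set g := IsLocalization.integerNormalization (nonZeroDivisors (𝓞 K)) f with hg
  have hc0 : c ≠ 0 := nonZeroDivisors.ne_zero hc
  have hinj : Function.Injective (algebraMap (𝓞 K) K) := IsFractionRing.injective (𝓞 K) K
  have hcK : algebraMap (𝓞 K) K c ≠ 0 := by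
    rw [Ne, map_eq_zero_iff _ hinj]
    exact hc0
  have hgf : g.map (algebraMap (𝓞 K) K) = C (algebraMap (𝓞 K) K c) * f := by
    rw [hcf]
    ext i
    rw [coeff_smul, coeff_C_mul, Algebra.smul_def]
  refine ⟨c, g, hcK, hc0, hgf, ?_⟩
  rw [← natDegree_map_eq_of_injective hinj g, hgf, natDegree_C_mul hcK]

end Pool.Agent.J4H44.FP
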