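import Pool.Agent.J4H44.FP.Gp

/-!
# Rational places; small degrees

(helper44, project FP.)
-/

set_option autoImplicit false
set_option linter.all false

open Polynomial

namespace Pool.Agent.J4H44.FP

open Pool.Agent.Y157.PS

/-- no places with residue field `k` -/
theorem no_place {ℓ : ℕ} (hℓ : 0 < ℓ) {k : Type} [Field k] {r : ℕ} (a : k) (ha : a ≠ 0)
    (b : Fin r → k) (hb : ∀ i, b i ≠ 0) (f : k[X]) (g : Fin r → k[X]) (hdf : ℓ ∣ f.natDegree)
    (h2 : ∀ (x y : k) (z : Fin r → k), a * y ^ ℓ = f.eval x → ¬ ∀ i, b i * z i ^ ℓ = (g i).eval x)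
    (h3 : ∀ r : k, a * r ^ ℓ ≠ f.leadingCoeff)
    (F : Type) [Field F] [Algebra k F] (x y : F) (z : Fin r → F)
    (hy : algebraMap k F a * y ^ ℓ = aeval x f)
    (hz : ∀ i, algebraMap k F (b i) * z i ^ ℓ = aeval x (g i))
    (O : ValuationSubring F) (hO : ∀ c : k, algebraMap k F c ∈ O)
    (hres : ∀ u ∈ O, ∃ c : k, u - algebraMap k F c ∈ O.nonunits) : False := by
  have hconst : ∀ c : k, algebraMap k F c ∈ O.nonunits → c = 0 := by
    intro c hc
    by_contra h0
    have h1 : IsU O (algebraMap k F c) :=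
      ⟨(_root_.map_ne_zero _).2 h0, hO c, by rw [← map_inv₀]; exact hO _⟩
    exact h1.not_nonunit hc
  -- values of polynomials
  have hval : ∀ (p : k[X]) (u : F) (c : k), u ∈ O → u - algebraMap k F c ∈ O.nonunits →
      aeval u p ∈ O ∧ aeval u p - algebraMap k F (p.eval c) ∈ O.nonunits := by
    intro p u c hu hc
    have h1 := eval_congr O (algebraMap k F) hO p u (algebraMap k F c) hu (hO c) hc
    rw [← aeval_def, ← aeval_def, aeval_algebraMap_apply] at h1
    have h2 : aeval c p = p.eval c := rfl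
    rw [h2] at h1
    exact ⟨h1.2, h1.1⟩
  -- roots
  have hroot : ∀ (d : k) (p : F) (q : k) (u : F), d ≠ 0 → algebraMap k F d * u ^ ℓ = p → p ∈ O →
      p - algebraMap k F q ∈ O.nonunits → ∃ c : k, d * c ^ ℓ = q := by
    intro d p q u hd hu hp hpq
    have hd' : algebraMap k F d ≠ 0 := (_root_.map_ne_zero _).2 hd
    have huO : u ∈ O := by
      refine mem_of_pow O hℓ ?_
      have h1 : u ^ ℓ = algebraMap k F d⁻¹ * p := by
        rw [← hu, map_inv₀, inv_mul_cancel_left₀ hd']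
      rw [h1]
      exact mul_mem (hO _) hp
    obtain ⟨c, hc⟩ := hres u huO
    refine ⟨c, ?_⟩
    have h1 := pow_congr O u (algebraMap k F c) huO (hO c) hc ℓ
    have h2 := non_mul (hO d) h1
    have h4 := non_sub hpq h2
    have h5 : p - algebraMap k F q - algebraMap k F d * (u ^ ℓ - algebraMap k F c ^ ℓ) =
        algebraMap k F (d * c ^ ℓ - q) := by
      rw [← hu, map_sub, map_mul, map_pow]
      ring
    rw [h5] at h4
    exact sub_eq_zero.1 (hconst _ h4)
  by_cases hx : x ∈ O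
  · obtain ⟨c, hc⟩ := hres x hx
    obtain ⟨y₀, hy₀⟩ := hroot a _ (f.eval c) y ha hy (hval f x c hx hc).1 (hval f x c hx hc).2
    have hzex := fun i => hroot (b i) _ ((g i).eval c) (z i) (hb i) (hz i)
      (hval (g i) x c hx hc).1 (hval (g i) x c hx hc).2
    choose z₀ hz₀ using hzex
    exact h2 c y₀ z₀ hy₀ hz₀
  · have hx0 : x ≠ 0 := by
      rintro rfl
      exact hx (zero_mem _)
    have hxi : x⁻¹ ∈ O := (O.mem_or_inv_mem x).resolve_left hx
    have hxn : x⁻¹ - algebraMap k F 0 ∈ O.nonunits := by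
      rw [map_zero, sub_zero, nonunits_iff]
      exact ⟨hxi, Or.inr (by rwa [inv_inv])⟩
    obtain ⟨n, hn⟩ := hdf
    let _ := invertibleOfNonzero hx0
    have h4 := Polynomial.eval₂_reverse_mul_pow (algebraMap k F) x f
    rw [invOf_eq_inv] at h4
    have h5 : algebraMap k F a * (y * x⁻¹ ^ n) ^ ℓ = aeval x⁻¹ (reverse f) := by
      have h6 : x⁻¹ ^ f.natDegree * x ^ f.natDegree = 1 := by
        rw [← mul_pow, inv_mul_cancel₀ hx0, one_pow]
      rw [mul_pow, ← mul_assoc, hy, ← pow_mul, mul_comm n ℓ, ← hn, aeval_def, aeval_def, ← h4,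
        mul_assoc, mul_comm (x ^ f.natDegree), h6, mul_one]
    obtain ⟨h7, h8⟩ := hval (reverse f) x⁻¹ 0 hxi hxn
    obtain ⟨ρ, hρ⟩ := hroot a _ _ _ ha h5 h7 h8
    apply h3 ρ
    rw [hρ, ← coeff_zero_eq_eval_zero, coeff_zero_reverse]

/-- small degrees -/
theorem SG_small {ℓ r : ℕ} {K : Type} [Field K] {f : K[X]} {g : Fin r → K[X]} {b : Fin r → K}
    {σ : AlgebraicClosure K ≃ₐ[K] AlgebraicClosure K} (D : ℕ) (hD : D < ℓ)
    (h : ∀ n : ℕ, 0 < n → n ≤ D → ∀ z ∈ ZZ ℓ f g b, (σ ^ n) z.1 = z.1 →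
      ¬ ∀ i, (σ ^ n) (z.2 i) = z.2 i) (d : ℕ) (hd : 0 < d) (hdD : d ≤ D) :
    d ∉ SG ℓ f g b σ := by
  let T : AddSubmonoid ℕ :=
    { carrier := {n | n = 0 ∨ D < n}
      zero_mem' := Or.inl rfl
      add_mem' := by
        rintro m n (rfl | hm) (rfl | hn)
        · exact Or.inl rfl
        · right
          rwa [zero_add]
        · right
          rwa [add_zero]
        · right
          omega }
  have h1 : SG ℓ f g b σ ≤ T := by
    rw [SG, AddSubmonoid.closure_le]
    rintro n (hn | ⟨z, hz, h1, h2⟩)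
    · rw [Set.mem_singleton_iff] at hn
      right
      omega
    · by_contra hcon
      have h3 : ¬ (n = 0 ∨ D < n) := hcon
      push Not at h3
      exact h n (Nat.pos_of_ne_zero h3.1) h3.2 z hz h1 h2
  intro h2
  rcases h1 h2 with h3 | h3
  · omega
  · omega

end Pool.Agent.J4H44.FP
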