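import Pool.Agent.Y157.PS.Num

/-!
# Roots of the divisors of `f` in the maximal geometrically pro-`ℓ` extension

(helper44, project FP.)
-/

set_option autoImplicit false
set_option linter.all false

open Polynomial FF

namespace Pool.Agent.J4H44.FP

open Pool.Agent.Y157.PS

section

variable {ℓ : ℕ} [Fact ℓ.Prime] {k F Ω : Type} [Field k] [Field F] [Field Ω] [Algebra k F]
  [Algebra F Ω] [Algebra k Ω] [IsScalarTower k F Ω] [IsAlgClosed Ω] [Algebra.IsAlgebraic F Ω]
  [CharZero k]

theorem prod_roots (f : k[X]) (hf : f.Separable) (hd : ℓ ∣ f.natDegree)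
    (h3 : 3 ≤ f.natDegree) (d : k) (hd0 : d ≠ 0) (x y : F) (hx : Transcendental k x)
    (hxy : algebraMap k F d * y ^ ℓ = aeval x f)
    (hF : IntermediateField.adjoin k {x, y} = (⊤ : IntermediateField k F))
    (e₀ : algebraicClosure k Ω) (he₀ : aeval e₀ f = 0) (T : Multiset (algebraicClosure k Ω)) :
    (∀ e ∈ T, aeval e f = 0) → ∃ q ∈ geomPro ℓ k F Ω,
      q ^ ℓ * (algebraMap F Ω x - (e₀ : Ω)) ^ Multiset.card T =
        (T.map fun e : algebraicClosure k Ω => algebraMap F Ω x - (e : Ω)).prod := by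
  have hne : algebraMap F Ω x - (e₀ : Ω) ≠ 0 := by
    intro h
    apply hx
    have h1 : IsAlgebraic k (algebraMap F Ω x) := by
      rw [sub_eq_zero.1 h]
      exact e₀.2.isAlgebraic
    exact (isAlgebraic_algebraMap_iff (algebraMap F Ω).injective).1 h1
  induction T using Multiset.induction with
  | empty => exact fun _ => ⟨1, one_mem _, by simp⟩
  | cons a T ih =>
    intro h
    obtain ⟨q, hq, hq1⟩ := ih fun e he => h e (Multiset.mem_cons_of_mem he)
    obtain ⟨r, hr⟩ := a_rts ℓ k F Ω f hf hd h3 d hd0 x y hx hxy hF a e₀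
      (h a (Multiset.mem_cons_self a T)) he₀
    refine ⟨(r : Ω) * q, mul_mem r.2 hq, ?_⟩
    rw [Multiset.map_cons, Multiset.prod_cons, ← hq1, Multiset.card_cons, mul_pow, hr, pow_succ]
    field_simp

theorem mem_geomPro (f : k[X]) (hf : f.Separable) (hd : ℓ ∣ f.natDegree)
    (h3 : 3 ≤ f.natDegree) (d : k) (hd0 : d ≠ 0) (x y : F) (hx : Transcendental k x)
    (hxy : algebraMap k F d * y ^ ℓ = aeval x f)
    (hF : IntermediateField.adjoin k {x, y} = (⊤ : IntermediateField k F))
    (g : k[X]) (hg : g ∣ f) (hdg : ℓ ∣ g.natDegree) (c : k) (hc : c ≠ 0) (h : Ω)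
    (hh : algebraMap k Ω c * h ^ ℓ = aeval (algebraMap F Ω x) g) : h ∈ geomPro ℓ k F Ω := by
  have hℓ : ℓ ≠ 0 := (Fact.out : ℓ.Prime).ne_zero
  have hac : IsAlgClosure k (algebraicClosure k Ω) := inferInstance
  have hkb : IsAlgClosed (algebraicClosure k Ω) := hac.1
  have hinjk : Function.Injective (algebraMap k (algebraicClosure k Ω)) :=
    (algebraMap k (algebraicClosure k Ω)).injective
  have hf0 : f ≠ 0 := hf.ne_zero
  have hg0 : g ≠ 0 := fun h0 => hf0 (zero_dvd_iff.1 (h0 ▸ hg))
  obtain ⟨e₀, he₀⟩ : ∃ e₀ : algebraicClosure k Ω, aeval e₀ f = 0 := by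
    obtain ⟨e, he⟩ := IsAlgClosed.exists_aeval_eq_zero (algebraicClosure k Ω) f (by
      intro h0
      have := natDegree_eq_zero_iff_degree_le_zero.2 h0.le
      omega)
    exact ⟨e, he⟩
  set T := (g.map (algebraMap k (algebraicClosure k Ω))).roots with hT
  have hsp : (g.map (algebraMap k (algebraicClosure k Ω))).Splits := IsAlgClosed.splits _
  have hcard : Multiset.card T = g.natDegree := by
    rw [hT, ← hsp.natDegree_eq_card_roots, natDegree_map_eq_of_injective hinjk]
  have hTf : ∀ e ∈ T, aeval e f = 0 := by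
    intro e he
    have h1 : (g.map (algebraMap k (algebraicClosure k Ω))).IsRoot e := by
      rw [hT, mem_roots ((Polynomial.map_ne_zero_iff hinjk).2 hg0)] at he
      exact he
    rw [IsRoot.def, eval_map_algebraMap] at h1
    obtain ⟨r, rfl⟩ := hg
    rw [map_mul, h1, zero_mul]
  obtain ⟨q, hq, hq1⟩ := prod_roots f hf hd h3 d hd0 x y hx hxy hF e₀ he₀ T hTf
  obtain ⟨n, hn⟩ := hdg
  rw [hcard, hn] at hq1
  -- the value of `g`
  have hval : aeval (algebraMap F Ω x) g = algebraMap k Ω g.leadingCoeff *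
      (T.map fun e : algebraicClosure k Ω => algebraMap F Ω x - (e : Ω)).prod := by
    have h1 : aeval (algebraMap F Ω x) g = ((g.map (algebraMap k (algebraicClosure k Ω))).map
        (algebraMap (algebraicClosure k Ω) Ω)).eval (algebraMap F Ω x) := by
      rw [Polynomial.map_map, ← IsScalarTower.algebraMap_eq, eval_map_algebraMap]
    rw [h1]
    have h2 := hsp.eq_prod_roots
    rw [← hT] at h2
    conv_lhs => rw [h2]
    rw [leadingCoeff_map, Polynomial.map_mul, map_C, ← IsScalarTower.algebraMap_apply,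
      Polynomial.map_multiset_prod, eval_mul, eval_C, eval_multiset_prod, Multiset.map_map,
      Multiset.map_map]
    congr 2
    refine Multiset.map_congr rfl fun e _ => ?_
    simp only [Function.comp_apply, Polynomial.map_sub, map_X, map_C, eval_sub, eval_X, eval_C]
    rfl
  obtain ⟨r, hr⟩ : ∃ r : algebraicClosure k Ω, r ^ ℓ =
      algebraMap k (algebraicClosure k Ω) (g.leadingCoeff / c) :=
    IsAlgClosed.exists_pow_nat_eq _ (Nat.pos_of_ne_zero hℓ)
  set p : Ω := (r : Ω) * (q * (algebraMap F Ω x - (e₀ : Ω)) ^ n) with hp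
  have hpm : p ∈ geomPro ℓ k F Ω := by
    refine mul_mem (const_geomPro ℓ k r) (mul_mem hq (pow_mem (sub_mem ?_ (const_geomPro ℓ k e₀)) n))
    exact (geomPro ℓ k F Ω).algebraMap_mem x
  have hr' : (r : Ω) ^ ℓ = algebraMap k Ω (g.leadingCoeff / c) := by
    have h1 := congrArg (algebraMap (algebraicClosure k Ω) Ω) hr
    rw [map_pow, ← IsScalarTower.algebraMap_apply] at h1
    exact h1
  have hcΩ : algebraMap k Ω c ≠ 0 := (_root_.map_ne_zero _).2 hc
  have hph : p ^ ℓ = h ^ ℓ := by
    apply mul_left_cancel₀ hcΩ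
    rw [hh, hval, ← hq1, hp, mul_pow, mul_pow, hr', map_div₀, ← pow_mul, mul_comm n ℓ]
    field_simp
  by_cases hp0 : p = 0
  · rw [hp0, zero_pow hℓ] at hph
    rw [pow_eq_zero_iff hℓ |>.1 hph.symm]
    exact zero_mem _
  · have h1 : (h / p) ^ ℓ = 1 := by
      rw [div_pow, hph, div_self (pow_ne_zero _ (by
        rintro rfl
        rw [zero_pow hℓ] at hph
        exact hp0 (pow_eq_zero_iff hℓ |>.1 hph)))]
    have h2 : h / p ∈ algebraicClosure k Ω := by
      rw [mem_algebraicClosure_iff]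
      refine IsIntegral.isAlgebraic (IsIntegral.of_pow (Nat.pos_of_ne_zero hℓ) ?_)
      rw [h1]
      exact isIntegral_one
    have h3 : h = p * (h / p) := by field_simp
    rw [h3]
    exact mul_mem hpm (const_geomPro ℓ k ⟨h / p, h2⟩)

end

end Pool.Agent.J4H44.FP
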